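import Pool.Agent.H64.CC.Lin
import Pool.Agent.H63.Col

/-!
# The configuration determinant in coordinates
-/

set_option autoImplicit false

namespace Pool.Agent.H65.AS

open Finset Polynomial
open Pool.Agent.Results.MP_1fedf0_gt.CollinearPlusOne

/-- homogeneous evaluation in degree `d` -/
noncomputable def hev (d : ℕ) (t : ℂ × ℂ) (f : ℂ[X]) : ℂ :=
  ∑ k ∈ range (d + 1), t.1 ^ k * t.2 ^ (d - k) * f.coeff k

theorem hev_lin (d : ℕ) (t : ℂ × ℂ) (v : ℂ × ℂ) (f : ℂ[X]) (hf : f.natDegree ≤ d) :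
    hev (d + 1) t ((C v.2 * X - C v.1) * f) = br t v * hev d t f := by
  unfold hev br
  have hc : f.coeff (d + 1) = 0 := coeff_eq_zero_of_natDegree_lt (by omega)
  have h1 : ∀ k, ((C v.2 * X - C v.1) * f).coeff (k + 1) =
      v.2 * f.coeff k - v.1 * f.coeff (k + 1) := by
    intro k
    rw [sub_mul, coeff_sub, mul_assoc, coeff_C_mul, coeff_X_mul, coeff_C_mul]
  have h0 : ((C v.2 * X - C v.1) * f).coeff 0 = -(v.1 * f.coeff 0) := by
    rw [sub_mul, coeff_sub, mul_assoc, coeff_C_mul, mul_coeff_zero, coeff_X_zero, coeff_C_mul]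
    ring
  rw [Finset.sum_range_succ', h0]
  simp only [h1]
  have h2 : ∀ k ∈ range (d + 1), t.1 ^ (k + 1) * t.2 ^ (d + 1 - (k + 1)) *
      (v.2 * f.coeff k - v.1 * f.coeff (k + 1)) =
      v.2 * t.1 * (t.1 ^ k * t.2 ^ (d - k) * f.coeff k) -
      v.1 * (t.1 ^ (k + 1) * t.2 ^ (d + 1 - (k + 1)) * f.coeff (k + 1)) := by
    intro k _
    rw [Nat.add_sub_add_right, pow_succ]
    ring
  rw [Finset.sum_congr rfl h2, Finset.sum_sub_distrib, ← Finset.mul_sum, ← Finset.mul_sum]
  have h3 : ∑ k ∈ range (d + 1), t.1 ^ (k + 1) * t.2 ^ (d + 1 - (k + 1)) * f.coeff (k + 1) +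
      t.1 ^ 0 * t.2 ^ (d + 1 - 0) * f.coeff 0 =
      t.2 * ∑ k ∈ range (d + 1), t.1 ^ k * t.2 ^ (d - k) * f.coeff k := by
    rw [← Finset.sum_range_succ' (fun k => t.1 ^ k * t.2 ^ (d + 1 - k) * f.coeff k) (d + 1),
      Finset.sum_range_succ, hc, mul_zero, add_zero, Finset.mul_sum]
    refine Finset.sum_congr rfl fun k hk => ?_
    rw [Finset.mem_range] at hk
    have : d + 1 - k = (d - k) + 1 := by omega
    rw [this, pow_succ]
    ring
  linear_combination (-v.1) * h3

/-- the polynomial of a family of spinors -/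
noncomputable def pol {ι : Type*} (v : ι → ℂ × ℂ) (s : Finset ι) : ℂ[X] :=
  ∏ j ∈ s, (C (v j).2 * X - C (v j).1)

theorem pol_natDegree {ι : Type*} (v : ι → ℂ × ℂ) (s : Finset ι) :
    (pol v s).natDegree ≤ s.card := by
  unfold pol
  refine (natDegree_prod_le _ _).trans ?_
  rw [Finset.card_eq_sum_ones]
  refine Finset.sum_le_sum fun j _ => ?_
  refine (natDegree_sub_le _ _).trans ?_
  rw [natDegree_C]
  exact max_le ((natDegree_C_mul_le _ _).trans natDegree_X_le) (by omega)

theorem hev_pol {ι : Type*} [DecidableEq ι] (v : ι → ℂ × ℂ) (s : Finset ι) (t : ℂ × ℂ) :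
    hev s.card t (pol v s) = ∏ j ∈ s, br t (v j) := by
  induction s using Finset.induction_on with
  | empty => simp [hev, pol]
  | insert a s ha ih =>
    have h1 : pol v (insert a s) = (C (v a).2 * X - C (v a).1) * pol v s := by
      unfold pol
      rw [Finset.prod_insert ha]
    rw [Finset.card_insert_of_notMem ha, h1, hev_lin _ _ _ _ (pol_natDegree v s), ih,
      Finset.prod_insert ha]

/-- the matrix of the coefficients -/
noncomputable def cf {n : ℕ} (B : Fin n → ℂ[X]) : Matrix (Fin n) (Fin n) ℂ :=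
  Matrix.of fun i k => (B i).coeff (k : ℕ)

theorem det_hev {n : ℕ} (B : Fin n → ℂ[X]) (t : Fin n → ℂ × ℂ) :
    (Matrix.of fun i l : Fin n => hev (n - 1) (t l) (B i)).det =
      (cf B).det * ∏ i : Fin n, ∏ j ∈ Finset.Ioi i, ((t j).1 * (t i).2 - (t i).1 * (t j).2) := by
  have h := Matrix.det_projVandermonde (fun i => (t i).1) (fun i => (t i).2)
  rw [← h, ← Matrix.det_transpose (Matrix.projVandermonde _ _), ← Matrix.det_mul]
  congr 1
  ext i l
  rw [Matrix.mul_apply, Matrix.of_apply]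
  unfold hev
  have hn : n - 1 + 1 = n := by have := i.2; omega
  rw [hn, Finset.sum_range (fun k => (t l).1 ^ k * (t l).2 ^ (n - 1 - k) * (B i).coeff k)]
  refine Finset.sum_congr rfl fun k _ => ?_
  rw [Matrix.transpose_apply, Matrix.projVandermonde_apply, Fin.val_rev]
  unfold cf
  rw [Matrix.of_apply, show n - ((k : ℕ) + 1) = n - 1 - (k : ℕ) by omega]
  ring

/-- products over ordered pairs -/
theorem prod_pairs {M : Type*} [CommMonoid M] {n : ℕ} (f : Fin n → Fin n → M) :
    ∏ a, ∏ b ∈ Finset.univ.erase a, f a b = ∏ a, ∏ b ∈ Finset.Ioi a, (f a b * f b a) := by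
  have h1 : ∀ a : Fin n, ∏ b ∈ Finset.univ.erase a, f a b =
      (∏ b ∈ Finset.Ioi a, f a b) * ∏ b ∈ Finset.Iio a, f a b := by
    intro a
    rw [← Finset.prod_union]
    · refine Finset.prod_congr ?_ fun _ _ => rfl
      ext b
      simp only [Finset.mem_erase, Finset.mem_univ, and_true, Finset.mem_union, Finset.mem_Ioi,
        Finset.mem_Iio]
      constructor
      · intro h
        rcases lt_or_gt_of_ne h with h | h
        · exact Or.inr h
        · exact Or.inl h
      · rintro (h | h)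
        · exact h.ne'
        · exact h.ne
    · rw [Finset.disjoint_left]
      intro b hb hb'
      rw [Finset.mem_Ioi] at hb
      rw [Finset.mem_Iio] at hb'
      exact absurd (hb.trans hb') (lt_irrefl _)
  simp only [h1, Finset.prod_mul_distrib]
  congr 1
  refine Finset.prod_comm' ?_
  intro a b
  simp only [Finset.mem_univ, Finset.mem_Iio, Finset.mem_Ioi, true_and, and_true]

end Pool.Agent.H65.AS
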