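import Pool.Agent.H65.AS.Pos

/-!
# The coefficient determinant and the determinants at the nodes

`D n V` is the determinant of the coefficient matrix of the rows `0, ..., n - 1`.

Proof of `D_E` (`n = N + 1`): take `y = (x_(N-1) - 2 pi + x_0) / 2`, evaluate the `N + 1` rows
`0..N` at the points `y, x_0, ..., x_(N-1)` (`x_l = nd (N+1) V l`): the matrix of values is
(coefficient matrix) * (transpose of `Matrix.projVandermonde (sin (Y / 2)) (cos (Y / 2))`), see
`ev_apply`, and its first row is `(∏ sin ((y - V 0 k) / 2), 0, ..., 0)` by `Rv_zero`, so its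
determinant is `(∏_l sin ((x_l - y) / 2)) * dm (Mf (N+1) V) 0 N` (`V 0 (l+1) = x_l - 2 pi`, `nd_eq`).
On the other side `Matrix.det_projVandermonde` gives
`D * (∏_l sin ((x_l - y) / 2)) * vd N V`.  All factors `sin ((x_l - y) / 2)` are positive.

Proof of `D_A`: the same without the extra point: row `a` of the deleted array is the row `a + 1`
of `V` without the cell `N + 1` (`Del.image (del_zero N _) a`, `P_image`), evaluated at the `x_l`
with `ev_P`.
-/

set_option autoImplicit false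

namespace Pool.Agent.H65.AS

open Finset Polynomial Pool.Agent.H40.Atiyah

/-- the determinant of the coefficient matrix of the rows `0, ..., n - 1` -/
noncomputable def D (n : ℕ) (V : ℤ → ℤ → ℝ) : ℝ :=
  (Matrix.of fun q k : Fin n =>
    (P (V (q : ℕ)) (Ioo ((q : ℕ) : ℤ) (((q : ℕ) : ℤ) + n))).coeff (k : ℕ)).det

/-- the Vandermonde product of the nodes -/
noncomputable def vd (N : ℕ) (V : ℤ → ℤ → ℝ) : ℝ :=
  ∏ i : Fin N, ∏ j ∈ Finset.Ioi i, Real.sin ((nd (N + 1) V j - nd (N + 1) V i) / 2)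

/-- the row `j + 1` without the cell of the column `N + 1`, at the nodes -/
noncomputable def Af (N : ℕ) (V : ℤ → ℤ → ℝ) (j l : ℕ) : ℝ :=
  ∏ k ∈ (Ioo ((j : ℤ) + 1) ((j : ℤ) + 1 + ((N + 1 : ℕ) : ℤ))).erase ((N : ℤ) + 1),
    Real.sin ((nd (N + 1) V l - V (j + 1) k) / 2)

/-- the matrix of the values of forms of degree `d` at `d + 1` angles -/
theorem det_ev (d : ℕ) (f : Fin (d + 1) → ℝ[X]) (Y : Fin (d + 1) → ℝ) :
    (Matrix.of fun i j : Fin (d + 1) => ev d (Y j) (f i)).det =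
      (Matrix.of fun i k : Fin (d + 1) => (f i).coeff (k : ℕ)).det *
        ∏ i : Fin (d + 1), ∏ j ∈ Finset.Ioi i, Real.sin ((Y j - Y i) / 2) := by
  have h1 : (Matrix.of fun i j : Fin (d + 1) => ev d (Y j) (f i)) =
      (Matrix.of fun i k : Fin (d + 1) => (f i).coeff (k : ℕ)) *
        (Matrix.projVandermonde (fun i => Real.sin (Y i / 2))
          (fun i => Real.cos (Y i / 2))).transpose := by
    ext i j
    rw [Matrix.mul_apply, Matrix.of_apply, ev_apply, Finset.sum_range]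
    refine Finset.sum_congr rfl fun k _ => ?_
    rw [Matrix.of_apply, Matrix.transpose_apply, Matrix.projVandermonde_apply, Fin.val_rev]
    have : d + 1 - ((k : ℕ) + 1) = d - k := by omega
    rw [this]
    ring
  rw [h1, Matrix.det_mul, Matrix.det_transpose, Matrix.det_projVandermonde]
  congr 1
  refine Finset.prod_congr rfl fun i _ => Finset.prod_congr rfl fun j _ => ?_
  rw [show (Y j - Y i) / 2 = Y j / 2 - Y i / 2 by ring, Real.sin_sub]
  ring

/-- the row `0` at an angle, in terms of the nodes -/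
theorem Rv_row_zero {N : ℕ} {V : ℤ → ℤ → ℝ}
    (hper : ∀ i j : ℤ, V (i + (N + 1 : ℕ)) (j + (N + 1 : ℕ)) = V i j + 2 * Real.pi) (y : ℝ) :
    Rv (N + 1) V 0 y = ∏ l : Fin N, Real.sin ((nd (N + 1) V l - y) / 2) := by
  unfold Rv
  rw [← Finset.prod_range (fun l => Real.sin ((nd (N + 1) V l - y) / 2))]
  symm
  refine Finset.prod_bij (fun (l : ℕ) _ => ((l : ℤ) + 1)) ?_ ?_ ?_ ?_
  · intro l hl
    rw [Finset.mem_range] at hl
    exact Finset.mem_Ioo.2 ⟨by omega, by push_cast; omega⟩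
  · intro a _ b _ h
    omega
  · intro b hb
    rw [Finset.mem_Ioo] at hb
    push_cast at hb
    refine ⟨(b - 1).toNat, Finset.mem_range.2 (by omega), by omega⟩
  · intro l _
    rw [nd_eq hper, show (V 0 ((l : ℤ) + 1) + 2 * Real.pi - y) / 2 =
      Real.pi - (y - V 0 ((l : ℤ) + 1)) / 2 by ring, Real.sin_pi_sub]

theorem D_E {N : ℕ} (hN : 1 ≤ N) {V : ℤ → ℤ → ℝ}
    (hper : ∀ i j : ℤ, V (i + (N + 1 : ℕ)) (j + (N + 1 : ℕ)) = V i j + 2 * Real.pi)
    (hmono : ∀ i j : ℕ, i < j → j < N → nd (N + 1) V i < nd (N + 1) V j)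
    (hturn : ∀ i j : ℕ, i < N → j < N → nd (N + 1) V j < nd (N + 1) V i + 2 * Real.pi) :
    D (N + 1) V * vd N V = dm (Mf (N + 1) V) 0 N := by
  set y : ℝ := (nd (N + 1) V (N - 1) - 2 * Real.pi + nd (N + 1) V 0) / 2 with hy
  have ht := hturn 0 (N - 1) (by omega) (by omega)
  have hpos : ∀ l : Fin N, 0 < Real.sin ((nd (N + 1) V l - y) / 2) := by
    intro l
    have hl := l.2
    have h0 : nd (N + 1) V 0 ≤ nd (N + 1) V l := by
      rcases Nat.eq_zero_or_pos (l : ℕ) with h | h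
      · rw [h]
      · exact (hmono 0 l h hl).le
    have h1 : nd (N + 1) V l ≤ nd (N + 1) V (N - 1) := by
      rcases Nat.lt_or_ge (l : ℕ) (N - 1) with h | h
      · exact (hmono l (N - 1) h (by omega)).le
      · have : (l : ℕ) = N - 1 := by omega
        rw [this]
    apply sin_pos_of
    · rw [hy]; linarith
    · rw [hy]; linarith
  have hprod : 0 < ∏ l : Fin N, Real.sin ((nd (N + 1) V l - y) / 2) :=
    Finset.prod_pos fun l _ => hpos l
  have h1 := det_ev N (fun q : Fin (N + 1) => P (V (q : ℕ))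
    (Ioo ((q : ℕ) : ℤ) (((q : ℕ) : ℤ) + (N + 1 : ℕ))))
    (Fin.cons y fun l : Fin N => nd (N + 1) V l)
  simp only [ev_row] at h1
  have h2 : (Matrix.of fun i j : Fin (N + 1) => Rv (N + 1) V ((i : ℕ) : ℤ)
      ((Fin.cons y fun l : Fin N => nd (N + 1) V l : Fin (N + 1) → ℝ) j)).det =
      (∏ l : Fin N, Real.sin ((nd (N + 1) V l - y) / 2)) * dm (Mf (N + 1) V) 0 N := by
    rw [Matrix.det_succ_row_zero, Finset.sum_eq_single 0]
    · have e : (Matrix.of fun i j : Fin (N + 1) => Rv (N + 1) V ((i : ℕ) : ℤ)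
          ((Fin.cons y fun l : Fin N => nd (N + 1) V l : Fin (N + 1) → ℝ) j)).submatrix Fin.succ
          (Fin.succAbove 0) = cm (Mf (N + 1) V) 0 N := by
        ext i j
        rw [Matrix.submatrix_apply, cm_apply, Matrix.of_apply, Fin.succAbove_zero, Fin.cons_succ,
          Fin.val_succ, zero_add, zero_add]
        unfold Mf
        push_cast
        rfl
      rw [e, Matrix.of_apply, Fin.cons_zero, Fin.val_zero, pow_zero, one_mul]
      rw [show ((0 : ℕ) : ℤ) = 0 from rfl, Rv_row_zero hper]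
      rfl
    · intro j _ hj
      obtain ⟨l, rfl⟩ := Fin.exists_succ_eq.2 hj
      rw [Matrix.of_apply, Fin.cons_succ, Fin.val_zero, show ((0 : ℕ) : ℤ) = 0 from rfl,
        Rv_zero hper l l.2]
      ring
    · intro h
      exact absurd (Finset.mem_univ _) h
  have h3 : ∏ i : Fin (N + 1), ∏ j ∈ Finset.Ioi i,
      Real.sin (((Fin.cons y fun l : Fin N => nd (N + 1) V l : Fin (N + 1) → ℝ) j -
        (Fin.cons y fun l : Fin N => nd (N + 1) V l : Fin (N + 1) → ℝ) i) / 2) =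
      (∏ l : Fin N, Real.sin ((nd (N + 1) V l - y) / 2)) * vd N V := by
    rw [Fin.prod_univ_succ, Fin.prod_Ioi_zero]
    simp only [Fin.prod_Ioi_succ, Fin.cons_succ, Fin.cons_zero]
    rfl
  rw [h2, h3] at h1
  have h4 : (∏ l : Fin N, Real.sin ((nd (N + 1) V l - y) / 2)) * (D (N + 1) V * vd N V) =
      (∏ l : Fin N, Real.sin ((nd (N + 1) V l - y) / 2)) * dm (Mf (N + 1) V) 0 N := by
    rw [h1]
    unfold D
    ring
  exact mul_left_cancel₀ hprod.ne' h4

theorem P_image (x : ℤ → ℝ) (φ : ℤ → ℤ) (hφ : Function.Injective φ) (L : Finset ℤ) :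
    P (fun b => x (φ b)) L = P x (L.image φ) := by
  unfold P
  rw [Finset.prod_image hφ.injOn]

theorem D_A {N : ℕ} (hN : 1 ≤ N) {V : ℤ → ℤ → ℝ} :
    D N (fun a b => V (phi N a) (phi N b)) * vd N V = dm (Af N V) 0 N := by
  obtain ⟨d, rfl⟩ : ∃ d, N = d + 1 := ⟨N - 1, by omega⟩
  have hrow : ∀ q : Fin (d + 1), ∀ y : ℝ,
      ev d y (P ((fun a b => V (phi (d + 1) a) (phi (d + 1) b)) ((q : ℕ) : ℤ))
        (Ioo ((q : ℕ) : ℤ) (((q : ℕ) : ℤ) + ((d + 1 : ℕ) : ℤ)))) =
      ∏ k ∈ (Ioo (((q : ℕ) : ℤ) + 1) (((q : ℕ) : ℤ) + 1 + ((d + 1 + 1 : ℕ) : ℤ))).erase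
        (((d + 1 : ℕ) : ℤ) + 1), Real.sin ((y - V (((q : ℕ) : ℤ) + 1) k) / 2) := by
    intro q y
    have hq := q.2
    have hdiv : ((q : ℕ) : ℤ) / ((d + 1 : ℕ) : ℤ) = 0 :=
      Int.ediv_eq_zero_of_lt (by omega) (by omega)
    have hphi : phi (d + 1) ((q : ℕ) : ℤ) = ((q : ℕ) : ℤ) + 1 := by
      unfold phi
      rw [hdiv]
      ring
    have him := (del_zero (d + 1) (by omega)).image ((q : ℕ) : ℤ)
    simp only [hphi, hdiv] at him
    have hz : (((d + 1 : ℕ) : ℤ) + 1) * (0 + 1) = ((d + 1 : ℕ) : ℤ) + 1 := by ring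
    rw [hz] at him
    change ev d y (P (fun b => V (phi (d + 1) ((q : ℕ) : ℤ)) (phi (d + 1) b)) _) = _
    rw [P_image _ _ (phi_mono (d + 1) (by omega)).injective, him, hphi]
    have hcard : ((Ioo (((q : ℕ) : ℤ) + 1) (((q : ℕ) : ℤ) + 1 + ((d + 1 + 1 : ℕ) : ℤ))).erase
        (((d + 1 : ℕ) : ℤ) + 1)).card = d := by
      rw [Finset.card_erase_of_mem (Finset.mem_Ioo.2 ⟨by push_cast; omega, by push_cast; omega⟩),
        Int.card_Ioo]
      push_cast
      omega
    have := ev_P y (V (((q : ℕ) : ℤ) + 1)) ((Ioo (((q : ℕ) : ℤ) + 1)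
      (((q : ℕ) : ℤ) + 1 + ((d + 1 + 1 : ℕ) : ℤ))).erase (((d + 1 : ℕ) : ℤ) + 1))
    rw [hcard] at this
    exact this
  have h1 := det_ev d (fun q : Fin (d + 1) =>
    P ((fun a b => V (phi (d + 1) a) (phi (d + 1) b)) ((q : ℕ) : ℤ))
      (Ioo ((q : ℕ) : ℤ) (((q : ℕ) : ℤ) + ((d + 1 : ℕ) : ℤ))))
    (fun l : Fin (d + 1) => nd (d + 1 + 1) V l)
  simp only [hrow] at h1
  unfold D vd
  rw [← h1]
  unfold dm
  congr 1
  ext i j
  rw [cm_apply, Matrix.of_apply, zero_add, zero_add]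
  rfl

theorem vd_pos {N : ℕ} {V : ℤ → ℤ → ℝ}
    (hmono : ∀ i j : ℕ, i < j → j < N → nd (N + 1) V i < nd (N + 1) V j)
    (hturn : ∀ i j : ℕ, i < N → j < N → nd (N + 1) V j < nd (N + 1) V i + 2 * Real.pi) :
    0 < vd N V := by
  unfold vd
  refine Finset.prod_pos fun i _ => Finset.prod_pos fun j hj => ?_
  rw [Finset.mem_Ioi] at hj
  have h1 := hmono i j hj j.2
  have h2 := hturn i j i.2 j.2
  exact sin_pos_of (by linarith) (by linarith)

end Pool.Agent.H65.AS
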