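import Pool.Agent.H65.AS.Lad
import Pool.Agent.H65.AS.DetE

/-!
# The product of the pairs, base case and continuity

`PR n u` is the product over the pairs `i < j` of `sin ((u j (i + n) - u i j) / 2)`.
-/

set_option autoImplicit false

namespace Pool.Agent.H65.AS

open Finset Polynomial Pool.Agent.H40.Atiyah

/-- the product of the pairs -/
noncomputable def PR (n : ℕ) (u : ℤ → ℤ → ℝ) : ℝ :=
  ∏ i : Fin n, ∏ j ∈ Finset.Ioi i,
    Real.sin ((u ((j : ℕ) : ℤ) (((i : ℕ) : ℤ) + n) - u ((i : ℕ) : ℤ) ((j : ℕ) : ℤ)) / 2)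

/-- strict arrays have positive pairs -/
theorem PR_pos {n : ℕ} (hn : 2 ≤ n) {u : ℤ → ℤ → ℝ} (H : KArr n u) : 0 < PR n u := by
  refine Finset.prod_pos fun i _ => Finset.prod_pos fun j hj => ?_
  rw [Finset.mem_Ioi] at hj
  have hij : (i : ℕ) < j := hj
  have hj2 := j.2
  have h1 := H.lt hn (i := ((i : ℕ) : ℤ)) (j := ((j : ℕ) : ℤ)) (i' := ((j : ℕ) : ℤ))
    (j' := ((i : ℕ) : ℤ) + n) (by omega) (by omega) (by omega) (by omega) (by omega) (by omega)
    (Or.inl (by omega))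
  have h2 := H.lt_add hn (i := ((i : ℕ) : ℤ)) (j := ((j : ℕ) : ℤ)) (i' := ((j : ℕ) : ℤ))
    (j' := ((i : ℕ) : ℤ) + n) (by omega) (by omega) (by omega) (by omega) (by omega) (by omega)
    (Or.inl (by omega))
  exact sin_pos_of (by linarith) (by linarith)

/-- ladder arrays of strict arrays have positive pairs -/
theorem PR_lad_pos {n r : ℕ} (hn : 2 ≤ n) (hr : r + 2 ≤ n) {Z : ℤ → ℤ → ℝ} (H : KArr n Z) :
    0 < PR n (lad n r Z) := by
  refine Finset.prod_pos fun i _ => Finset.prod_pos fun j hj => ?_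
  rw [Finset.mem_Ioi] at hj
  have hij : (i : ℕ) < j := hj
  have hj2 := j.2
  rw [lad_base Z ((j : ℕ) : ℤ) _ (by omega) (by omega),
    lad_base Z ((i : ℕ) : ℤ) _ (by omega) (by omega)]
  obtain ⟨j0, hj0, hj1, hj3⟩ : ∃ j0 : ℤ, lr n r ((j : ℕ) : ℤ) (((i : ℕ) : ℤ) + n) = j0 ∧
      ((i : ℕ) : ℤ) < j0 ∧ j0 ≤ ((j : ℕ) : ℤ) := by
    refine ⟨_, rfl, ?_, ?_⟩ <;> unfold lr <;> split_ifs <;> omega
  obtain ⟨i0, hi0, hi1, hi3⟩ : ∃ i0 : ℤ, lr n r ((i : ℕ) : ℤ) ((j : ℕ) : ℤ) = i0 ∧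
      0 ≤ i0 ∧ i0 ≤ ((i : ℕ) : ℤ) := by
    refine ⟨_, rfl, ?_, ?_⟩ <;> unfold lr <;> split_ifs <;> omega
  rw [hj0, hi0]
  have h1 := H.lt hn (i := i0) (j := ((j : ℕ) : ℤ)) (i' := j0)
    (j' := ((i : ℕ) : ℤ) + n) (by omega) (by omega) (by omega) (by omega) (by omega) (by omega)
    (Or.inl (by omega))
  have h2 := H.lt_add hn (i := i0) (j := ((j : ℕ) : ℤ)) (i' := j0)
    (j' := ((i : ℕ) : ℤ) + n) (by omega) (by omega) (by omega) (by omega) (by omega) (by omega)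
    (Or.inl (by omega))
  exact sin_pos_of (by linarith) (by linarith)

/-- splitting off the pairs of the vertex `0` -/
theorem PR_succ {N : ℕ} (hN : 2 ≤ N) {u : ℤ → ℤ → ℝ} :
    PR (N + 1) u = PR N (fun a b => u (phi N a) (phi N b)) *
      ∏ r ∈ range N, Real.sin ((u ((r : ℤ) + 1) ((N : ℤ) + 1) - u 0 ((r : ℤ) + 1)) / 2) := by
  have hphi : ∀ a : ℤ, 0 ≤ a → a < N → phi N a = a + 1 := by
    intro a h0 h1
    unfold phi
    rw [Int.ediv_eq_zero_of_lt h0 h1, add_zero]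
  have hphi2 : ∀ a : ℤ, 0 ≤ a → a < N → phi N (a + N) = a + 1 + (N + 1 : ℕ) := by
    intro a h0 h1
    rw [phi_add N (by omega), hphi a h0 h1]
  unfold PR
  rw [Fin.prod_univ_succ, mul_comm]
  congr 1
  · refine Finset.prod_congr rfl fun i _ => ?_
    rw [Fin.prod_Ioi_succ]
    refine Finset.prod_congr rfl fun j _ => ?_
    have hi := i.2
    have hj := j.2
    simp only [Fin.val_succ]
    rw [hphi ((j : ℕ) : ℤ) (by omega) (by omega), hphi ((i : ℕ) : ℤ) (by omega) (by omega),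
      hphi2 ((i : ℕ) : ℤ) (by omega) (by omega)]
    push_cast
    rfl
  · rw [Fin.prod_Ioi_zero, Finset.prod_range]
    refine Finset.prod_congr rfl fun j _ => ?_
    simp only [Fin.val_succ, Fin.val_zero]
    push_cast
    rw [zero_add]

theorem D_two (u : ℤ → ℤ → ℝ) : PR 2 u = D 2 u := by
  have h0 : Ioo (0 : ℤ) (0 + 2) = {1} := by decide
  have h1 : Ioo (1 : ℤ) (1 + 2) = {2} := by decide
  have e0 : P (u 0) (Ioo (0 : ℤ) (0 + 2)) = S (u 0 1) := by
    rw [h0]; unfold P; rw [Finset.prod_singleton]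
  have e1 : P (u 1) (Ioo (1 : ℤ) (1 + 2)) = S (u 1 2) := by
    rw [h1]; unfold P; rw [Finset.prod_singleton]
  unfold D PR
  rw [Matrix.det_fin_two]
  simp only [Matrix.of_apply, Fin.val_zero, Fin.val_one, Nat.cast_zero, Nat.cast_one,
    Nat.cast_ofNat]
  rw [e0, e1, Fin.prod_univ_two]
  have i0 : Finset.Ioi (0 : Fin 2) = {1} := by decide
  have i1 : Finset.Ioi (1 : Fin 2) = ∅ := by decide
  rw [i0, i1, Finset.prod_singleton, Finset.prod_empty, mul_one]
  unfold S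
  simp only [coeff_sub, coeff_C_mul, coeff_X_zero, coeff_X_one, coeff_C,
    Fin.val_zero, Fin.val_one, Nat.cast_zero, Nat.cast_one, zero_add]
  rw [show (u 1 2 - u 0 1) / 2 = u 1 2 / 2 - u 0 1 / 2 by ring, Real.sin_sub]
  simp
  ring

theorem cont_PR {A : ℝ → ℤ → ℤ → ℝ} (hA : ∀ i l, Continuous fun t => A t i l) (n : ℕ) :
    Continuous fun t => PR n (A t) := by
  unfold PR
  refine continuous_finsetProd _ fun i _ => continuous_finsetProd _ fun j _ => ?_
  exact Real.continuous_sin.comp (((hA _ _).sub (hA _ _)).div_const 2)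

theorem cont_D {A : ℝ → ℤ → ℤ → ℝ} (hA : ∀ i l, Continuous fun t => A t i l) (n : ℕ) :
    Continuous fun t => D n (A t) := by
  unfold D
  refine Continuous.matrix_det (continuous_matrix fun i j => ?_)
  exact CC_P (x := fun t => A t ((i : ℕ) : ℤ)) (fun l => hA _ l)
    (Ioo ((i : ℕ) : ℤ) (((i : ℕ) : ℤ) + n)) (j : ℕ)

/-- from strict arrays to weak arrays -/
theorem weak_le {n : ℕ} (hn : 2 ≤ n) (h : ∀ u : ℤ → ℤ → ℝ, KArr n u → PR n u ≤ D n u)
    (u : ℤ → ℤ → ℝ) (H : WArr n u) : PR n u ≤ D n u := by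
  have h1 := cl (f := fun ε => D n (mixw u (std n) ε) - PR n (mixw u (std n) ε))
    ((cont_D (mixw_cont _ _) n).sub (cont_PR (mixw_cont _ _) n)) (fun ε h7 h8 =>
      sub_nonneg.2 (h _ (mixw_karr H (std_karr n (by omega)) h7 h8)))
  simp only [mixw_zero] at h1
  linarith

/-- the induction -/
theorem all_le (step : ∀ (N : ℕ), 2 ≤ N → (∀ v : ℤ → ℤ → ℝ, WArr N v → PR N v ≤ D N v) →
    ∀ u : ℤ → ℤ → ℝ, KArr (N + 1) u →
      D N (fun a b => u (phi N a) (phi N b)) *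
        (∏ r ∈ range N, Real.sin ((u ((r : ℤ) + 1) ((N : ℤ) + 1) - u 0 ((r : ℤ) + 1)) / 2)) ≤
      D (N + 1) u) :
    ∀ n : ℕ, 2 ≤ n → ∀ u : ℤ → ℤ → ℝ, WArr n u → PR n u ≤ D n u := by
  intro n hn
  induction n, hn using Nat.le_induction with
  | base =>
    intro u _
    rw [D_two]
  | succ N hN ih =>
    intro u H
    refine weak_le (by omega) (fun v Hv => ?_) u H
    refine le_trans ?_ (step N hN ih v Hv)
    rw [PR_succ hN]
    refine mul_le_mul_of_nonneg_right (ih _ (weak_of (KArr.del hN (del_zero N (by omega)) Hv))) ?_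
    refine Finset.prod_nonneg fun r hr => ?_
    rw [Finset.mem_range] at hr
    have hc : ((N + 1 : ℕ) : ℤ) = (N : ℤ) + 1 := by push_cast; rfl
    have h1 := Hv.lt (by omega) (i := 0) (j := (r : ℤ) + 1) (i' := (r : ℤ) + 1)
      (j' := (N : ℤ) + 1) (by omega) (by omega) (by omega) (by omega) (by omega) (by omega)
      (Or.inl (by omega))
    have h2 := Hv.lt_add (by omega) (i := 0) (j := (r : ℤ) + 1) (i' := (r : ℤ) + 1)
      (j' := (N : ℤ) + 1) (by omega) (by omega) (by omega) (by omega) (by omega) (by omega)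
      (Or.inl (by omega))
    exact (sin_pos_of (by linarith) (by linarith)).le

end Pool.Agent.H65.AS
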