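import Pool.Agent.H65.AS.Chain
import Pool.Agent.H65.AS.Prod

/-!
# The inductive step
-/

set_option autoImplicit false

namespace Pool.Agent.H65.AS

open Finset Polynomial Pool.Agent.H40.Atiyah

theorem nd_mono {N : ℕ} {u : ℤ → ℤ → ℝ} (H : KArr (N + 1) u) (i j : ℕ) (hij : i < j)
    (hj : j < N) : nd (N + 1) u i < nd (N + 1) u j := by
  rw [nd_eq H.per, nd_eq H.per]
  have := H.lt (by omega) (i := 0) (j := (i : ℤ) + 1) (i' := 0) (j' := (j : ℤ) + 1) (le_refl _)
    (by omega) (by omega) (by push_cast; omega) (by omega) (by push_cast; omega)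
    (Or.inr (by omega))
  linarith

theorem nd_turn {N : ℕ} {u : ℤ → ℤ → ℝ} (H : KArr (N + 1) u) (i j : ℕ) (hi : i < N)
    (hj : j < N) : nd (N + 1) u j < nd (N + 1) u i + 2 * Real.pi := by
  rw [nd_eq H.per, nd_eq H.per]
  have := H.lt_add (by omega) (i := 0) (j := (i : ℤ) + 1) (i' := 0) (j' := (j : ℤ) + 1)
    (by omega) (by push_cast; omega) (by omega) (by push_cast; omega) (by omega)
    (by push_cast; omega) (Or.inl (by omega))
  linarith

theorem Mf_pos {M : ℕ} (hM : 1 ≤ M) (IH : ∀ v : ℤ → ℤ → ℝ, WArr (M + 1) v →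
    PR (M + 1) v ≤ D (M + 1) v) {Z : ℤ → ℤ → ℝ} (H : KArr (M + 1) Z) (r : ℕ)
    (hr : r + 2 ≤ M + 1) : 0 < dm (Mf (M + 1) Z) r (M - r) := by
  have h1 := tri H hr
  have h2 := tri_prod_pos H hr
  have hW : WArr (M + 1) (lad (M + 1) r Z) := lad_weak (by omega) hr (weak_of H)
  have hmono : ∀ i j : ℕ, i < j → j < M →
      nd (M + 1) (lad (M + 1) r Z) i < nd (M + 1) (lad (M + 1) r Z) j := by
    intro i j hij hj
    rw [nd_lad H.per i (by omega), nd_lad H.per j hj]
    exact nd_mono H i j hij hj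
  have hturn : ∀ i j : ℕ, i < M → j < M →
      nd (M + 1) (lad (M + 1) r Z) j < nd (M + 1) (lad (M + 1) r Z) i + 2 * Real.pi := by
    intro i j hi hj
    rw [nd_lad H.per i hi, nd_lad H.per j hj]
    exact nd_turn H i j hi hj
  have h3 := D_E hM hW.per hmono hturn
  have h4 := vd_pos hmono hturn
  have h5 := (PR_lad_pos (by omega) hr H).trans_le (IH _ hW)
  rw [← h3] at h1
  have h6 := mul_pos h5 h4
  rw [h1] at h6
  exact pos_of_mul_pos_right h6 h2.le

theorem Af_pos {N : ℕ} (hN : 2 ≤ N) (IH : ∀ v : ℤ → ℤ → ℝ, WArr N v → PR N v ≤ D N v)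
    {u : ℤ → ℤ → ℝ} (H : KArr (N + 1) u) (r : ℕ) (hr : r ≤ N) :
    0 < dm (Af N u) r (N - r) := by
  rcases Nat.eq_zero_or_pos r with h0 | h0
  · subst h0
    rw [Nat.sub_zero, ← D_A (by omega)]
    have HW : KArr N (fun a b => u (phi N a) (phi N b)) :=
      KArr.del hN (del_zero N (by omega)) H
    exact mul_pos ((PR_pos hN HW).trans_le (IH _ (weak_of HW)))
      (vd_pos (nd_mono H) (nd_turn H))
  · rcases eq_or_lt_of_le hr with h1 | h1
    · rw [h1, Nat.sub_self, dm_zero]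
      norm_num
    · obtain ⟨M, rfl⟩ : ∃ M, N = M + 1 := ⟨N - 1, by omega⟩
      have HZ : KArr (M + 1) (fun a b => u (psi (M + 1) a) (phi (M + 1) b)) :=
        KArr.del hN (del_one (M + 1) hN) H
      have h2 := Mf_pos (by omega) IH HZ (r - 1) (by omega)
      obtain ⟨s, rfl⟩ : ∃ s, r = s + 1 := ⟨r - 1, by omega⟩
      rw [← dm_shift, show M + 1 - (s + 1) = M - s by omega]
      rw [show s + 1 - 1 = s by omega] at h2
      have h3 : dm (Mf (M + 1) (fun a b => u (psi (M + 1) a) (phi (M + 1) b))) s (M - s) =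
          dm (fun i j => Af (M + 1) u (i + 1) (j + 1)) s (M - s) :=
        dm_congr fun i l h3 h4 h5 h6 => Mf_Z (by omega) i l (by omega) (by omega)
      rw [← h3]
      exact h2

theorem Bf_diag {N : ℕ} {u : ℤ → ℤ → ℝ} (H : KArr (N + 1) u) (r : ℕ) :
    Bf N u r r = Real.sin ((u ((r : ℤ) + 1) ((N : ℤ) + 1) - u 0 ((r : ℤ) + 1)) / 2) := by
  unfold Bf
  rw [nd_eq H.per, show (u 0 ((r : ℤ) + 1) + 2 * Real.pi - u ((r : ℤ) + 1) ((N : ℤ) + 1)) / 2 =
    Real.pi - (u ((r : ℤ) + 1) ((N : ℤ) + 1) - u 0 ((r : ℤ) + 1)) / 2 by ring, Real.sin_pi_sub]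

theorem Bf_pos {N : ℕ} {u : ℤ → ℤ → ℝ} (H : KArr (N + 1) u) (r : ℕ) (hr : r < N) :
    0 < Bf N u r r := by
  rw [Bf_diag H]
  have h1 := H.lt (by omega) (i := 0) (j := (r : ℤ) + 1) (i' := (r : ℤ) + 1) (j' := (N : ℤ) + 1)
    (by omega) (by omega) (by omega) (by push_cast; omega) (by omega) (by push_cast; omega)
    (Or.inl (by omega))
  have h2 := H.lt_add (by omega) (i := 0) (j := (r : ℤ) + 1) (i' := (r : ℤ) + 1)
    (j' := (N : ℤ) + 1)
    (by push_cast; omega) (by push_cast; omega) (by omega) (by push_cast; omega) (by omega)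
    (by push_cast; omega) (Or.inl (by push_cast; omega))
  exact sin_pos_of (by linarith) (by linarith)

/-- the chain of inequalities -/
theorem chain {N : ℕ} (hN : 2 ≤ N) (IH : ∀ v : ℤ → ℤ → ℝ, WArr N v → PR N v ≤ D N v)
    {u : ℤ → ℤ → ℝ} (H : KArr (N + 1) u) : ∀ k : ℕ, k ≤ N →
    dm (Af N u) (N - k) k * (∏ i ∈ range k, Bf N u (N - 1 - i) (N - 1 - i)) ≤
      dm (Mf (N + 1) u) (N - k) k := by
  intro k
  induction k with
  | zero =>
    intro _
    rw [dm_zero, dm_zero]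
    simp
  | succ k ih =>
    intro hk
    have ih' := ih (by omega)
    obtain ⟨r, hr⟩ : ∃ r, r = N - (k + 1) := ⟨_, rfl⟩
    have hrk : N - k = r + 1 := by omega
    have hrr : N - 1 - k = r := by omega
    rw [← hr]
    rw [hrk] at ih'
    rw [Finset.prod_range_succ, hrr]
    have hb1 : 0 < dm (Af N u) (r + 1) k := by
      have := Af_pos hN IH H (r + 1) (by omega)
      rwa [show N - (r + 1) = k by omega] at this
    have hb0 : 0 < dm (Af N u) r (k + 1) := by
      have := Af_pos hN IH H r (by omega)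
      rwa [show N - r = k + 1 by omega] at this
    have hB := Bf_pos H r (by omega)
    have hs := star (Af N u) (Bf N u) r k hb1.ne'
    have hsum : 0 ≤ ∑ j ∈ range k, cc (Af N u) r k j * tt (Af N u) (Bf N u) r k j := by
      refine Finset.sum_nonneg fun j hj => ?_
      rw [Finset.mem_range] at hj
      have h1 := tt_sgn H r j (by omega)
      have h2 := cc_sgn hN H r j (by omega)
      rw [show N - 1 - r = k by omega] at h1 h2
      have h3 := mul_nonneg h2 h1
      have h4 : ((-1 : ℝ) ^ j) * (-1) ^ j = 1 := by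
        rw [← pow_add, ← two_mul, pow_mul]
        norm_num
      calc (0 : ℝ) ≤ _ := h3
        _ = ((-1 : ℝ) ^ j * (-1) ^ j) *
            (cc (Af N u) r k j * tt (Af N u) (Bf N u) r k j) := by ring
        _ = _ := by rw [h4, one_mul]
    have e1 : dm (fun i l => Af N u i l * Bf N u i l) r (k + 1) = dm (Mf (N + 1) u) r (k + 1) :=
      dm_congr fun i l h1 h2 h3 h4 => (Mf_eq i l (by omega)).symm
    have e2 : dm (fun i l => Af N u i l * Bf N u i l) (r + 1) k = dm (Mf (N + 1) u) (r + 1) k :=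
      dm_congr fun i l h1 h2 h3 h4 => (Mf_eq i l (by omega)).symm
    rw [e1, e2] at hs
    have h5 : Bf N u r r * dm (Af N u) r (k + 1) * dm (Mf (N + 1) u) (r + 1) k ≤
        dm (Mf (N + 1) u) r (k + 1) * dm (Af N u) (r + 1) k := by linarith
    have h6 : Bf N u r r * dm (Af N u) r (k + 1) * (dm (Af N u) (r + 1) k *
        (∏ i ∈ range k, Bf N u (N - 1 - i) (N - 1 - i))) ≤
        Bf N u r r * dm (Af N u) r (k + 1) * dm (Mf (N + 1) u) (r + 1) k :=
      mul_le_mul_of_nonneg_left ih' (mul_pos hB hb0).le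
    have h7 : (dm (Af N u) r (k + 1) * ((∏ i ∈ range k, Bf N u (N - 1 - i) (N - 1 - i)) *
        Bf N u r r)) * dm (Af N u) (r + 1) k ≤
        dm (Mf (N + 1) u) r (k + 1) * dm (Af N u) (r + 1) k := by
      linarith
    exact le_of_mul_le_mul_right h7 hb1

theorem step (N : ℕ) (hN : 2 ≤ N) (IH : ∀ v : ℤ → ℤ → ℝ, WArr N v → PR N v ≤ D N v)
    (u : ℤ → ℤ → ℝ) (H : KArr (N + 1) u) :
    D N (fun a b => u (phi N a) (phi N b)) *
      (∏ r ∈ range N, Real.sin ((u ((r : ℤ) + 1) ((N : ℤ) + 1) - u 0 ((r : ℤ) + 1)) / 2)) ≤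
    D (N + 1) u := by
  have h1 := chain hN IH H N (le_refl _)
  rw [Nat.sub_self, ← D_A (by omega), ← D_E (by omega) H.per (nd_mono H) (nd_turn H)] at h1
  have h2 : ∏ i ∈ range N, Bf N u (N - 1 - i) (N - 1 - i) =
      ∏ r ∈ range N, Real.sin ((u ((r : ℤ) + 1) ((N : ℤ) + 1) - u 0 ((r : ℤ) + 1)) / 2) := by
    rw [Finset.prod_range_reflect (fun i => Bf N u i i) N]
    exact Finset.prod_congr rfl fun r _ => Bf_diag H r
  rw [h2] at h1
  have h3 := vd_pos (nd_mono H) (nd_turn H)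
  have h4 : (D N (fun a b => u (phi N a) (phi N b)) *
      (∏ r ∈ range N, Real.sin ((u ((r : ℤ) + 1) ((N : ℤ) + 1) - u 0 ((r : ℤ) + 1)) / 2))) *
      vd N u ≤ D (N + 1) u * vd N u := by linarith
  exact le_of_mul_le_mul_right h4 h3

theorem strong {n : ℕ} (hn : 2 ≤ n) {u : ℤ → ℤ → ℝ} (H : WArr n u) : PR n u ≤ D n u :=
  all_le step n hn u H

end Pool.Agent.H65.AS
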