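import Pool.Agent.H65.AS.Alg
import Pool.Agent.H65.AS.Step

/-!
# From the array inequality to the configuration determinant
-/

set_option autoImplicit false

namespace Pool.Agent.H65.AS

open Finset Polynomial
open Pool.Agent.Results.MP_1fedf0_gt.CollinearPlusOne
open Pool.Agent.H64.CC (lft lft_mem prod_lft)

/-- the configuration determinant of the spinors `v a b` -/
noncomputable def cdet {n : ℕ} (v : Fin n → Fin n → ℂ × ℂ) : ℂ :=
  (cf fun a => pol (v a) (Finset.univ.erase a)).det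

theorem br_comb (e1 e2 : ℂ × ℂ) (c X p q : ℂ) :
    br (X * e1.1 + e2.1, X * e1.2 + e2.2) (c * (q * e2.1 + p * e1.1), c * (q * e2.2 + p * e1.2)) =
      (c * br e1 e2) * (X * q - p) := by
  unfold br
  ring

theorem cdet_eq {n : ℕ} (v : Fin n → Fin n → ℂ × ℂ) (u : ℤ → ℤ → ℝ) (e1 e2 : ℂ × ℂ)
    (he : br e1 e2 ≠ 0) (c : Fin n → Fin n → ℂ)
    (hv : ∀ a b, b ≠ a → v a b = (c a b * ((Real.cos (u (a : ℕ) (lft a b) / 2) : ℂ) * e2.1 +
        (Real.sin (u (a : ℕ) (lft a b) / 2) : ℂ) * e1.1),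
      c a b * ((Real.cos (u (a : ℕ) (lft a b) / 2) : ℂ) * e2.2 +
        (Real.sin (u (a : ℕ) (lft a b) / 2) : ℂ) * e1.2))) :
    cdet v = (∏ a : Fin n, ∏ b ∈ Finset.Ioi a, (c a b * c b a * br e1 e2)) * (D n u : ℂ) := by
  -- the nodes
  obtain ⟨t, ht⟩ : ∃ t : Fin n → ℂ × ℂ, t = fun l : Fin n => (((l : ℕ) : ℂ) * e1.1 + e2.1,
    ((l : ℕ) : ℂ) * e1.2 + e2.2) := ⟨_, rfl⟩
  obtain ⟨w, hw⟩ : ∃ w : Fin n → Fin n → ℂ × ℂ, w = fun a b : Fin n =>
    ((Real.sin (u (a : ℕ) (lft a b) / 2) : ℂ), (Real.cos (u (a : ℕ) (lft a b) / 2) : ℂ)) :=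
    ⟨_, rfl⟩
  have hcard : ∀ a : Fin n, (Finset.univ.erase a).card = n - 1 := by
    intro a
    rw [Finset.card_erase_of_mem (Finset.mem_univ _), Finset.card_univ, Fintype.card_fin]
  have h1 := det_hev (fun a => pol (v a) (Finset.univ.erase a)) t
  have h2 := det_hev (fun a => pol (w a) (Finset.univ.erase a))
    (fun l : Fin n => (((l : ℕ) : ℂ), (1 : ℂ)))
  have e1' : ∀ a l : Fin n, hev (n - 1) (t l) (pol (v a) (Finset.univ.erase a)) =
      (∏ b ∈ Finset.univ.erase a, (c a b * br e1 e2)) *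
        hev (n - 1) (((l : ℕ) : ℂ), (1 : ℂ)) (pol (w a) (Finset.univ.erase a)) := by
    intro a l
    have h3 := hev_pol (v a) (Finset.univ.erase a) (t l)
    have h4 := hev_pol (w a) (Finset.univ.erase a) (((l : ℕ) : ℂ), (1 : ℂ))
    rw [hcard a] at h3 h4
    rw [h3, h4, ← Finset.prod_mul_distrib]
    refine Finset.prod_congr rfl fun b hb => ?_
    rw [hv a b (Finset.ne_of_mem_erase hb), ht, hw]
    simp only
    rw [br_comb]
    congr 1
    unfold br
    ring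
  have h3 : (Matrix.of fun a l : Fin n => hev (n - 1) (t l) (pol (v a) (Finset.univ.erase a))).det =
      (∏ a : Fin n, ∏ b ∈ Finset.univ.erase a, (c a b * br e1 e2)) *
      (Matrix.of fun a l : Fin n => hev (n - 1) (((l : ℕ) : ℂ), (1 : ℂ))
        (pol (w a) (Finset.univ.erase a))).det := by
    rw [← Matrix.det_mul_column]
    congr 1
    ext a l
    rw [Matrix.of_apply, e1' a l, Matrix.of_apply, Matrix.of_apply]
  -- the real rows
  have h4 : (cf fun a : Fin n => pol (w a) (Finset.univ.erase a)).det = (D n u : ℂ) := by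
    unfold D
    have e : (Complex.ofRealHom (Matrix.of fun q k : Fin n =>
        (Pool.Agent.H40.Atiyah.P (u (q : ℕ)) (Ioo ((q : ℕ) : ℤ) (((q : ℕ) : ℤ) + n))).coeff
          (k : ℕ)).det) = ((Matrix.of fun q k : Fin n =>
        (Pool.Agent.H40.Atiyah.P (u (q : ℕ)) (Ioo ((q : ℕ) : ℤ) (((q : ℕ) : ℤ) + n))).coeff
          (k : ℕ)).det : ℂ) := rfl
    rw [← e, RingHom.map_det]
    congr 1
    ext q k
    rw [RingHom.mapMatrix_apply, Matrix.map_apply, Matrix.of_apply]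
    unfold cf
    rw [Matrix.of_apply, ← Polynomial.coeff_map]
    congr 1
    unfold Pool.Agent.H40.Atiyah.P pol Pool.Agent.H40.Atiyah.S
    rw [Polynomial.map_prod, prod_lft q (fun l => Polynomial.map Complex.ofRealHom
      (C (Real.cos (u (q : ℕ) l / 2)) * X - C (Real.sin (u (q : ℕ) l / 2))))]
    refine Finset.prod_congr rfl fun b _ => ?_
    rw [hw]
    simp only [Polynomial.map_sub, Polynomial.map_mul, Polynomial.map_C, Polynomial.map_X,
      Complex.ofRealHom_eq_coe]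
  rw [h3, h2, h4] at h1
  -- the Vandermonde products
  have h5 : ∏ i : Fin n, ∏ j ∈ Finset.Ioi i, ((t j).1 * (t i).2 - (t i).1 * (t j).2) =
      (∏ i : Fin n, ∏ j ∈ Finset.Ioi i, br e1 e2) *
        ∏ i : Fin n, ∏ j ∈ Finset.Ioi i, ((((j : ℕ) : ℂ)) * 1 - (((i : ℕ) : ℂ)) * 1) := by
    simp only [← Finset.prod_mul_distrib]
    refine Finset.prod_congr rfl fun i _ => Finset.prod_congr rfl fun j _ => ?_
    rw [ht]
    unfold br
    ring
  have h6 : (∏ i : Fin n, ∏ j ∈ Finset.Ioi i, ((((j : ℕ) : ℂ)) * 1 - (((i : ℕ) : ℂ)) * 1)) ≠ 0 := by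
    refine Finset.prod_ne_zero_iff.2 fun i _ => Finset.prod_ne_zero_iff.2 fun j hj => ?_
    rw [Finset.mem_Ioi, Fin.lt_def] at hj
    rw [mul_one, mul_one, sub_ne_zero]
    exact_mod_cast hj.ne'
  have h7 : (∏ i : Fin n, ∏ j ∈ Finset.Ioi i, br e1 e2) ≠ 0 :=
    Finset.prod_ne_zero_iff.2 fun i _ => Finset.prod_ne_zero_iff.2 fun j _ => he
  have h8 : (∏ a : Fin n, ∏ b ∈ Finset.univ.erase a, (c a b * br e1 e2)) =
      (∏ a : Fin n, ∏ b ∈ Finset.Ioi a, (c a b * c b a * br e1 e2)) *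
        ∏ i : Fin n, ∏ j ∈ Finset.Ioi i, br e1 e2 := by
    rw [prod_pairs]
    simp only [← Finset.prod_mul_distrib]
    refine Finset.prod_congr rfl fun i _ => Finset.prod_congr rfl fun j _ => ?_
    ring
  rw [h5, h8] at h1
  have h9 : cdet v * ((∏ i : Fin n, ∏ j ∈ Finset.Ioi i, br e1 e2) *
      ∏ i : Fin n, ∏ j ∈ Finset.Ioi i, ((((j : ℕ) : ℂ)) * 1 - (((i : ℕ) : ℂ)) * 1)) =
      ((∏ a : Fin n, ∏ b ∈ Finset.Ioi a, (c a b * c b a * br e1 e2)) * (D n u : ℂ)) *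
      ((∏ i : Fin n, ∏ j ∈ Finset.Ioi i, br e1 e2) *
      ∏ i : Fin n, ∏ j ∈ Finset.Ioi i, ((((j : ℕ) : ℂ)) * 1 - (((i : ℕ) : ℂ)) * 1)) := by
    unfold cdet
    linear_combination -h1
  exact mul_right_cancel₀ (mul_ne_zero h7 h6) h9

end Pool.Agent.H65.AS
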