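import Pool.Agent.H65.AS.Rot

/-!
# The inequalities for configurations
-/

set_option autoImplicit false

namespace Pool.Agent.H65.AS

open Finset Polynomial
open Pool.Agent.H40.Atiyah (phi psi KArr KArr.del phi_add del_zero)
open Pool.Agent.Results.MP_1fedf0_gt.CollinearPlusOne
open Pool.Agent.H64.CC (lft lft_mem prod_lft)

theorem linInd_of_det {n : ℕ} (B : Fin n → ℂ[X]) (h : (cf B).det ≠ 0) :
    LinearIndependent ℂ B := by
  rw [Fintype.linearIndependent_iff]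
  intro g hg
  have h1 : Matrix.vecMul g (cf B) = 0 := by
    funext k
    have h2 := congrArg (fun f : ℂ[X] => f.coeff (k : ℕ)) hg
    simp only [Polynomial.finsetSum_coeff, Polynomial.coeff_smul, smul_eq_mul,
      Polynomial.coeff_zero] at h2
    rw [Pi.zero_apply, ← h2]
    rfl
  have h2 := Matrix.eq_zero_of_vecMul_eq_zero h h1
  intro i
  rw [h2, Pi.zero_apply]

theorem cdet_perm {n : ℕ} (v : Fin n → Fin n → ℂ × ℂ) (σ : Equiv.Perm (Fin n)) :
    ‖cdet (fun a b => v (σ a) (σ b))‖ = ‖cdet v‖ := by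
  have h1 : (cf fun a => pol (fun b => v (σ a) (σ b)) (Finset.univ.erase a)) =
      (cf fun a => pol (v a) (Finset.univ.erase a)).submatrix σ id := by
    ext a k
    unfold cf
    rw [Matrix.submatrix_apply, Matrix.of_apply, Matrix.of_apply]
    congr 1
    have h2 : Finset.univ.erase (σ a) = (Finset.univ.erase a).map σ.toEmbedding := by
      rw [Finset.map_erase]
      simp
    unfold pol
    beta_reduce
    rw [h2, Finset.prod_map]
    rfl
  unfold cdet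
  rw [h1, Matrix.det_permute]
  rw [norm_mul]
  rcases Int.units_eq_one_or (Equiv.Perm.sign σ) with h2 | h2
  · rw [h2]; simp
  · rw [h2]; simp

theorem pairs_perm {n : ℕ} (g : Fin n → Fin n → ℝ) (hg : ∀ i j, 0 ≤ g i j)
    (hs : ∀ i j, g i j = g j i) (σ : Equiv.Perm (Fin n)) :
    ∏ a, ∏ b ∈ Finset.Ioi a, g (σ a) (σ b) = ∏ i, ∏ j ∈ Finset.Ioi i, g i j := by
  have h1 := prod_pairs (fun a b => g (σ a) (σ b))
  have h2 := prod_pairs g
  have h3 : ∏ a, ∏ b ∈ Finset.univ.erase a, g (σ a) (σ b) =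
      ∏ i, ∏ j ∈ Finset.univ.erase i, g i j := by
    rw [← Equiv.prod_comp σ (fun i => ∏ j ∈ Finset.univ.erase i, g i j)]
    refine Finset.prod_congr rfl fun a _ => ?_
    have h2 : Finset.univ.erase (σ a) = (Finset.univ.erase a).map σ.toEmbedding := by
      rw [Finset.map_erase]
      simp
    rw [h2, Finset.prod_map]
    rfl
  rw [h3, h2] at h1
  have h4 : ∀ f : Fin n → Fin n → ℝ, (∀ i j, f i j = f j i) →
      ∏ a, ∏ b ∈ Finset.Ioi a, (f a b * f b a) = (∏ a, ∏ b ∈ Finset.Ioi a, f a b) ^ 2 := by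
    intro f hf
    rw [sq, ← Finset.prod_mul_distrib]
    refine Finset.prod_congr rfl fun a _ => ?_
    rw [← Finset.prod_mul_distrib]
    refine Finset.prod_congr rfl fun b _ => ?_
    rw [hf b a]
  rw [h4 g hs, h4 (fun a b => g (σ a) (σ b)) (fun i j => hs _ _)] at h1
  have h5 : 0 ≤ ∏ a, ∏ b ∈ Finset.Ioi a, g (σ a) (σ b) :=
    Finset.prod_nonneg fun a _ => Finset.prod_nonneg fun b _ => hg _ _
  have h6 : 0 ≤ ∏ i, ∏ j ∈ Finset.Ioi i, g i j :=
    Finset.prod_nonneg fun a _ => Finset.prod_nonneg fun b _ => hg _ _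
  exact ((sq_eq_sq₀ h6 h5).1 h1).symm

theorem sin_nonneg_of {n : ℕ} (hn : 2 ≤ n) {u : ℤ → ℤ → ℝ} (H : WArr n u) (a b : Fin n)
    (hab : a < b) :
    0 ≤ Real.sin ((u ((b : ℕ) : ℤ) (((a : ℕ) : ℤ) + n) - u ((a : ℕ) : ℤ) ((b : ℕ) : ℤ)) / 2) := by
  have hab' : (a : ℕ) < (b : ℕ) := hab
  have ha := a.2
  have hb := b.2
  have h1 := H.le hn (i := ((a : ℕ) : ℤ)) (j := ((b : ℕ) : ℤ)) (i' := ((b : ℕ) : ℤ))
    (j' := ((a : ℕ) : ℤ) + n) (by omega) (by omega) (by omega) (by omega) (by omega) (by omega)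
  have h2 := H.le hn (i := ((b : ℕ) : ℤ)) (j := ((a : ℕ) : ℤ) + n) (i' := ((a : ℕ) : ℤ) + n)
    (j' := ((b : ℕ) : ℤ) + n) (by omega) (by omega) (by omega) (by omega) (by omega) (by omega)
  rw [H.per] at h2
  exact Real.sin_nonneg_of_nonneg_of_le_pi (by linarith) (by linarith)

/-- the data with chosen scalars -/
theorem Geo.data {n : ℕ} {p : Fin n → Fin n → Fin 3 → ℝ}
    {σ : Equiv.Perm (Fin n)} {u : ℤ → ℤ → ℝ} {e1 e2 : ℂ × ℂ} (h : Geo p σ u e1 e2) :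
    ∃ c : Fin n → Fin n → ℂ, ∀ a b : Fin n, b ≠ a → spin (p (σ a) (σ b)) =
        (c a b * ((Real.cos (u (a : ℕ) (lft a b) / 2) : ℂ) * e2.1 +
          (Real.sin (u (a : ℕ) (lft a b) / 2) : ℂ) * e1.1),
        c a b * ((Real.cos (u (a : ℕ) (lft a b) / 2) : ℂ) * e2.2 +
          (Real.sin (u (a : ℕ) (lft a b) / 2) : ℂ) * e1.2)) := by
  have h1 : ∀ a b : Fin n, ∃ c : ℂ, b ≠ a → spin (p (σ a) (σ b)) =
        (c * ((Real.cos (u (a : ℕ) (lft a b) / 2) : ℂ) * e2.1 +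
          (Real.sin (u (a : ℕ) (lft a b) / 2) : ℂ) * e1.1),
        c * ((Real.cos (u (a : ℕ) (lft a b) / 2) : ℂ) * e2.2 +
          (Real.sin (u (a : ℕ) (lft a b) / 2) : ℂ) * e1.2)) := by
    intro a b
    by_cases hab : b = a
    · exact ⟨1, fun h => absurd hab h⟩
    · obtain ⟨c, -, hc⟩ := h.2.2 a b hab
      exact ⟨c, fun _ => hc⟩
  choose c hc using h1
  exact ⟨c, hc⟩

theorem br_pair {n : ℕ} (hn : 2 ≤ n) {p : Fin n → Fin n → Fin 3 → ℝ}
    {σ : Equiv.Perm (Fin n)} {u : ℤ → ℤ → ℝ} {e1 e2 : ℂ × ℂ} (H : WArr n u)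
    {c : Fin n → Fin n → ℂ} (hc : ∀ a b : Fin n, b ≠ a → spin (p (σ a) (σ b)) =
        (c a b * ((Real.cos (u (a : ℕ) (lft a b) / 2) : ℂ) * e2.1 +
          (Real.sin (u (a : ℕ) (lft a b) / 2) : ℂ) * e1.1),
        c a b * ((Real.cos (u (a : ℕ) (lft a b) / 2) : ℂ) * e2.2 +
          (Real.sin (u (a : ℕ) (lft a b) / 2) : ℂ) * e1.2))) (a b : Fin n) (hab : a < b) :
    ‖br (spin (p (σ a) (σ b))) (spin (p (σ b) (σ a)))‖ = ‖c a b * c b a * br e1 e2‖ *
      Real.sin ((u ((b : ℕ) : ℤ) (((a : ℕ) : ℤ) + n) - u ((a : ℕ) : ℤ) ((b : ℕ) : ℤ)) / 2) := by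
  have e1 : lft a b = ((b : ℕ) : ℤ) := by
    unfold lft
    rw [if_pos hab]
  have e2 : lft b a = ((a : ℕ) : ℤ) + n := by
    unfold lft
    rw [if_neg (not_lt.2 hab.le)]
  rw [hc a b hab.ne', hc b a hab.ne, br_comb2, e1, e2, norm_neg, norm_mul, Complex.norm_real,
    Real.norm_eq_abs, abs_of_nonneg (sin_nonneg_of hn H a b hab)]

theorem cfg_pairs {n : ℕ} (hn : 2 ≤ n) {p : Fin n → Fin n → Fin 3 → ℝ}
    {σ : Equiv.Perm (Fin n)} {u : ℤ → ℤ → ℝ} {e1 e2 : ℂ × ℂ} (h : Geo p σ u e1 e2) :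
    ∏ a : Fin n, ∏ b ∈ Finset.Ioi a, ‖br (spin (p (σ a) (σ b))) (spin (p (σ b) (σ a)))‖ ≤
      ‖cdet (fun a b => spin (p (σ a) (σ b)))‖ := by
  obtain ⟨c, hc⟩ := h.data
  rw [cdet_eq (fun a b => spin (p (σ a) (σ b))) u e1 e2 h.2.1 c hc, norm_mul, norm_prod,
    Complex.norm_real, Real.norm_eq_abs]
  have h1 := (strong hn h.1).trans (le_abs_self _)
  refine le_trans (le_of_eq ?_) (mul_le_mul_of_nonneg_left h1
    (Finset.prod_nonneg fun i _ => norm_nonneg _))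
  unfold PR
  rw [← Finset.prod_mul_distrib]
  refine Finset.prod_congr rfl fun a _ => ?_
  rw [norm_prod, ← Finset.prod_mul_distrib]
  refine Finset.prod_congr rfl fun b hb => ?_
  exact br_pair hn h.1 hc a b (Finset.mem_Ioi.1 hb)

theorem lft_succ {N : ℕ} (a b : Fin N) : phi N (lft a b) = lft a.succ b.succ := by
  have ha := a.2
  have hb := b.2
  unfold lft
  by_cases h : a < b
  · rw [if_pos h, if_pos (Fin.succ_lt_succ_iff.2 h), phi_small _ (by omega) (by omega),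
      Fin.val_succ]
    push_cast
    ring
  · rw [if_neg h, if_neg (fun h' => h (Fin.succ_lt_succ_iff.1 h')), add_comm ((b : ℕ) : ℤ) (N : ℤ),
      phi_next _ (by omega) (by omega), Fin.val_succ]
    push_cast
    ring

theorem D_del_nonneg {N : ℕ} (hN : 1 ≤ N) {u : ℤ → ℤ → ℝ} (H : WArr (N + 1) u) :
    0 ≤ D N (fun a b => u (phi N a) (phi N b)) := by
  rcases eq_or_lt_of_le hN with h1 | h1
  · subst h1
    rw [D_one]
    norm_num
  · have hc := mixw_cont u (std (N + 1))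
    have h := cl (f := fun ε => D N (fun a b => mixw u (std (N + 1)) ε (phi N a) (phi N b)))
      (cont_D (fun i l => hc _ _) _)
      (fun ε h7 h8 => by
        have h9 : KArr N (fun a b => mixw u (std (N + 1)) ε (phi N a) (phi N b)) :=
          KArr.del h1 (del_zero N hN) (mixw_karr H (std_karr (N + 1) (by omega)) h7 h8)
        exact (PR_pos h1 h9).le.trans (strong h1 (weak_of h9)))
    simp only [mixw_zero] at h
    exact h

theorem cfg_mono {N : ℕ} (hN : 1 ≤ N) {p : Fin (N + 1) → Fin (N + 1) → Fin 3 → ℝ}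
    {σ : Equiv.Perm (Fin (N + 1))} {u : ℤ → ℤ → ℝ} {e1 e2 : ℂ × ℂ} (h : Geo p σ u e1 e2) :
    ‖cdet (fun a b : Fin N => spin (p (σ a.succ) (σ b.succ)))‖ *
      ∏ b : Fin N, ‖br (spin (p (σ 0) (σ b.succ))) (spin (p (σ b.succ) (σ 0)))‖ ≤
      ‖cdet (fun a b => spin (p (σ a) (σ b)))‖ := by
  obtain ⟨c, hc⟩ := h.data
  have h1 := cdet_eq (fun a b => spin (p (σ a) (σ b))) u e1 e2 h.2.1 c hc
  have h2 := cdet_eq (fun a b : Fin N => spin (p (σ a.succ) (σ b.succ)))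
    (fun a b => u (phi N a) (phi N b)) e1 e2 h.2.1 (fun a b => c a.succ b.succ) (by
      intro a b hab
      rw [lft_succ a b, phi_small (N := N) ((a : ℕ) : ℤ) (by omega) (by have := a.2; omega)]
      have h3 := hc a.succ b.succ (fun h' => hab (Fin.succ_injective _ h'))
      rw [h3, Fin.val_succ]
      push_cast
      rfl)
  have hsin := fun b : Fin N => sin_nonneg_of (by omega) h.1 0 b.succ (Fin.succ_pos b)
  rw [h1, h2, norm_mul, norm_mul, Complex.norm_real, Complex.norm_real, Real.norm_eq_abs,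
    Real.norm_eq_abs]
  have hst := step_weak N hN u h.1
  have hprod : ∏ r ∈ range N, Real.sin ((u ((r : ℤ) + 1) ((N : ℤ) + 1) - u 0 ((r : ℤ) + 1)) / 2) =
      ∏ b : Fin N, Real.sin ((u (((b.succ : Fin (N + 1)) : ℕ) : ℤ)
        ((((0 : Fin (N + 1)) : ℕ) : ℤ) + (N + 1 : ℕ)) -
        u (((0 : Fin (N + 1)) : ℕ) : ℤ) (((b.succ : Fin (N + 1)) : ℕ) : ℤ)) / 2) := by
    rw [Finset.prod_range (fun r => Real.sin ((u ((r : ℤ) + 1) ((N : ℤ) + 1) -
      u 0 ((r : ℤ) + 1)) / 2))]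
    refine Finset.prod_congr rfl fun b _ => ?_
    rw [Fin.val_succ, Fin.val_zero]
    push_cast
    rw [zero_add]
  rw [hprod] at hst
  -- the new pairs
  have hpairs : ∏ b : Fin N, ‖br (spin (p (σ 0) (σ b.succ))) (spin (p (σ b.succ) (σ 0)))‖ =
      (∏ b : Fin N, ‖c 0 b.succ * c b.succ 0 * br e1 e2‖) *
      ∏ b : Fin N, Real.sin ((u (((b.succ : Fin (N + 1)) : ℕ) : ℤ)
        ((((0 : Fin (N + 1)) : ℕ) : ℤ) + (N + 1 : ℕ)) -
        u (((0 : Fin (N + 1)) : ℕ) : ℤ) (((b.succ : Fin (N + 1)) : ℕ) : ℤ)) / 2) := by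
    rw [← Finset.prod_mul_distrib]
    refine Finset.prod_congr rfl fun b _ => ?_
    exact br_pair (by omega) h.1 hc 0 b.succ (Fin.succ_pos b)
  have hκ : ‖∏ a : Fin (N + 1), ∏ b ∈ Finset.Ioi a, (c a b * c b a * br e1 e2)‖ =
      (∏ b : Fin N, ‖c 0 b.succ * c b.succ 0 * br e1 e2‖) *
        ‖∏ a : Fin N, ∏ b ∈ Finset.Ioi a, (c a.succ b.succ * c b.succ a.succ * br e1 e2)‖ := by
    rw [Fin.prod_univ_succ, norm_mul, Fin.prod_Ioi_zero, norm_prod]
    congr 2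
    refine Finset.prod_congr rfl fun a _ => ?_
    rw [Fin.prod_Ioi_succ]
  rw [hpairs, hκ]
  have h5 : |D N (fun a b => u (phi N a) (phi N b))| *
      (∏ b : Fin N, Real.sin ((u (((b.succ : Fin (N + 1)) : ℕ) : ℤ)
        ((((0 : Fin (N + 1)) : ℕ) : ℤ) + (N + 1 : ℕ)) -
        u (((0 : Fin (N + 1)) : ℕ) : ℤ) (((b.succ : Fin (N + 1)) : ℕ) : ℤ)) / 2)) ≤
      |D (N + 1) u| := by
    rw [abs_of_nonneg (D_del_nonneg hN h.1)]
    exact hst.trans (le_abs_self _)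
  have h6 : 0 ≤ (∏ b : Fin N, ‖c 0 b.succ * c b.succ 0 * br e1 e2‖) *
        ‖∏ a : Fin N, ∏ b ∈ Finset.Ioi a, (c a.succ b.succ * c b.succ a.succ * br e1 e2)‖ :=
    mul_nonneg (Finset.prod_nonneg fun b _ => norm_nonneg _) (norm_nonneg _)
  have h7 := mul_le_mul_of_nonneg_left h5 h6
  refine le_trans (le_of_eq ?_) h7
  ring

end Pool.Agent.H65.AS
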