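import Pool.Agent.H65.AS.Tri
import Pool.Agent.H65.AS.DetE

/-!
# The signs in the elimination identity
-/

set_option autoImplicit false

namespace Pool.Agent.H65.AS

open Finset Polynomial Pool.Agent.H40.Atiyah

/-- the factor of the column `N + 1` -/
noncomputable def Bf (N : ℕ) (u : ℤ → ℤ → ℝ) (j l : ℕ) : ℝ :=
  Real.sin ((nd (N + 1) u l - u (j + 1) (N + 1)) / 2)

variable {N : ℕ} {u : ℤ → ℤ → ℝ}

theorem Mf_eq (j l : ℕ) (hj : j < N) : Mf (N + 1) u j l = Af N u j l * Bf N u j l := by
  unfold Mf Rv Af Bf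
  rw [mul_comm, Finset.mul_prod_erase _ (fun k => Real.sin ((nd (N + 1) u l - u (j + 1) k) / 2))]
  exact Finset.mem_Ioo.2 ⟨by omega, by push_cast; omega⟩

theorem tt_sgn (H : KArr (N + 1) u) (r j : ℕ) (hj : r + 1 + j < N) :
    0 ≤ (-1 : ℝ) ^ j * tt (Af N u) (Bf N u) r (N - 1 - r) j := by
  have hlt := H.lt (by omega) (i := (r : ℤ) + 1) (j := (N : ℤ) + 1)
    (i' := ((r + 1 + j : ℕ) : ℤ) + 1) (j' := (N : ℤ) + 1) (by push_cast; omega) (le_refl _)
    (by omega) (by push_cast; omega) (by push_cast; omega) (by push_cast; omega)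
    (Or.inl (by push_cast; omega))
  have hlt2 := H.lt_add (by omega) (i := (r : ℤ) + 1) (j := (N : ℤ) + 1)
    (i' := ((r + 1 + j : ℕ) : ℤ) + 1) (j' := (N : ℤ) + 1) (by push_cast; omega)
    (by push_cast; omega)
    (by omega) (by push_cast; omega) (by push_cast; omega) (by push_cast; omega)
    (Or.inl (by push_cast; omega))
  have h1 := sgnTw (by omega) (lad_weak (r := r) (by omega) (by omega) (weak_of H))
    ⟨r, by omega⟩ ⟨r + 1 + j, hj⟩ (by rw [Fin.lt_def]; simp only; omega)
    (u (((r + 1 + j : ℕ) : ℤ) + 1) (N + 1) - u ((r : ℤ) + 1) (N + 1)) (by linarith)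
    (by linarith)
  simp only at h1
  have h2 := dm_update (Mf (N + 1) (lad (N + 1) r u)) 0 N ⟨r, by omega⟩
    (fun l => Af N u (r + 1 + j) l * Bf N u r l)
  simp only [zero_add] at h2
  have e : (fun l : Fin N => Af N u (r + 1 + j) l * Bf N u r l) = fun l : Fin N =>
      (∏ k ∈ (Ioo ((((r + 1 + j : ℕ) : ℕ) : ℤ) + 1) (((r + 1 + j : ℕ) : ℤ) + 1 +
        ((N + 1 : ℕ) : ℤ))).erase ((N : ℤ) + 1),
        Real.sin ((nd (N + 1) (lad (N + 1) r u) l -
          lad (N + 1) r u (((r + 1 + j : ℕ) : ℤ) + 1) k) / 2)) *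
      Real.sin ((nd (N + 1) (lad (N + 1) r u) l - (lad (N + 1) r u (((r + 1 + j : ℕ) : ℤ) + 1)
        (N + 1) - (u (((r + 1 + j : ℕ) : ℤ) + 1) (N + 1) - u ((r : ℤ) + 1) (N + 1)))) / 2) := by
    funext l
    unfold Af Bf
    rw [nd_lad H.per l l.2]
    congr 1
    · refine Finset.prod_congr rfl fun k _ => ?_
      rw [lad_row _ _ (by push_cast; omega) (by push_cast; omega)]
    · rw [lad_row _ _ (by push_cast; omega) (by push_cast; omega)]
      congr 2
      ring
  rw [← e, ← h2, tri_up H (by omega) r (le_refl _)] at h1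
  have h3 := tri_prod_pos (r := r) H (by omega)
  have h4 : dm (Function.update (Mf (N + 1) u) r (fun l => Af N u (r + 1 + j) l * Bf N u r l))
      r (N - r) = tt (Af N u) (Bf N u) r (N - 1 - r) j := by
    unfold tt
    rw [show N - 1 - r + 1 = N - r by omega]
    refine dm_congr fun i l h5 h6 h7 h8 => ?_
    by_cases hir : i = r
    · rw [hir, Function.update_self, Function.update_self]
    · rw [Function.update_of_ne hir, Function.update_of_ne hir, Mf_eq i l (by omega)]
  rw [h4] at h1
  have h5 : (-1 : ℝ) ^ (r + 1 + j + r + 1) = (-1) ^ j := by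
    rw [show r + 1 + j + r + 1 = j + 2 * (r + 1) by ring, pow_add, pow_mul]
    norm_num
  rw [h5] at h1
  have h6 : 0 ≤ (∏ i ∈ range r, Mf (N + 1) (lad (N + 1) r u) i i) *
      ((-1 : ℝ) ^ j * tt (Af N u) (Bf N u) r (N - 1 - r) j) := by
    linarith
  exact nonneg_of_mul_nonneg_right h6 h3

/-! ### the deleted arrays -/

theorem phi_small (a : ℤ) (h0 : 0 ≤ a) (h1 : a < N) : phi N a = a + 1 := by
  unfold phi
  rw [Int.ediv_eq_zero_of_lt h0 h1]
  ring

theorem phi_next (a : ℤ) (h0 : 0 ≤ a) (h1 : a < N) : phi N (N + a) = N + a + 2 := by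
  rw [add_comm (N : ℤ) a, phi_add N (by omega), phi_small a h0 h1]
  push_cast
  ring

theorem psi_small (a : ℤ) (h0 : 0 < a) (h1 : a < N) : psi N a = a + 1 := by
  unfold psi
  rw [if_neg, phi_small a h0.le h1]
  intro hd
  have := Int.le_of_dvd h0 hd
  omega

theorem psi_N (hN : 1 ≤ N) : psi N N = N + 1 := by
  unfold psi
  rw [if_pos (dvd_refl _)]
  have := phi_next (N := N) 0 (le_refl _) (by omega)
  rw [add_zero] at this
  rw [this]
  ring

theorem psi_zero : psi N 0 = 0 := by
  unfold psi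
  rw [if_pos (dvd_zero _)]
  unfold phi
  simp

theorem Rv_del (hN : 1 ≤ N) (a : ℕ) (ha : a < N) (y : ℝ) :
    Rv N (fun a b => u (phi N a) (phi N b)) a y =
      ∏ k ∈ (Ioo ((a : ℤ) + 1) ((a : ℤ) + 1 + ((N + 1 : ℕ) : ℤ))).erase ((N : ℤ) + 1),
        Real.sin ((y - u (a + 1) k) / 2) := by
  have h := (del_zero N hN).image (a : ℤ)
  rw [Int.ediv_eq_zero_of_lt (by omega) (by omega), phi_small (a : ℤ) (by omega) (by omega),
    zero_add, mul_one] at h
  rw [← h]
  unfold Rv
  rw [Finset.prod_image (fun x _ y _ h => (phi_mono N hN).injective h)]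
  refine Finset.prod_congr rfl fun k _ => ?_
  beta_reduce
  rw [phi_small (a : ℤ) (by omega) (by omega)]

theorem nd_Z (hN : 1 ≤ N) (l : ℕ) (hl : l + 1 < N) :
    nd N (fun a b => u (psi N a) (phi N b)) l = nd (N + 1) u (l + 1) := by
  unfold nd
  beta_reduce
  rw [psi_N hN, phi_next _ (by omega) (by omega)]
  congr 1
  push_cast
  ring

/-- the rows of the deleted array -/
theorem Mf_Z (hN : 1 ≤ N) (i l : ℕ) (hi : i + 1 < N) (hl : l + 1 < N) :
    Mf N (fun a b => u (psi N a) (phi N b)) i l = Af N u (i + 1) (l + 1) := by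
  unfold Mf
  rw [nd_Z hN l hl]
  have h := Rv_del (u := u) hN (i + 1) hi (nd (N + 1) u (l + 1))
  unfold Af
  rw [← h]
  unfold Rv
  push_cast
  refine Finset.prod_congr rfl fun k _ => ?_
  rw [psi_small ((i : ℤ) + 1) (by omega) (by omega), phi_small ((i : ℤ) + 1) (by omega) (by omega)]

theorem cc_sgn (hN : 2 ≤ N) (H : KArr (N + 1) u) (r j : ℕ) (hj : r + 1 + j < N) :
    0 ≤ (-1 : ℝ) ^ j * cc (Af N u) r (N - 1 - r) j := by
  obtain ⟨M, rfl⟩ : ∃ M, N = M + 1 := ⟨N - 1, by omega⟩
  have HZ : KArr (M + 1) (fun a b => u (psi (M + 1) a) (phi (M + 1) b)) :=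
    KArr.del hN (del_one (M + 1) hN) H
  have HW : KArr (M + 1) (fun a b => u (phi (M + 1) a) (phi (M + 1) b)) :=
    KArr.del hN (del_zero (M + 1) (by omega)) H
  have hsgn : (-1 : ℝ) ^ (r + j + r) = (-1) ^ j := by
    rw [show r + j + r = j + 2 * r by ring, pow_add, pow_mul]
    norm_num
  have hfin : dm (Function.update (Mf (M + 1) (fun a b => u (psi (M + 1) a) (phi (M + 1) b)))
      (r + j) (fun l => Af (M + 1) u r (l + 1))) r (M - r) = cc (Af (M + 1) u) r (M - r) j := by
    unfold cc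
    rw [← dm_shift]
    refine dm_congr fun i l h1 h2 h3 h4 => ?_
    by_cases hij : i = r + j
    · rw [hij, Function.update_self, show r + j + 1 = r + 1 + j by ring, Function.update_self]
    · rw [Function.update_of_ne hij, Function.update_of_ne (by omega),
        Mf_Z (by omega) i l (by omega) (by omega)]
  rw [show M + 1 - 1 - r = M - r by omega, ← hfin]
  generalize hZ : (fun a b : ℤ => u (psi (M + 1) a) (phi (M + 1) b)) = Z at *
  generalize hW : (fun a b : ℤ => u (phi (M + 1) a) (phi (M + 1) b)) = W at *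
  -- the row `r` at the nodes
  have hrow : ∀ l : ℕ, l < M → Rv (M + 1) W r (nd (M + 1) Z l) = Af (M + 1) u r (l + 1) := by
    intro l hl
    rw [← hZ, nd_Z (by omega) l (by omega), ← hW, Rv_del (by omega) r (by omega)]
    rfl
  have hZW : ∀ q k : ℤ, ¬ (((M + 1 : ℕ) : ℤ) ∣ q) → W q k = Z q k := by
    intro q k hq
    rw [← hW, ← hZ]
    simp only
    unfold psi
    rw [if_neg hq]
  have h2 := dm_update (Mf (M + 1) (lad (M + 1) r Z)) 0 M ⟨r + j, by omega⟩
    (fun l => Af (M + 1) u r (l + 1))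
  have h2' := dm_update (Mf (M + 1) Z) 0 M ⟨r + j, by omega⟩
    (fun l => Af (M + 1) u r (l + 1))
  simp only [zero_add] at h2 h2'
  rcases Nat.eq_zero_or_pos r with hr | hr
  · subst hr
    have h1 := sgnCw (by omega) (weak_of HZ) (weak_of HW) 0 ⟨0 + j, by omega⟩ (by simp)
      (fun q k hq => hZW q k (by simpa using hq)) (by
        intro k hk1 hk2
        push_cast at hk1 hk2
        rw [← hW, ← hZ]
        simp only [Nat.cast_zero]
        rw [psi_zero, phi_small 0 (le_refl _) (by push_cast; omega),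
          phi_small k (by omega) (by push_cast; omega)]
        exact H.le (by omega) (by omega) (le_refl _) (by omega) (by push_cast; omega) (by omega)
          (by push_cast; omega))
    simp only at h1
    have e : (fun l : Fin M => Rv (M + 1) W ((0 : ℕ) : ℤ) (nd (M + 1) Z l)) =
        fun l : Fin M => Af (M + 1) u 0 (l + 1) := by
      funext l
      exact hrow l l.2
    rw [e, ← h2', hsgn] at h1
    rw [Nat.sub_zero]
    exact h1
  · have h1 := sgnCw (by omega) (lad_weak (r := r) (by omega) (by omega) (weak_of HZ))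
      (lad_weak (r := r - 1) (by omega) (by omega) (weak_of HZ)) r ⟨r + j, by omega⟩ (by simp)
      (by
        intro q k hq
        unfold lad
        have hne : q % ((M + 1 : ℕ) : ℤ) ≠ r := by
          intro h'
          apply hq
          refine ⟨q / ((M + 1 : ℕ) : ℤ), ?_⟩
          have := Int.emod_add_mul_ediv q ((M + 1 : ℕ) : ℤ)
          linear_combination -this + h'
        have : lr (M + 1) (r - 1) (q % ((M + 1 : ℕ) : ℤ))
            (k - ((M + 1 : ℕ) : ℤ) * (q / ((M + 1 : ℕ) : ℤ))) =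
            lr (M + 1) r (q % ((M + 1 : ℕ) : ℤ))
            (k - ((M + 1 : ℕ) : ℤ) * (q / ((M + 1 : ℕ) : ℤ))) := by
          unfold lr
          generalize q % ((M + 1 : ℕ) : ℤ) = a at *
          by_cases h3 : a ≤ r
          · rw [if_pos h3, if_pos (by omega)]
          · rw [if_neg h3, if_neg (by omega)]
        rw [this])
      (by
        intro k hk1 hk2
        push_cast at hk2
        rw [lad_base Z _ _ (by omega) (by push_cast; omega), lad_base Z _ _ (by omega)
          (by push_cast; omega)]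
        obtain ⟨c1, c2, c3, c4⟩ := lr_spec (n := M + 1) (r := r) (r : ℤ) k (by omega) hk1
          (by push_cast; omega)
        obtain ⟨d1, d2, d3, d4⟩ := lr_spec (n := M + 1) (r := r - 1) (r : ℤ) k (by omega) hk1
          (by push_cast; omega)
        refine HZ.le (by omega) ?_ (le_refl _) c3 c4 d3 d4
        unfold lr
        rw [if_neg (show ¬ ((r : ℤ) ≤ ((r - 1 : ℕ) : ℤ)) by omega)]
        push_cast
        split_ifs <;> omega)
    simp only at h1
    have e : (fun l : Fin M => Rv (M + 1) (lad (M + 1) (r - 1) Z) (r : ℤ)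
        (nd (M + 1) (lad (M + 1) r Z) l)) = fun l : Fin M => Af (M + 1) u r (l + 1) := by
      funext l
      rw [nd_lad HZ.per l l.2, ← hrow l l.2]
      unfold Rv
      refine Finset.prod_congr rfl fun k _ => ?_
      rw [lad_row _ _ (by omega) (by push_cast; omega), hZW]
      intro hd
      have := Int.le_of_dvd (by omega) hd
      push_cast at this
      omega
    rw [e, ← h2, hsgn, tri_up HZ (by omega) (r + j) (by omega)] at h1
    have h3 := tri_prod_pos (r := r) HZ (by omega)
    have h6 : 0 ≤ (∏ i ∈ range r, Mf (M + 1) (lad (M + 1) r Z) i i) *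
        ((-1 : ℝ) ^ j * dm (Function.update (Mf (M + 1) Z) (r + j)
          (fun l => Af (M + 1) u r (l + 1))) r (M - r)) := by
      linarith
    exact nonneg_of_mul_nonneg_right h6 h3

end Pool.Agent.H65.AS
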