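import Pool.Agent.H40.Atiyah.Main

/-!
# Evaluation of binary forms at angles
-/

set_option autoImplicit false

namespace Pool.Agent.H65.AS

open Finset Polynomial Pool.Agent.H40.Atiyah

/-- the value of a form of degree `d` at the angle `y` -/
noncomputable def ev (d : ℕ) (y : ℝ) : ℝ[X] →ₗ[ℝ] ℝ :=
  ∑ k ∈ range (d + 1), (Real.sin (y / 2) ^ k * Real.cos (y / 2) ^ (d - k)) • lcoeff ℝ k

theorem ev_apply (d : ℕ) (y : ℝ) (f : ℝ[X]) :
    ev d y f = ∑ k ∈ range (d + 1), Real.sin (y / 2) ^ k * Real.cos (y / 2) ^ (d - k) * f.coeff k := by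
  unfold ev
  simp [LinearMap.sum_apply]

theorem ev_one (y : ℝ) : ev 0 y 1 = 1 := by
  rw [ev_apply]
  simp

/-- multiplication by a linear form -/
theorem ev_lin (d : ℕ) (y a b : ℝ) (f : ℝ[X]) (hf : f.degree ≤ (d : ℕ)) :
    ev (d + 1) y ((C a * X + C b) * f) =
      (a * Real.sin (y / 2) + b * Real.cos (y / 2)) * ev d y f := by
  rw [ev_apply, ev_apply]
  have hc : f.coeff (d + 1) = 0 := by
    apply coeff_eq_zero_of_degree_lt
    refine hf.trans_lt ?_
    exact_mod_cast Nat.lt_succ_self d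
  have h1 : ∀ k, ((C a * X + C b) * f).coeff (k + 1) = a * f.coeff k + b * f.coeff (k + 1) := by
    intro k
    rw [add_mul, coeff_add, mul_assoc, coeff_C_mul, coeff_X_mul, coeff_C_mul]
  have h0 : ((C a * X + C b) * f).coeff 0 = b * f.coeff 0 := by
    rw [add_mul, coeff_add, mul_assoc, coeff_C_mul, mul_coeff_zero, coeff_X_zero, coeff_C_mul]
    ring
  rw [Finset.sum_range_succ', h0]
  simp only [h1]
  have h2 : ∀ k ∈ range (d + 1), Real.sin (y / 2) ^ (k + 1) * Real.cos (y / 2) ^ (d + 1 - (k + 1)) *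
      (a * f.coeff k + b * f.coeff (k + 1)) =
      a * Real.sin (y / 2) * (Real.sin (y / 2) ^ k * Real.cos (y / 2) ^ (d - k) * f.coeff k) +
      b * (Real.sin (y / 2) ^ (k + 1) * Real.cos (y / 2) ^ (d + 1 - (k + 1)) *
        f.coeff (k + 1)) := by
    intro k _
    rw [Nat.add_sub_add_right, pow_succ]
    ring
  rw [Finset.sum_congr rfl h2, Finset.sum_add_distrib, ← Finset.mul_sum, ← Finset.mul_sum]
  have h3 : ∑ k ∈ range (d + 1), Real.sin (y / 2) ^ (k + 1) *
      Real.cos (y / 2) ^ (d + 1 - (k + 1)) * f.coeff (k + 1) +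
      Real.sin (y / 2) ^ 0 * Real.cos (y / 2) ^ (d + 1 - 0) * f.coeff 0 =
      Real.cos (y / 2) * ∑ k ∈ range (d + 1),
        Real.sin (y / 2) ^ k * Real.cos (y / 2) ^ (d - k) * f.coeff k := by
    rw [← Finset.sum_range_succ' (fun k => Real.sin (y / 2) ^ k *
      Real.cos (y / 2) ^ (d + 1 - k) * f.coeff k) (d + 1), Finset.sum_range_succ, hc, mul_zero,
      add_zero, Finset.mul_sum]
    refine Finset.sum_congr rfl fun k hk => ?_
    rw [Finset.mem_range] at hk
    have : d + 1 - k = (d - k) + 1 := by omega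
    rw [this, pow_succ]
    ring
  linear_combination b * h3

theorem ev_S (d : ℕ) (y t : ℝ) (f : ℝ[X]) (hf : f.degree ≤ (d : ℕ)) :
    ev (d + 1) y (S t * f) = Real.sin ((y - t) / 2) * ev d y f := by
  have h : S t = C (Real.cos (t / 2)) * X + C (-Real.sin (t / 2)) := by
    unfold S
    rw [C_neg]
    ring
  rw [h, ev_lin d y _ _ f hf]
  congr 1
  rw [show (y - t) / 2 = y / 2 - t / 2 by ring, Real.sin_sub]
  ring

theorem ev_K (d : ℕ) (y t : ℝ) (f : ℝ[X]) (hf : f.degree ≤ (d : ℕ)) :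
    ev (d + 1) y (K t * f) = Real.cos ((y - t) / 2) * ev d y f := by
  unfold K
  rw [ev_lin d y _ _ f hf]
  congr 1
  rw [show (y - t) / 2 = y / 2 - t / 2 by ring, Real.cos_sub]
  ring

theorem ev_P (y : ℝ) (x : ℤ → ℝ) (L : Finset ℤ) :
    ev L.card y (P x L) = ∏ l ∈ L, Real.sin ((y - x l) / 2) := by
  induction L using Finset.induction_on with
  | empty =>
    have : P x ∅ = 1 := by simp [P]
    rw [this, Finset.card_empty, ev_one, Finset.prod_empty]
  | insert a L ha ih =>
    have h1 : P x (insert a L) = S (x a) * P x L := by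
      unfold P
      rw [Finset.prod_insert ha]
    rw [Finset.card_insert_of_notMem ha, h1, ev_S _ _ _ _ (P_deg x L), ih,
      Finset.prod_insert ha]

end Pool.Agent.H65.AS
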