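import Pool.Agent.H65.AS.Weak

/-!
# Ladder arrays: the rows `0, ..., r` form a cluster
-/

set_option autoImplicit false

namespace Pool.Agent.H65.AS

open Finset Polynomial Pool.Agent.H40.Atiyah

/-- the row index used in the ladder array -/
def lr (n r : ℕ) (a b : ℤ) : ℤ := if a ≤ r then (if b < n then 0 else b - n + 1) else a

/-- the ladder array of `Z`: the rows `0..r` see the columns `> r` in the directions of the row
`0` of `Z` -/
noncomputable def lad (n r : ℕ) (Z : ℤ → ℤ → ℝ) (q k : ℤ) : ℝ :=
  2 * Real.pi * (q / (n : ℤ) : ℤ) + Z (lr n r (q % n) (k - n * (q / n))) (k - n * (q / n))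

theorem lad_per {n r : ℕ} (hn : 1 ≤ n) (Z : ℤ → ℤ → ℝ) (q k : ℤ) :
    lad n r Z (q + n) (k + n) = lad n r Z q k + 2 * Real.pi := by
  unfold lad
  have h1 : (q + n) / (n : ℤ) = q / n + 1 := by
    rw [Int.add_ediv_of_dvd_right (dvd_refl _), Int.ediv_self (by omega)]
  have h2 : (q + n) % (n : ℤ) = q % n := Int.add_emod_right _ _
  have h3 : k + (n : ℤ) - n * (q / n + 1) = k - n * (q / n) := by ring
  rw [h1, h2, h3]
  push_cast
  ring

theorem lad_base {n r : ℕ} (Z : ℤ → ℤ → ℝ) (a b : ℤ) (h0 : 0 ≤ a) (h1 : a < n) :
    lad n r Z a b = Z (lr n r a b) b := by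
  unfold lad
  rw [Int.ediv_eq_zero_of_lt h0 h1, Int.emod_eq_of_lt h0 h1]
  simp

theorem lr_spec {n r : ℕ} (a b : ℤ) (h0 : 0 ≤ a) (h1 : a < b) (h2 : b < a + n) :
    0 ≤ lr n r a b ∧ lr n r a b ≤ a ∧ lr n r a b < b ∧ b < lr n r a b + n := by
  unfold lr
  split_ifs <;> omega

theorem lad_weak {n r : ℕ} (hn : 2 ≤ n) (hr : r + 2 ≤ n) {Z : ℤ → ℤ → ℝ} (H : WArr n Z) :
    WArr n (lad n r Z) := by
  have hbase : ∀ q k : ℤ, lad n r Z q k =
      lad n r Z (q % n) (k - n * (q / n)) + 2 * Real.pi * (q / (n : ℤ) : ℤ) := by
    intro q k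
    rw [lad_base Z (q % n) _ (Int.emod_nonneg _ (by omega)) (Int.emod_lt_of_pos _ (by omega))]
    unfold lad
    ring
  have hdiv : ∀ q : ℤ, q = q % n + n * (q / n) := fun q => (Int.emod_add_mul_ediv q n).symm
  constructor
  · exact lad_per (by omega) Z
  · intro q k h1 h2
    rw [hbase q k, hbase q (k + 1)]
    have h3 := hdiv q
    have h4 := Int.emod_nonneg q (show (n : ℤ) ≠ 0 by omega)
    have h5 := Int.emod_lt_of_pos q (show (0 : ℤ) < n by omega)
    generalize q % (n : ℤ) = a at *
    generalize hm : (n : ℤ) * (q / n) = m at *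
    have e : k + 1 - m = (k - m) + 1 := by ring
    rw [e]
    generalize hb : k - m = b at *
    rw [lad_base Z a b h4 h5, lad_base Z a (b + 1) h4 h5]
    obtain ⟨c1, c2, c3, c4⟩ := lr_spec (n := n) (r := r) a b h4 (by omega) (by omega)
    obtain ⟨d1, d2, d3, d4⟩ := lr_spec (n := n) (r := r) a (b + 1) h4 (by omega) (by omega)
    have h6 : lr n r a b ≤ lr n r a (b + 1) := by
      unfold lr
      split_ifs <;> omega
    have := H.le hn h6 (by omega : b ≤ b + 1) c3 c4 d3 d4
    linarith
  · intro q k h1 h2
    have h3 := hdiv q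
    have h4 := Int.emod_nonneg q (show (n : ℤ) ≠ 0 by omega)
    have h5 := Int.emod_lt_of_pos q (show (0 : ℤ) < n by omega)
    by_cases hlast : q % (n : ℤ) = n - 1
    · -- next row in the next period
      have e1 : q + 1 = 0 + n * (q / n + 1) := by
        rw [hlast] at h3
        linear_combination h3
      have e2 : (q + 1) / (n : ℤ) = q / n + 1 := by
        rw [e1, Int.add_mul_ediv_left _ _ (by omega)]
        simp
      have e3 : (q + 1) % (n : ℤ) = 0 := by
        rw [e1, Int.add_mul_emod_self_left]
        simp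
      rw [hbase q k, hbase (q + 1) k, e2, e3, hlast]
      generalize hm : (n : ℤ) * (q / n) = m at *
      have e4 : k - n * (q / n + 1) = (k - m) - n := by rw [← hm]; ring
      rw [e4]
      generalize hb : k - m = b at *
      rw [lad_base Z (n - 1) b (by omega) (by omega), lad_base Z 0 (b - n) (by omega) (by omega)]
      have h6 : lr n r (n - 1) b = n - 1 := by
        unfold lr
        rw [if_neg (by omega)]
      have h7 : lr n r 0 (b - n) = 0 := by
        unfold lr
        rw [if_pos (by omega), if_pos (by omega)]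
      rw [h6, h7]
      have h8 := H.per 0 (b - n)
      rw [sub_add_cancel, zero_add] at h8
      have := H.le hn (i := (n : ℤ) - 1) (i' := n) (j := b) (j' := b) (by omega) (le_refl _)
        (by omega) (by omega) (by omega) (by omega)
      push_cast
      linarith
    · have e2 : (q + 1) / (n : ℤ) = q / n := by
        rw [Int.ediv_eq_iff_of_pos (by omega)]
        constructor
        · nlinarith
        · have : q % (n : ℤ) + 1 < n := by omega
          nlinarith
      have e3 : (q + 1) % (n : ℤ) = q % n + 1 := by
        rw [Int.emod_def, e2]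
        linarith
      rw [hbase q k, hbase (q + 1) k, e2, e3]
      generalize hq : q % (n : ℤ) = a at *
      generalize hm : (n : ℤ) * (q / n) = m at *
      generalize hb : k - m = b at *
      rw [lad_base Z a b h4 h5, lad_base Z (a + 1) b (by omega) (by omega)]
      obtain ⟨c1, c2, c3, c4⟩ := lr_spec (n := n) (r := r) a b h4 (by omega) (by omega)
      obtain ⟨d1, d2, d3, d4⟩ := lr_spec (n := n) (r := r) (a + 1) b (by omega) (by omega)
        (by omega)
      have h6 : lr n r a b ≤ lr n r (a + 1) b := by
        unfold lr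
        split_ifs <;> omega
      have := H.le hn h6 (le_refl b) c3 c4 d3 d4
      linarith
  · intro q
    have h3 := hdiv q
    have h4 := Int.emod_nonneg q (show (n : ℤ) ≠ 0 by omega)
    have h5 := Int.emod_lt_of_pos q (show (0 : ℤ) < n by omega)
    by_cases hlast : q % (n : ℤ) = n - 1
    · have e1 : q + 1 = 0 + n * (q / n + 1) := by
        rw [hlast] at h3
        linear_combination h3
      have e2 : (q + 1) / (n : ℤ) = q / n + 1 := by
        rw [e1, Int.add_mul_ediv_left _ _ (by omega)]
        simp
      have e3 : (q + 1) % (n : ℤ) = 0 := by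
        rw [e1, Int.add_mul_emod_self_left]
        simp
      rw [hbase q (q + 1), hbase (q + 1) (q + 2), e2, e3, hlast]
      generalize hm : (n : ℤ) * (q / n) = m at *
      have e4 : q + 2 - n * (q / n + 1) = 1 := by
        have : (n : ℤ) * (q / n + 1) = m + n := by rw [← hm]; ring
        rw [this]
        omega
      have e5 : q + 1 - m = n := by omega
      rw [e4, e5]
      rw [lad_base Z (n - 1) n (by omega) (by omega), lad_base Z 0 1 (by omega) (by omega)]
      have h6 : lr n r (n - 1) n = n - 1 := by
        unfold lr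
        rw [if_neg (by omega)]
      have h7 : lr n r 0 1 = 0 := by
        unfold lr
        rw [if_pos (by omega), if_pos (by omega)]
      rw [h6, h7]
      have h8 := H.per 0 1
      rw [zero_add] at h8
      have := H.le hn (i := (n : ℤ) - 1) (i' := n) (j := n) (j' := 1 + n) (by omega) (by omega)
        (by omega) (by omega) (by omega) (by omega)
      push_cast
      linarith
    · have e2 : (q + 1) / (n : ℤ) = q / n := by
        rw [Int.ediv_eq_iff_of_pos (by omega)]
        constructor
        · nlinarith
        · have : q % (n : ℤ) + 1 < n := by omega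
          nlinarith
      have e3 : (q + 1) % (n : ℤ) = q % n + 1 := by
        rw [Int.emod_def, e2]
        linarith
      rw [hbase q (q + 1), hbase (q + 1) (q + 2), e2, e3]
      generalize hq : q % (n : ℤ) = a at *
      generalize hm : (n : ℤ) * (q / n) = m at *
      have e4 : q + 1 - m = a + 1 := by omega
      have e5 : q + 2 - m = a + 2 := by omega
      rw [e4, e5, lad_base Z a (a + 1) h4 h5, lad_base Z (a + 1) (a + 2) (by omega) (by omega)]
      obtain ⟨c1, c2, c3, c4⟩ := lr_spec (n := n) (r := r) a (a + 1) h4 (by omega) (by omega)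
      obtain ⟨d1, d2, d3, d4⟩ := lr_spec (n := n) (r := r) (a + 1) (a + 2) (by omega) (by omega)
        (by omega)
      have h6 : lr n r a (a + 1) ≤ lr n r (a + 1) (a + 2) := by
        unfold lr
        split_ifs <;> omega
      have := H.le hn h6 (by omega : a + 1 ≤ a + 2) c3 c4 d3 d4
      linarith

end Pool.Agent.H65.AS
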