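import Mathlib

/-!
# Determinants of corners, and the elimination identity
-/

set_option autoImplicit false

namespace Pool.Agent.H65.AS

open Finset

/-- the determinant as a linear function of one row -/
noncomputable def rowFn {m : ℕ} (M : Matrix (Fin m) (Fin m) ℝ) (q : Fin m) :
    (Fin m → ℝ) →ₗ[ℝ] ℝ where
  toFun v := (M.updateRow q v).det
  map_add' u v := Matrix.det_updateRow_add M q u v
  map_smul' c v := by
    simp only [RingHom.id_apply, smul_eq_mul]
    exact Matrix.det_updateRow_smul M q c v

theorem rowFn_apply {m : ℕ} (M : Matrix (Fin m) (Fin m) ℝ) (q : Fin m) (v : Fin m → ℝ) :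
    rowFn M q v = (M.updateRow q v).det := rfl

theorem rowFn_self {m : ℕ} (M : Matrix (Fin m) (Fin m) ℝ) (q : Fin m) :
    rowFn M q (M q) = M.det := by
  rw [rowFn_apply, Matrix.updateRow_eq_self]

theorem rowFn_other {m : ℕ} (M : Matrix (Fin m) (Fin m) ℝ) (q j : Fin m) (h : j ≠ q) :
    rowFn M q (M j) = 0 := by
  rw [rowFn_apply]
  refine Matrix.det_zero_of_row_eq h.symm ?_
  funext l
  rw [Matrix.updateRow_self, Matrix.updateRow_ne h]

/-- the matrix of the entries with indices `r, ..., r + m - 1` -/
def cm (C : ℕ → ℕ → ℝ) (r m : ℕ) : Matrix (Fin m) (Fin m) ℝ :=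
  Matrix.of fun i j => C (r + i) (r + j)

/-- its determinant -/
noncomputable def dm (C : ℕ → ℕ → ℝ) (r m : ℕ) : ℝ := (cm C r m).det

theorem cm_apply (C : ℕ → ℕ → ℝ) (r m : ℕ) (i j : Fin m) : cm C r m i j = C (r + i) (r + j) := rfl

theorem dm_zero (C : ℕ → ℕ → ℝ) (r : ℕ) : dm C r 0 = 1 := by
  unfold dm
  exact Matrix.det_fin_zero

theorem dm_congr {C D : ℕ → ℕ → ℝ} {r m : ℕ}
    (h : ∀ i j, r ≤ i → i < r + m → r ≤ j → j < r + m → C i j = D i j) : dm C r m = dm D r m := by
  unfold dm
  congr 1
  ext i j
  rw [cm_apply, cm_apply]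
  exact h _ _ (by omega) (by omega) (by omega) (by omega)

theorem cm_update (C : ℕ → ℕ → ℝ) (r m : ℕ) (q : Fin m) (v : ℕ → ℝ) :
    cm (Function.update C (r + q) v) r m = (cm C r m).updateRow q (fun j => v (r + j)) := by
  ext i j
  rw [cm_apply]
  by_cases h : i = q
  · subst h
    rw [Function.update_self, Matrix.updateRow_self]
  · rw [Matrix.updateRow_ne h, Function.update_of_ne, cm_apply]
    intro h'
    apply h
    ext
    omega

theorem dm_update (C : ℕ → ℕ → ℝ) (r m : ℕ) (q : Fin m) (v : ℕ → ℝ) :
    dm (Function.update C (r + q) v) r m = rowFn (cm C r m) q (fun j => v (r + j)) := by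
  unfold dm
  rw [cm_update, rowFn_apply]

/-- expansion when only the first entry of the first row is not zero -/
theorem dm_tri_one (C : ℕ → ℕ → ℝ) (r m : ℕ) (h : ∀ j, r < j → j ≤ r + m → C r j = 0) :
    dm C r (m + 1) = C r r * dm C (r + 1) m := by
  unfold dm
  rw [Matrix.det_succ_row_zero, Finset.sum_eq_single 0]
  · have e : (cm C r (m + 1)).submatrix Fin.succ (Fin.succAbove 0) = cm C (r + 1) m := by
      ext i j
      rw [Matrix.submatrix_apply, cm_apply, cm_apply, Fin.succAbove_zero, Fin.val_succ,
        Fin.val_succ]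
      congr 1 <;> omega
    rw [e, cm_apply]
    simp
  · intro j _ hj
    have hj' : (j : ℕ) ≠ 0 := fun h' => hj (Fin.ext h')
    have h1 : cm C r (m + 1) 0 j = 0 := by
      rw [cm_apply]
      simpa using h (r + j) (by omega) (by omega)
    rw [h1]
    ring
  · intro h'
    exact absurd (Finset.mem_univ _) h'

/-- block triangular matrices -/
theorem dm_tri (C : ℕ → ℕ → ℝ) (m : ℕ) : ∀ r s : ℕ,
    (∀ i j, s ≤ i → i < s + r → i < j → j < s + r + m → C i j = 0) →
    dm C s (r + m) = (∏ i ∈ range r, C (s + i) (s + i)) * dm C (s + r) m := by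
  intro r
  induction r with
  | zero =>
    intro s _
    simp
  | succ r ih =>
    intro s h
    have h1 : dm C s (r + 1 + m) = C s s * dm C (s + 1) (r + m) := by
      rw [show r + 1 + m = (r + m) + 1 by ring]
      exact dm_tri_one C s (r + m) (fun j h1 h2 => h s j (le_refl _) (by omega) h1 (by omega))
    rw [h1, ih (s + 1) (fun i j h1 h2 h3 h4 => h i j (by omega) (by omega) h3 (by omega)),
      Finset.prod_range_succ']
    have e1 : s + 1 + r = s + (r + 1) := by ring
    have e2 : ∏ i ∈ range r, C (s + 1 + i) (s + 1 + i) =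
        ∏ k ∈ range r, C (s + (k + 1)) (s + (k + 1)) := by
      refine Finset.prod_congr rfl fun i _ => ?_
      rw [show s + 1 + i = s + (i + 1) by ring]
    rw [e1, e2, add_zero]
    ring

/-- the first unit vector as first row -/
theorem rowFn_unit (C : ℕ → ℕ → ℝ) (r k : ℕ) (a : ℝ) :
    rowFn (cm C r (k + 1)) 0 (fun j => if (j : ℕ) = 0 then a else 0) = a * dm C (r + 1) k := by
  have h := dm_update C r (k + 1) 0 (fun j => if j = r then a else 0)
  have e : (fun j : Fin (k + 1) => if r + (j : ℕ) = r then a else 0) =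
      fun j : Fin (k + 1) => if (j : ℕ) = 0 then a else 0 := by
    funext j
    by_cases hj : (j : ℕ) = 0
    · rw [if_pos hj, if_pos (by omega)]
    · rw [if_neg hj, if_neg (by omega)]
  rw [e] at h
  rw [← h]
  simp only [Fin.val_zero, add_zero]
  rw [dm_tri_one]
  · rw [Function.update_self, if_pos rfl]
    congr 1
    exact dm_congr fun i j h1 h2 h3 h4 => by rw [Function.update_of_ne (by omega)]
  · intro j h1 h2
    rw [Function.update_self, if_neg (by omega)]

/-- coefficient in the elimination: row `j` replaced by row `r` -/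
noncomputable def cc (A : ℕ → ℕ → ℝ) (r k j : ℕ) : ℝ :=
  dm (Function.update A (r + 1 + j) (A r)) (r + 1) k

/-- row `r` of the Hadamard product replaced by a mixed row -/
noncomputable def tt (A B : ℕ → ℕ → ℝ) (r k j : ℕ) : ℝ :=
  dm (Function.update (fun i l => A i l * B i l) r (fun l => A (r + 1 + j) l * B r l)) r (k + 1)

theorem elim_row (A : ℕ → ℕ → ℝ) (r k : ℕ) (l : Fin k) :
    ∑ j : Fin k, cc A r k j * A (r + 1 + j) (r + 1 + l) = dm A (r + 1) k * A r (r + 1 + l) := by
  have h1 := Matrix.mulVec_cramer ((cm A (r + 1) k).transpose) (fun l => A r (r + 1 + l))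
  have h2 := congrFun h1 l
  rw [Matrix.det_transpose] at h2
  simp only [Pi.smul_apply, smul_eq_mul] at h2
  rw [show (cm A (r + 1) k).det = dm A (r + 1) k from rfl] at h2
  rw [← h2]
  change _ = ∑ j, (cm A (r + 1) k) j l *
    (cm A (r + 1) k).transpose.cramer (fun l : Fin k => A r (r + 1 + l)) j
  refine Finset.sum_congr rfl fun j _ => ?_
  rw [cm_apply, Matrix.cramer_transpose_apply, mul_comm]
  congr 1
  unfold cc
  rw [dm_update, rowFn_apply]

theorem star (A B : ℕ → ℕ → ℝ) (r k : ℕ) (h : dm A (r + 1) k ≠ 0) :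
    dm (fun i l => A i l * B i l) r (k + 1) * dm A (r + 1) k =
      B r r * dm A r (k + 1) * dm (fun i l => A i l * B i l) (r + 1) k +
        ∑ j ∈ range k, cc A r k j * tt A B r k j := by
  set e : ℝ := dm A (r + 1) k * A r r - ∑ j : Fin k, cc A r k j * A (r + 1 + j) r with he
  -- the eliminated row
  have hrow : ∀ l : Fin (k + 1), dm A (r + 1) k * A r (r + l) =
      (if (l : ℕ) = 0 then e else 0) + ∑ j : Fin k, cc A r k j * A (r + 1 + j) (r + l) := by
    intro l
    by_cases hl : (l : ℕ) = 0
    · rw [if_pos hl, hl, he]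
      simp
    · rw [if_neg hl, zero_add]
      have h1 := elim_row A r k ⟨(l : ℕ) - 1, by omega⟩
      have h2 : r + 1 + ((l : ℕ) - 1) = r + l := by omega
      simp only at h1
      rw [h2] at h1
      exact h1.symm
  -- first use: `e` is the determinant
  have h1 : dm A (r + 1) k * dm A r (k + 1) = e * dm A (r + 1) k := by
    have h2 : rowFn (cm A r (k + 1)) 0 (fun l => dm A (r + 1) k * A r (r + l)) =
        dm A (r + 1) k * dm A r (k + 1) := by
      have h3 : (fun l : Fin (k + 1) => dm A (r + 1) k * A r (r + l)) =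
          dm A (r + 1) k • (cm A r (k + 1) 0) := by
        funext l
        simp [cm_apply]
      rw [h3, map_smul, rowFn_self, smul_eq_mul]
      rfl
    rw [← h2, show (fun l : Fin (k + 1) => dm A (r + 1) k * A r (r + l)) =
      (fun l : Fin (k + 1) => if (l : ℕ) = 0 then e else 0) +
        ∑ j : Fin k, cc A r k j • (cm A r (k + 1) j.succ) from ?_]
    · rw [map_add, rowFn_unit, map_sum, Finset.sum_eq_zero, add_zero]
      intro j _
      rw [map_smul, rowFn_other _ _ _ (Fin.succ_ne_zero j), smul_zero]
    · funext l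
      rw [hrow l, Pi.add_apply, Finset.sum_apply]
      congr 1
      refine Finset.sum_congr rfl fun j _ => ?_
      rw [Pi.smul_apply, cm_apply, smul_eq_mul, Fin.val_succ, show r + (j + 1) = r + 1 + j by ring]
  have h2 : e = dm A r (k + 1) := by
    have := mul_right_cancel₀ h (h1.symm.trans (mul_comm _ _))
    exact this
  -- second use
  set H : ℕ → ℕ → ℝ := fun i l => A i l * B i l with hH
  have h3 : rowFn (cm H r (k + 1)) 0 (fun l => dm A (r + 1) k * (A r (r + l) * B r (r + l))) =
      dm H r (k + 1) * dm A (r + 1) k := by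
    have h4 : (fun l : Fin (k + 1) => dm A (r + 1) k * (A r (r + l) * B r (r + l))) =
        dm A (r + 1) k • (cm H r (k + 1) 0) := by
      funext l
      simp [cm_apply, hH]
    rw [h4, map_smul, rowFn_self, smul_eq_mul, mul_comm]
    rfl
  rw [← h3, show (fun l : Fin (k + 1) => dm A (r + 1) k * (A r (r + l) * B r (r + l))) =
    (fun l : Fin (k + 1) => if (l : ℕ) = 0 then e * B r r else 0) +
      ∑ j : Fin k, cc A r k j • (fun l : Fin (k + 1) => A (r + 1 + j) (r + l) * B r (r + l))
      from ?_]
  · rw [map_add, rowFn_unit, map_sum, h2]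
    congr 1
    · ring
    · rw [Finset.sum_range (fun j => cc A r k j * tt A B r k j)]
      refine Finset.sum_congr rfl fun j _ => ?_
      rw [map_smul, smul_eq_mul]
      congr 1
      unfold tt
      have := dm_update H r (k + 1) 0 (fun l => A (r + 1 + j) l * B r l)
      simp only [Fin.val_zero, add_zero] at this
      rw [this]
  · funext l
    have h5 : dm A (r + 1) k * (A r (r + l) * B r (r + l)) =
        (dm A (r + 1) k * A r (r + l)) * B r (r + l) := by ring
    rw [h5, hrow l, Pi.add_apply, Finset.sum_apply, add_mul, Finset.sum_mul]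
    congr 1
    · by_cases hl : (l : ℕ) = 0
      · rw [if_pos hl, if_pos hl, hl, add_zero]
      · rw [if_neg hl, if_neg hl, zero_mul]
    · refine Finset.sum_congr rfl fun j _ => ?_
      rw [Pi.smul_apply, smul_eq_mul]
      ring

end Pool.Agent.H65.AS
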