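import Pool.Agent.H65.AS.Ev
import Pool.Agent.H65.AS.Mat

/-!
# The determinant at the nodes of the last row is positive (strict arrays)
-/

set_option autoImplicit false

namespace Pool.Agent.H65.AS

open Finset Polynomial Pool.Agent.H40.Atiyah

/-- the value of the row `q` at the angle `y` -/
noncomputable def Rv (n : ℕ) (V : ℤ → ℤ → ℝ) (q : ℤ) (y : ℝ) : ℝ :=
  ∏ k ∈ Ioo q (q + n), Real.sin ((y - V q k) / 2)

/-- the nodes: the cells of the row `n` -/
def nd (n : ℕ) (V : ℤ → ℤ → ℝ) (l : ℕ) : ℝ := V n (n + (l + 1))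

/-- row `j + 1` at the node `l` -/
noncomputable def Mf (n : ℕ) (V : ℤ → ℤ → ℝ) (j l : ℕ) : ℝ := Rv n V (j + 1) (nd n V l)

variable {N : ℕ} {V : ℤ → ℤ → ℝ}

theorem ev_row (q : ℤ) (y : ℝ) :
    ev N y (P (V q) (Ioo q (q + (N + 1 : ℕ)))) = Rv (N + 1) V q y := by
  have h : (Ioo q (q + ((N + 1 : ℕ) : ℤ))).card = N := by
    rw [Int.card_Ioo]; push_cast; omega
  have := ev_P y (V q) (Ioo q (q + ((N + 1 : ℕ) : ℤ)))
  rw [h] at this
  rw [this]
  rfl

theorem ev_erase (q l : ℤ) (hl : l ∈ Ioo q (q + ((N + 1 : ℕ) : ℤ))) (y t : ℝ) :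
    ev N y (P (V q) ((Ioo q (q + (N + 1 : ℕ))).erase l) * S t) =
      (∏ k ∈ (Ioo q (q + ((N + 1 : ℕ) : ℤ))).erase l, Real.sin ((y - V q k) / 2)) *
        Real.sin ((y - t) / 2) := by
  have h : ((Ioo q (q + ((N + 1 : ℕ) : ℤ))).erase l).card + 1 = N := by
    rw [Finset.card_erase_of_mem hl, Int.card_Ioo]
    have := Finset.mem_Ioo.1 hl
    push_cast at *; omega
  have h1 := ev_S _ y t _ (P_deg (V q) ((Ioo q (q + ((N + 1 : ℕ) : ℤ))).erase l))
  rw [h, ev_P] at h1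
  rw [mul_comm (P _ _) (S t), h1, mul_comm]

theorem ev_eraseK (q l : ℤ) (hl : l ∈ Ioo q (q + ((N + 1 : ℕ) : ℤ))) (y t : ℝ) :
    ev N y (P (V q) ((Ioo q (q + (N + 1 : ℕ))).erase l) * K t) =
      (∏ k ∈ (Ioo q (q + ((N + 1 : ℕ) : ℤ))).erase l, Real.sin ((y - V q k) / 2)) *
        Real.cos ((y - t) / 2) := by
  have h : ((Ioo q (q + ((N + 1 : ℕ) : ℤ))).erase l).card + 1 = N := by
    rw [Finset.card_erase_of_mem hl, Int.card_Ioo]
    have := Finset.mem_Ioo.1 hl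
    push_cast at *; omega
  have h1 := ev_K _ y t _ (P_deg (V q) ((Ioo q (q + ((N + 1 : ℕ) : ℤ))).erase l))
  rw [h, ev_P] at h1
  rw [mul_comm (P _ _) (K t), h1, mul_comm]

/-- the nodes as cells of the row `0` -/
theorem nd_eq (hper : ∀ i j : ℤ, V (i + (N + 1 : ℕ)) (j + (N + 1 : ℕ)) = V i j + 2 * Real.pi)
    (l : ℕ) : nd (N + 1) V l = V 0 (l + 1) + 2 * Real.pi := by
  have := hper 0 (l + 1)
  unfold nd
  rw [← this]
  congr 1
  · ring
  · ring

/-- the row `0` vanishes at the nodes -/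
theorem Rv_zero (hper : ∀ i j : ℤ, V (i + (N + 1 : ℕ)) (j + (N + 1 : ℕ)) = V i j + 2 * Real.pi)
    (l : ℕ) (hl : l < N) : Rv (N + 1) V 0 (nd (N + 1) V l) = 0 := by
  unfold Rv
  refine Finset.prod_eq_zero (i := ((l : ℤ) + 1)) (Finset.mem_Ioo.2 ⟨by omega, by push_cast; omega⟩)
    ?_
  rw [nd_eq hper]
  rw [show (V 0 (l + 1) + 2 * Real.pi - V 0 (l + 1)) / 2 = Real.pi by ring, Real.sin_pi]

theorem sin_pos_of {x : ℝ} (h1 : 0 < x) (h2 : x < 2 * Real.pi) : 0 < Real.sin (x / 2) :=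
  Real.sin_pos_of_pos_of_lt_pi (by linarith) (by linarith)

theorem E_ne (hN : 1 ≤ N) (H : KArr (N + 1) V) : dm (Mf (N + 1) V) 0 N ≠ 0 := by
  intro hdet
  obtain ⟨v, hv, hMv⟩ := Matrix.exists_mulVec_eq_zero_iff.2 hdet
  set h : ℝ[X] →ₗ[ℝ] ℝ := ∑ l : Fin N, v l • ev N (nd (N + 1) V l) with hh
  have happ : ∀ f, h f = ∑ l : Fin N, v l * ev N (nd (N + 1) V l) f := by
    intro f
    rw [hh, LinearMap.sum_apply]
    rfl
  have h0 : ∀ q ∈ Ico (0 : ℤ) (N + 1 : ℕ), h (P (V q) (Ioo q (q + (N + 1 : ℕ)))) = 0 := by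
    intro q hq
    rw [Finset.mem_Ico] at hq
    rw [happ]
    simp only [ev_row]
    by_cases hq0 : q = 0
    · subst hq0
      refine Finset.sum_eq_zero fun l _ => ?_
      rw [Rv_zero H.per l l.2, mul_zero]
    · have h2 := congrFun hMv ⟨(q - 1).toNat, by push_cast at hq; omega⟩
      change ∑ l : Fin N, cm (Mf (N + 1) V) 0 N _ l * v l = 0 at h2
      rw [← h2]
      refine Finset.sum_congr rfl fun l _ => ?_
      rw [cm_apply, mul_comm]
      unfold Mf
      congr 2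
      · push_cast
        omega
      · simp
  have hz := core (by omega) H h h0
  apply hv
  funext l0
  have h1 := hz (P (V 0) ((Ioo (0 : ℤ) (0 + (N + 1 : ℕ))).erase ((l0 : ℕ) + 1)) *
    K (V 0 ((l0 : ℕ) + 1))) (by
      have hc : ((Ioo (0 : ℤ) (0 + (N + 1 : ℕ))).erase (((l0 : ℕ) : ℤ) + 1)).card = N - 1 := by
        rw [Finset.card_erase_of_mem (Finset.mem_Ioo.2 ⟨by omega, by push_cast; omega⟩),
          Int.card_Ioo]
        push_cast; omega
      refine mul_lt (P_deg _ _) (K_deg _) (?_ : _ + 1 < N + 1)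
      rw [hc]
      have := l0.2
      omega)
  rw [happ] at h1
  have hmem : (((l0 : ℕ) : ℤ) + 1) ∈ Ioo (0 : ℤ) (0 + ((N + 1 : ℕ) : ℤ)) :=
    Finset.mem_Ioo.2 ⟨by omega, by push_cast; have := l0.2; omega⟩
  rw [Finset.sum_eq_single l0] at h1
  · rw [ev_eraseK 0 _ hmem, nd_eq H.per] at h1
    have h2 : Real.cos ((V 0 ((l0 : ℕ) + 1) + 2 * Real.pi - V 0 ((l0 : ℕ) + 1)) / 2) = -1 := by
      rw [show (V 0 ((l0 : ℕ) + 1) + 2 * Real.pi - V 0 ((l0 : ℕ) + 1)) / 2 = Real.pi by ring,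
        Real.cos_pi]
    rw [h2] at h1
    have h3 : (∏ k ∈ (Ioo (0 : ℤ) (0 + ((N + 1 : ℕ) : ℤ))).erase (((l0 : ℕ) : ℤ) + 1),
        Real.sin ((V 0 ((l0 : ℕ) + 1) + 2 * Real.pi - V 0 k) / 2)) ≠ 0 := by
      rw [Finset.prod_ne_zero_iff]
      intro k hk
      rw [Finset.mem_erase, Finset.mem_Ioo] at hk
      obtain ⟨hk1, hk2, hk3⟩ := hk
      have hl0 := l0.2
      have e : (V 0 ((l0 : ℕ) + 1) + 2 * Real.pi - V 0 k) / 2 =
          (V 0 ((l0 : ℕ) + 1) - V 0 k) / 2 + Real.pi := by ring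
      rw [e, Real.sin_add_pi, neg_ne_zero]
      push_cast at hk3
      rcases lt_or_gt_of_ne hk1 with hlt | hgt
      · have h4 := H.lt (by omega) (le_refl (0 : ℤ)) hlt.le (by omega) (by push_cast; omega)
          (by omega) (by push_cast; omega) (Or.inr hlt)
        have h5 := H.lt_add (by omega) (i := 0) (j := k) (i' := 0) (j' := ((l0 : ℕ) : ℤ) + 1)
          (by omega) (by push_cast; omega) (by omega) (by push_cast; omega) (by omega)
          (by push_cast; omega) (Or.inl (by omega))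
        exact (sin_pos_of (by linarith) (by linarith)).ne'
      · have h4 := H.lt (by omega) (le_refl (0 : ℤ)) hgt.le (by omega) (by push_cast; omega)
          (by omega) (by push_cast; omega) (Or.inr hgt)
        have h5 := H.lt_add (by omega) (i := 0) (j := ((l0 : ℕ) : ℤ) + 1) (i' := 0) (j' := k)
          (by omega) (by push_cast; omega) (by omega) (by push_cast; omega) (by omega)
          (by push_cast; omega) (Or.inl (by omega))
        rw [show (V 0 ((l0 : ℕ) + 1) - V 0 k) / 2 = -((V 0 k - V 0 ((l0 : ℕ) + 1)) / 2) by ring,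
          Real.sin_neg, neg_ne_zero]
        exact (sin_pos_of (by linarith) (by linarith)).ne'
    have h6 : v l0 * ((∏ k ∈ (Ioo (0 : ℤ) (0 + ((N + 1 : ℕ) : ℤ))).erase (((l0 : ℕ) : ℤ) + 1),
        Real.sin ((V 0 ((l0 : ℕ) + 1) + 2 * Real.pi - V 0 k) / 2)) * -1) = 0 := h1
    rcases mul_eq_zero.1 h6 with h7 | h7
    · exact h7
    · exact absurd (by linarith) h3
  · intro l _ hl
    rw [ev_eraseK 0 _ hmem]
    have : (∏ k ∈ (Ioo (0 : ℤ) (0 + ((N + 1 : ℕ) : ℤ))).erase (((l0 : ℕ) : ℤ) + 1),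
        Real.sin ((nd (N + 1) V l - V 0 k) / 2)) = 0 := by
      refine Finset.prod_eq_zero (i := (((l : ℕ) : ℤ) + 1)) (Finset.mem_erase.2 ⟨?_, ?_⟩) ?_
      · intro h'
        apply hl
        ext
        omega
      · have := l.2
        exact Finset.mem_Ioo.2 ⟨by omega, by push_cast; omega⟩
      · rw [nd_eq H.per, show (V 0 ((l : ℕ) + 1) + 2 * Real.pi - V 0 ((l : ℕ) + 1)) / 2 = Real.pi
          by ring, Real.sin_pi]
    rw [this]
    ring
  · intro h'
    exact absurd (Finset.mem_univ _) h'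

theorem cont_dm {C : ℝ → ℕ → ℕ → ℝ} (hC : ∀ i j, Continuous fun t => C t i j) (r m : ℕ) :
    Continuous fun t => dm (C t) r m := by
  unfold dm
  refine Continuous.matrix_det ?_
  refine continuous_matrix fun i j => ?_
  exact hC _ _

theorem cont_Rv {A : ℝ → ℤ → ℤ → ℝ} {y : ℝ → ℝ} (hA : ∀ i l, Continuous fun t => A t i l)
    (hy : Continuous y) (n : ℕ) (q : ℤ) : Continuous fun t => Rv n (A t) q (y t) := by
  unfold Rv
  refine continuous_finsetProd _ fun k _ => ?_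
  exact Real.continuous_sin.comp ((hy.sub (hA q k)).div_const 2)

theorem cont_Mf {A : ℝ → ℤ → ℤ → ℝ} (hA : ∀ i l, Continuous fun t => A t i l) (n : ℕ)
    (j l : ℕ) : Continuous fun t => Mf n (A t) j l := by
  unfold Mf nd
  exact cont_Rv hA (hA _ _) n _

/-- the ideal polygon -/
theorem E_ideal (N : ℕ) : 0 < dm (Mf (N + 1) (path N V 0)) 0 N := by
  rw [path_zero]
  set W : ℤ → ℤ → ℝ := fun (_ l : ℤ) => (l : ℝ) * (2 * Real.pi / (N + 1)) with hW
  have hN : (0 : ℝ) < (N : ℝ) + 1 := by positivity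
  have hnd : ∀ l : ℕ, nd (N + 1) W l = ((N : ℝ) + 1 + (l + 1)) * (2 * Real.pi / (N + 1)) := by
    intro l
    unfold nd
    rw [hW]
    push_cast
    ring
  have h1 := dm_tri (Mf (N + 1) W) 0 N 0 (by
    intro i j _ h2 h3 h4
    unfold Mf Rv
    refine Finset.prod_eq_zero (i := ((j : ℤ) + 1)) (Finset.mem_Ioo.2 ⟨by omega, by push_cast; omega⟩)
      ?_
    rw [hnd]
    have e : (((N : ℝ) + 1 + (j + 1)) * (2 * Real.pi / (N + 1)) - W (i + 1) (j + 1)) / 2 =
        Real.pi := by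
      rw [hW]
      push_cast
      field_simp
      ring
    rw [e, Real.sin_pi])
  rw [add_zero, zero_add, dm_zero, mul_one] at h1
  rw [h1]
  refine Finset.prod_pos fun i hi => ?_
  rw [zero_add]
  unfold Mf Rv
  refine Finset.prod_pos fun k hk => ?_
  rw [Finset.mem_Ioo] at hk
  rw [Finset.mem_range] at hi
  obtain ⟨hk1, hk2⟩ := hk
  rw [hnd, hW]
  have h2 : (k : ℝ) + 1 ≤ (N : ℝ) + 1 + (i + 1) := by
    have : k + 1 ≤ (N : ℤ) + 1 + (i + 1) := by push_cast at hk2; omega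
    exact_mod_cast this
  have h3 : (i : ℝ) + 1 + 1 ≤ (k : ℝ) := by
    have : (i : ℤ) + 1 + 1 ≤ k := by omega
    exact_mod_cast this
  have hc : (0 : ℝ) < 2 * Real.pi / (N + 1) := by positivity
  have hc2 : ((N : ℝ) + 1) * (2 * Real.pi / (N + 1)) = 2 * Real.pi := by field_simp
  apply sin_pos_of
  · rw [← sub_mul]
    exact mul_pos (by linarith) hc
  · rw [← sub_mul]
    have h4 : ((N : ℝ) + 1 + (i + 1) - k) * (2 * Real.pi / (N + 1)) <
        ((N : ℝ) + 1) * (2 * Real.pi / (N + 1)) := mul_lt_mul_of_pos_right (by linarith) hc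
    rw [hc2] at h4
    exact h4

theorem E_pos (hN : 1 ≤ N) (H : KArr (N + 1) V) : 0 < dm (Mf (N + 1) V) 0 N := by
  have hcont : Continuous fun t => dm (Mf (N + 1) (path N V t)) 0 N :=
    cont_dm (fun i j => cont_Mf path_cont _ _ _) _ _
  by_contra hneg
  push Not at hneg
  have h1 : dm (Mf (N + 1) (path N V 1)) 0 N ≤ 0 := by
    rw [path_one]; exact hneg
  obtain ⟨t, ht, ht0⟩ := intermediate_value_Icc' (zero_le_one' ℝ) hcont.continuousOn
    (Set.mem_Icc.2 ⟨h1, (E_ideal (V := V) N).le⟩)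
  simp only at ht0
  rcases eq_or_lt_of_le ht.1 with h2 | h2
  · rw [← h2] at ht0
    exact absurd ht0 (E_ideal (V := V) N).ne'
  · exact E_ne hN (path_karr H h2 ht.2) ht0

end Pool.Agent.H65.AS
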