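import Pool.Agent.H65.AS.Asm
import Pool.Agent.H64.CW.Geo

/-!
# The inequality for weak arrays, rotation of the enumeration
-/

set_option autoImplicit false

namespace Pool.Agent.H65.AS

open Finset Polynomial
open Pool.Agent.H40.Atiyah (phi psi KArr phi_add del_zero)
open Pool.Agent.Results.MP_1fedf0_gt.CollinearPlusOne
open Pool.Agent.H64.CC (lft lft_mem prod_lft)

theorem D_one (u : ℤ → ℤ → ℝ) : D 1 u = 1 := by
  unfold D Pool.Agent.H40.Atiyah.P
  rw [Matrix.det_fin_one, Matrix.of_apply]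
  have : Ioo (((0 : Fin 1) : ℕ) : ℤ) ((((0 : Fin 1) : ℕ) : ℤ) + ((1 : ℕ) : ℤ)) = ∅ := by
    ext x
    simp only [Finset.mem_Ioo, Finset.notMem_empty, iff_false, Fin.val_zero]
    omega
  rw [this]
  simp

theorem step_weak (N : ℕ) (hN : 1 ≤ N) (u : ℤ → ℤ → ℝ) (H : WArr (N + 1) u) :
    D N (fun a b => u (phi N a) (phi N b)) *
      (∏ r ∈ range N, Real.sin ((u ((r : ℤ) + 1) ((N : ℤ) + 1) - u 0 ((r : ℤ) + 1)) / 2)) ≤
    D (N + 1) u := by
  rcases eq_or_lt_of_le hN with h1 | h1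
  · subst h1
    rw [← D_two, D_one, one_mul]
    unfold PR
    have h2 : ∀ f : Fin 2 → Fin 2 → ℝ, ∏ i : Fin 2, ∏ j ∈ Finset.Ioi i, f i j = f 0 1 := by
      intro f
      rw [Fin.prod_univ_two]
      have e1 : Finset.Ioi (0 : Fin 2) = {1} := by decide
      have e2 : Finset.Ioi (1 : Fin 2) = ∅ := by decide
      rw [e1, e2, Finset.prod_singleton, Finset.prod_empty, mul_one]
    rw [h2]
    simp
  · have hc := mixw_cont u (std (N + 1))
    have h := cl (f := fun ε => D (N + 1) (mixw u (std (N + 1)) ε) -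
      D N (fun a b => mixw u (std (N + 1)) ε (phi N a) (phi N b)) *
      (∏ r ∈ range N, Real.sin ((mixw u (std (N + 1)) ε ((r : ℤ) + 1) ((N : ℤ) + 1) -
        mixw u (std (N + 1)) ε 0 ((r : ℤ) + 1)) / 2)))
      (by
        refine (cont_D hc _).sub ((cont_D (fun i l => hc _ _) _).mul ?_)
        refine continuous_finsetProd _ fun r _ => ?_
        exact Real.continuous_sin.comp (((hc _ _).sub (hc _ _)).div_const 2))
      (fun ε h7 h8 => sub_nonneg.2 (step N h1 (all_le step N h1) _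
        (mixw_karr H (std_karr (N + 1) (by omega)) h7 h8)))
    simp only [mixw_zero] at h
    linarith

/-- the conclusion of the geometry -/
def Geo {n : ℕ} (p : Fin n → Fin n → Fin 3 → ℝ) (σ : Equiv.Perm (Fin n)) (u : ℤ → ℤ → ℝ)
    (e1 e2 : ℂ × ℂ) : Prop :=
  WArr n u ∧ br e1 e2 ≠ 0 ∧
      (∀ a b : Fin n, b ≠ a → ∃ c : ℂ, c ≠ 0 ∧ spin (p (σ a) (σ b)) =
        (c * ((Real.cos (u (a : ℕ) (lft a b) / 2) : ℂ) * e2.1 +
          (Real.sin (u (a : ℕ) (lft a b) / 2) : ℂ) * e1.1),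
        c * ((Real.cos (u (a : ℕ) (lft a b) / 2) : ℂ) * e2.2 +
          (Real.sin (u (a : ℕ) (lft a b) / 2) : ℂ) * e1.2)))

theorem br_comb2 (e1 e2 : ℂ × ℂ) (c c' : ℂ) (x y : ℝ) :
    br (c * ((Real.cos (x / 2) : ℂ) * e2.1 + (Real.sin (x / 2) : ℂ) * e1.1),
        c * ((Real.cos (x / 2) : ℂ) * e2.2 + (Real.sin (x / 2) : ℂ) * e1.2))
      (c' * ((Real.cos (y / 2) : ℂ) * e2.1 + (Real.sin (y / 2) : ℂ) * e1.1),
        c' * ((Real.cos (y / 2) : ℂ) * e2.2 + (Real.sin (y / 2) : ℂ) * e1.2)) =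
      -((c * c' * br e1 e2) * (Real.sin ((y - x) / 2) : ℂ)) := by
  rw [show (y - x) / 2 = y / 2 - x / 2 by ring, Real.sin_sub]
  unfold br
  push_cast
  ring

theorem exists_geo {n : ℕ} (hn : 2 ≤ n) {x : Fin n → Fin 3 → ℝ} {p : Fin n → Fin n → Fin 3 → ℝ}
    (hx : ∀ i, ∑ k : Fin 3, (x i k) ^ 2 < 1)
    (hp : ∀ i j, i ≠ j → (∑ k : Fin 3, (p i j k) ^ 2 = 1) ∧
      ∃ t : ℝ, 0 < t ∧ p i j = x i + t • (x j - x i))
    (hcop : Coplanar ℝ (Set.range x)) (hinj : Function.Injective x)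
    (hw : ∀ i, x i ∉ intrinsicInterior ℝ (convexHull ℝ (Set.range x))) :
    (∃ (σ : Equiv.Perm (Fin n)) (u : ℤ → ℤ → ℝ) (e1 e2 : ℂ × ℂ), Geo p σ u e1 e2) ∧
      ∀ i j, i ≠ j → br (spin (p i j)) (spin (p j i)) ≠ 0 := by
  obtain ⟨σ, u, e1, e2, h1, h2, h3, h4⟩ :=
    Pool.Agent.H64.CW.weak_geometry hn hx hp hcop hinj hw
  have h3' : ∀ a b : Fin n, b ≠ a → ∃ c : ℂ, c ≠ 0 ∧ spin (p (σ a) (σ b)) =
        (c * ((Real.cos (u (a : ℕ) (lft a b) / 2) : ℂ) * e2.1 +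
          (Real.sin (u (a : ℕ) (lft a b) / 2) : ℂ) * e1.1),
        c * ((Real.cos (u (a : ℕ) (lft a b) / 2) : ℂ) * e2.2 +
          (Real.sin (u (a : ℕ) (lft a b) / 2) : ℂ) * e1.2)) := by
    intro a b hab
    obtain ⟨c, hc, h5⟩ := h3 a b hab
    refine ⟨c, hc, ?_⟩
    rw [h5]
    rfl
  refine ⟨⟨σ, u, e1, e2, ⟨h1.per, h1.row, h1.col, h1.diag⟩, h2, h3'⟩, ?_⟩
  have key : ∀ a b : Fin n, a < b → br (spin (p (σ a) (σ b))) (spin (p (σ b) (σ a))) ≠ 0 := by
    intro a b hab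
    obtain ⟨c, hc, h5⟩ := h3' a b hab.ne'
    obtain ⟨c', hc', h6⟩ := h3' b a hab.ne
    have e1 : lft a b = ((b : ℕ) : ℤ) := by
      unfold lft
      rw [if_pos hab]
    have e2 : lft b a = ((a : ℕ) : ℤ) + n := by
      unfold lft
      rw [if_neg (not_lt.2 hab.le)]
    rw [h5, h6, br_comb2, e1, e2]
    refine neg_ne_zero.2 (mul_ne_zero (mul_ne_zero (mul_ne_zero hc hc') h2) ?_)
    exact_mod_cast (h4 a b hab).ne'
  have hanti : ∀ v w : ℂ × ℂ, br v w = -br w v := by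
    intro v w
    unfold br
    ring
  intro i j hij
  have hne : σ.symm i ≠ σ.symm j := fun h => hij (σ.symm.injective h)
  rcases lt_or_gt_of_ne hne with h | h
  · have := key _ _ h
    simpa only [Equiv.apply_symm_apply] using this
  · have := key _ _ h
    rw [hanti]
    simp only [Equiv.apply_symm_apply] at this
    exact neg_ne_zero.2 this

theorem WArr.shift {n : ℕ} {u : ℤ → ℤ → ℝ} (H : WArr n u) (k : ℤ) :
    WArr n (fun i j => u (i + k) (j + k)) where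
  per i j := by
    have := H.per (i + k) (j + k)
    rw [show i + n + k = i + k + n by ring, show j + n + k = j + k + n by ring]
    exact this
  row i j h1 h2 := by
    have := H.row (i + k) (j + k) (by omega) (by omega)
    rw [show j + 1 + k = j + k + 1 by ring]
    exact this
  col i j h1 h2 := by
    have := H.col (i + k) (j + k) (by omega) (by omega)
    rw [show i + 1 + k = i + k + 1 by ring]
    exact this
  diag i := by
    have := H.diag (i + k)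
    rw [show i + 1 + k = i + k + 1 by ring, show i + 2 + k = i + k + 2 by ring]
    exact this

theorem lft_rot {N : ℕ} (a' b' a0 : Fin (N + 1)) (h : b' ≠ a') :
    ((((a' + a0 : Fin (N + 1)) : ℕ) : ℤ) = (a' : ℕ) + (a0 : ℕ) ∧
      lft (a' + a0) (b' + a0) = lft a' b' + (a0 : ℕ)) ∨
    ((((a' + a0 : Fin (N + 1)) : ℕ) : ℤ) + (N + 1 : ℕ) = (a' : ℕ) + (a0 : ℕ) ∧
      lft (a' + a0) (b' + a0) + (N + 1 : ℕ) = lft a' b' + (a0 : ℕ)) := by
  have h1 : ((a' + a0 : Fin (N + 1)) : ℕ) = ((a' : ℕ) + a0) % (N + 1) := Fin.val_add _ _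
  have h2 : ((b' + a0 : Fin (N + 1)) : ℕ) = ((b' : ℕ) + a0) % (N + 1) := Fin.val_add _ _
  have ha := a'.2
  have hb := b'.2
  have ha0 := a0.2
  have hne : (b' : ℕ) ≠ (a' : ℕ) := fun h' => h (Fin.ext h')
  have e1 : ((a' : ℕ) + a0) % (N + 1) = if (a' : ℕ) + a0 < N + 1 then (a' : ℕ) + a0 else
      (a' : ℕ) + a0 - (N + 1) := by
    split_ifs with hc
    · exact Nat.mod_eq_of_lt hc
    · rw [Nat.mod_eq_sub_mod (by omega), Nat.mod_eq_of_lt (by omega)]
  have e2 : ((b' : ℕ) + a0) % (N + 1) = if (b' : ℕ) + a0 < N + 1 then (b' : ℕ) + a0 else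
      (b' : ℕ) + a0 - (N + 1) := by
    split_ifs with hc
    · exact Nat.mod_eq_of_lt hc
    · rw [Nat.mod_eq_sub_mod (by omega), Nat.mod_eq_of_lt (by omega)]
  unfold lft
  simp only [Fin.lt_def]
  rw [h1, h2, e1, e2]
  push_cast
  by_cases c1 : (a' : ℕ) + a0 < N + 1
  · left
    rw [if_pos c1]
    refine ⟨by ring, ?_⟩
    split_ifs <;> omega
  · right
    rw [if_neg c1]
    refine ⟨by omega, ?_⟩
    split_ifs <;> omega

theorem Geo.rot {N : ℕ} {p : Fin (N + 1) → Fin (N + 1) → Fin 3 → ℝ}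
    {σ : Equiv.Perm (Fin (N + 1))} {u : ℤ → ℤ → ℝ} {e1 e2 : ℂ × ℂ} (h : Geo p σ u e1 e2)
    (a0 : Fin (N + 1)) : Geo p ((Equiv.addRight a0).trans σ)
      (fun i j => u (i + (a0 : ℕ)) (j + (a0 : ℕ))) e1 e2 := by
  obtain ⟨h1, h2, h3⟩ := h
  have hval : ∀ a' b' : Fin (N + 1), b' ≠ a' →
      u ((a' : ℕ) + (a0 : ℕ)) (lft a' b' + (a0 : ℕ)) =
        u ((a' + a0 : Fin (N + 1)) : ℕ) (lft (a' + a0) (b' + a0)) ∨
      u ((a' : ℕ) + (a0 : ℕ)) (lft a' b' + (a0 : ℕ)) =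
        u ((a' + a0 : Fin (N + 1)) : ℕ) (lft (a' + a0) (b' + a0)) + 2 * Real.pi := by
    intro a' b' hab
    rcases lft_rot a' b' a0 hab with ⟨h5, h6⟩ | ⟨h5, h6⟩
    · left
      rw [h5, h6]
    · right
      rw [← h1.per, h5, h6]
  refine ⟨h1.shift _, h2, fun a' b' hab => ?_⟩
  · have hab' : b' + a0 ≠ a' + a0 := fun h => hab (add_right_cancel h)
    obtain ⟨c, hc, h5⟩ := h3 (a' + a0) (b' + a0) hab'
    simp only [Equiv.trans_apply, Equiv.coe_addRight]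
    rcases hval a' b' hab with h6 | h6
    · refine ⟨c, hc, ?_⟩
      rw [h5, h6]
    · refine ⟨-c, neg_ne_zero.2 hc, ?_⟩
      rw [h5, h6, add_div, mul_div_assoc, show 2 * (Real.pi / 2) = Real.pi by ring,
        Real.cos_add_pi, Real.sin_add_pi]
      refine Prod.ext ?_ ?_
      · simp only
        push_cast
        ring
      · simp only
        push_cast
        ring

end Pool.Agent.H65.AS
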