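import Pool.Agent.H65.AS.Pos

/-!
# Signs of the determinants with one row replaced (strict arrays)
-/

set_option autoImplicit false

namespace Pool.Agent.H65.AS

open Finset Polynomial Pool.Agent.H40.Atiyah

variable {N : ℕ} {V : ℤ → ℤ → ℝ}

/-- the determinant as a functional of the row `q0` -/
noncomputable def Gf (N : ℕ) (V : ℤ → ℤ → ℝ) (q0 : Fin N) : ℝ[X] →ₗ[ℝ] ℝ :=
  (rowFn (cm (Mf (N + 1) V) 0 N) q0) ∘ₗ (LinearMap.pi fun l : Fin N => ev N (nd (N + 1) V l))

theorem Gf_apply (q0 : Fin N) (f : ℝ[X]) :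
    Gf N V q0 f = rowFn (cm (Mf (N + 1) V) 0 N) q0 (fun l : Fin N => ev N (nd (N + 1) V l) f) := rfl

theorem row_vec (j : Fin N) : (fun l : Fin N => ev N (nd (N + 1) V l)
    (P (V ((j : ℕ) + 1)) (Ioo (((j : ℕ) : ℤ) + 1) (((j : ℕ) : ℤ) + 1 + (N + 1 : ℕ))))) =
    cm (Mf (N + 1) V) 0 N j := by
  funext l
  rw [ev_row, cm_apply]
  unfold Mf
  simp

theorem Gf_self (q0 : Fin N) :
    Gf N V q0 (P (V ((q0 : ℕ) + 1)) (Ioo (((q0 : ℕ) : ℤ) + 1) (((q0 : ℕ) : ℤ) + 1 + (N + 1 : ℕ)))) =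
      dm (Mf (N + 1) V) 0 N := by
  rw [Gf_apply, row_vec, rowFn_self]
  rfl

theorem Gf_other (q0 j : Fin N) (h : j ≠ q0) :
    Gf N V q0 (P (V ((j : ℕ) + 1)) (Ioo (((j : ℕ) : ℤ) + 1) (((j : ℕ) : ℤ) + 1 + (N + 1 : ℕ)))) =
      0 := by
  rw [Gf_apply, row_vec, rowFn_other _ _ _ h]

theorem Gf_zero (hper : ∀ i j : ℤ, V (i + (N + 1 : ℕ)) (j + (N + 1 : ℕ)) = V i j + 2 * Real.pi)
    (q0 : Fin N) : Gf N V q0 (P (V 0) (Ioo (0 : ℤ) (0 + (N + 1 : ℕ)))) = 0 := by
  rw [Gf_apply]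
  have : (fun l : Fin N => ev N (nd (N + 1) V l) (P (V 0) (Ioo (0 : ℤ) (0 + (N + 1 : ℕ))))) = 0 := by
    funext l
    rw [ev_row, Rv_zero hper l l.2]
    rfl
  rw [this, map_zero]

theorem sg_turn (hper : ∀ i j : ℤ, V (i + (N + 1 : ℕ)) (j + (N + 1 : ℕ)) = V i j + 2 * Real.pi)
    (g : ℝ[X] →ₗ[ℝ] ℝ) (q : ℤ) :
    sg (q + (N + 1 : ℕ)) * g (P (V (q + (N + 1 : ℕ)))
      (Ioo (q + (N + 1 : ℕ)) (q + (N + 1 : ℕ) + (N + 1 : ℕ)))) =
      -(sg q * g (P (V q) (Ioo q (q + (N + 1 : ℕ))))) := by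
  have hc : (Ioo q (q + ((N + 1 : ℕ) : ℤ))).card = N := by
    rw [Int.card_Ioo]; push_cast; omega
  rw [← Ioo_image q (N + 1 : ℕ) (N + 1 : ℕ), P_turn (V q) (V (q + (N + 1 : ℕ))) _ _
    (fun j => hper q j), gC, hc, sg_add, sg_nat]
  have : ((-1 : ℝ)) ^ (N + 1) * (-1) ^ N = -1 := by
    rw [← pow_add]
    exact Odd.neg_one_pow ⟨N, by ring⟩
  linear_combination (sg q * g (P (V q) (Ioo q (q + ((N + 1 : ℕ) : ℤ))))) * this

/-- the values of `sg q * h (row q)` when `h` is a multiple of `Gf` -/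
theorem Gf_vals (hper : ∀ i j : ℤ, V (i + (N + 1 : ℕ)) (j + (N + 1 : ℕ)) = V i j + 2 * Real.pi)
    (q0 : Fin N) (q : ℤ) (h1 : 0 ≤ q) (h2 : q ≤ N) :
    sg q * Gf N V q0 (P (V q) (Ioo q (q + (N + 1 : ℕ)))) =
      if q = ((q0 : ℕ) : ℤ) + 1 then sg q * dm (Mf (N + 1) V) 0 N else 0 := by
  rcases eq_or_lt_of_le h1 with h3 | h3
  · subst h3
    rw [Gf_zero hper, mul_zero, if_neg (by omega)]
  · obtain ⟨j, hj⟩ : ∃ j : Fin N, q = ((j : ℕ) : ℤ) + 1 := ⟨⟨(q - 1).toNat, by omega⟩, by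
      simp only; omega⟩
    subst hj
    by_cases hjq : j = q0
    · subst hjq
      rw [if_pos rfl, Gf_self]
    · rw [Gf_other q0 j hjq, mul_zero, if_neg]
      intro h'
      apply hjq
      ext
      omega

theorem mem_P (q : ℤ) : P (V q) (Ioo q (q + (N + 1 : ℕ))) ∈ degreeLT ℝ (N + 1) :=
  P_mem _ _ (by rw [Int.card_Ioo]; push_cast; omega)

/-- The sign of the determinant when the row `q0` is replaced by a later row in which the
cell of the column `N + 1` is moved down. -/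
theorem sgnT (hN : 1 ≤ N) (H : KArr (N + 1) V) (q0 j : Fin N) (hlt : q0 < j) (δ : ℝ)
    (hδ : 0 < δ) (hδ2 : δ < 2 * Real.pi) :
    0 ≤ (-1 : ℝ) ^ ((j : ℕ) + q0 + 1) * rowFn (cm (Mf (N + 1) V) 0 N) q0 (fun l : Fin N =>
      (∏ k ∈ (Ioo (((j : ℕ) : ℤ) + 1) (((j : ℕ) : ℤ) + 1 + ((N + 1 : ℕ) : ℤ))).erase ((N : ℤ) + 1),
        Real.sin ((nd (N + 1) V l - V ((j : ℕ) + 1) k) / 2)) *
      Real.sin ((nd (N + 1) V l - (V ((j : ℕ) + 1) (N + 1) - δ)) / 2)) := by
  have hE := E_pos hN H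
  set i : ℤ := ((j : ℕ) : ℤ) + 1 with hi
  have hj := j.2
  have hq0j : (q0 : ℕ) < j := hlt
  have hmem : ((N : ℤ) + 1) ∈ Ioo i (i + ((N + 1 : ℕ) : ℤ)) :=
    Finset.mem_Ioo.2 ⟨by omega, by push_cast; omega⟩
  set h : ℝ[X] →ₗ[ℝ] ℝ := (-sg (((q0 : ℕ) : ℤ) + 1)) • Gf N V q0 with hh
  have happ : ∀ f, h f = -sg (((q0 : ℕ) : ℤ) + 1) * Gf N V q0 f := fun f => rfl
  have hvals : ∀ q : ℤ, 0 ≤ q → q ≤ N → sg q * h (P (V q) (Ioo q (q + (N + 1 : ℕ)))) =
      if q = ((q0 : ℕ) : ℤ) + 1 then -dm (Mf (N + 1) V) 0 N else 0 := by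
    intro q h1 h2
    have h3 := Gf_vals H.per q0 q h1 h2
    rw [happ]
    rw [show sg q * (-sg (((q0 : ℕ) : ℤ) + 1) * Gf N V q0 (P (V q) (Ioo q (q + (N + 1 : ℕ))))) =
      -sg (((q0 : ℕ) : ℤ) + 1) * (sg q * Gf N V q0 (P (V q) (Ioo q (q + (N + 1 : ℕ)))))
      by ring, h3]
    by_cases h4 : q = ((q0 : ℕ) : ℤ) + 1
    · rw [if_pos h4, if_pos h4, h4]
      linear_combination (-dm (Mf (N + 1) V) 0 N) * sg_sq (((q0 : ℕ) : ℤ) + 1)
    · rw [if_neg h4, if_neg h4, mul_zero]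
  have hne : ¬ ∀ f ∈ degreeLT ℝ (N + 1), h f = 0 := by
    intro hz
    have h1 := hvals (((q0 : ℕ) : ℤ) + 1) (by omega) (by omega)
    rw [if_pos rfl, hz _ (mem_P _), mul_zero] at h1
    linarith
  have h0 : h (P (V i) (Ioo i (i + (N + 1 : ℕ)))) = 0 := by
    rw [happ, Gf_other q0 j (by intro h'; rw [h'] at hq0j; omega), mul_zero]
  have hpp := pp_all (N + 1) (by omega) V H h hne i h0 (by
    intro q hq
    rw [Finset.mem_Ioo] at hq
    push_cast at hq
    by_cases h1 : q ≤ N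
    · rw [hvals q (by omega) h1, if_neg (by omega)]
    · have h2 := hvals (q - (N + 1 : ℕ)) (by push_cast; omega) (by push_cast; omega)
      have h3 := sg_turn H.per h (q - (N + 1 : ℕ))
      rw [sub_add_cancel] at h2 h3
      rw [h2] at h3
      rw [h3]
      split_ifs
      · linarith
      · simp) ((N : ℤ) + 1) hmem
  have h1 := g_erase h (V i) hmem h0 (V i (N + 1) - δ)
  have h2 : 0 < sg i * h (S (V i (N + 1) - δ) * P (V i) ((Ioo i (i + (N + 1 : ℕ))).erase
      ((N : ℤ) + 1))) := by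
    rw [h1, show V i (N + 1) - (V i (N + 1) - δ) = δ by ring]
    have h3 := sin_pos_of hδ hδ2
    unfold tau at hpp
    have := mul_pos h3 hpp
    linarith
  rw [mul_comm (S _), happ, Gf_apply] at h2
  have h4 : (fun l : Fin N => ev N (nd (N + 1) V l) (P (V i) ((Ioo i (i + (N + 1 : ℕ))).erase
      ((N : ℤ) + 1)) * S (V i (N + 1) - δ))) = fun l : Fin N =>
      (∏ k ∈ (Ioo i (i + ((N + 1 : ℕ) : ℤ))).erase ((N : ℤ) + 1),
        Real.sin ((nd (N + 1) V l - V i k) / 2)) *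
      Real.sin ((nd (N + 1) V l - (V i (N + 1) - δ)) / 2) := by
    funext l
    rw [ev_erase i _ hmem]
  rw [h4] at h2
  have h5 : (-1 : ℝ) ^ ((j : ℕ) + q0 + 1) = -(sg i * sg (((q0 : ℕ) : ℤ) + 1)) := by
    rw [← sg_nat, hi]
    push_cast
    simp only [sg_add]
    have : sg 1 = -1 := by unfold sg; norm_num
    rw [this]
    ring
  rw [h5]
  linarith

/-- the segment between two arrays -/
theorem seg_karr {n : ℕ} {V V' : ℤ → ℤ → ℝ} (H : KArr n V) (H' : KArr n V') {s : ℝ} (h0 : 0 ≤ s)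
    (h1 : s ≤ 1) : KArr n (fun q k => (1 - s) * V q k + s * V' q k) where
  per i j := by
    rw [H.per, H'.per]
    ring
  row i j h2 h3 := by
    have h4 := H.row i j h2 h3
    have h5 := H'.row i j h2 h3
    rcases eq_or_lt_of_le h0 with h6 | h6
    · rw [← h6]; linarith
    · nlinarith [mul_pos h6 (sub_pos.2 h5), mul_nonneg (sub_nonneg.2 h1) (sub_pos.2 h4).le]
  col i j h2 h3 := by
    have h4 := H.col i j h2 h3
    have h5 := H'.col i j h2 h3
    rcases eq_or_lt_of_le h0 with h6 | h6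
    · rw [← h6]; linarith
    · nlinarith [mul_pos h6 (sub_pos.2 h5), mul_nonneg (sub_nonneg.2 h1) (sub_pos.2 h4).le]
  diag i := by
    have h4 := H.diag i
    have h5 := H'.diag i
    rcases eq_or_lt_of_le h0 with h6 | h6
    · rw [← h6]; linarith
    · nlinarith [mul_pos h6 (sub_pos.2 h5), mul_nonneg (sub_nonneg.2 h1) (sub_pos.2 h4).le]

/-- the derivative of a functional along a moving row -/
theorem deriv_row (Λ : (Fin N → ℝ) →ₗ[ℝ] ℝ) (x δ : ℤ → ℝ) (L : Finset ℤ) (y : Fin N → ℝ)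
    (s : ℝ) :
    HasDerivAt (fun s : ℝ => Λ (fun l => ∏ k ∈ L, Real.sin ((y l - (x k + s * δ k)) / 2)))
      (∑ k ∈ L, (-(δ k) / 2) * Λ (fun l => (∏ k' ∈ L.erase k,
        Real.sin ((y l - (x k' + s * δ k')) / 2)) * Real.cos ((y l - (x k + s * δ k)) / 2))) s := by
  have h1 : HasDerivAt (fun s : ℝ => fun l : Fin N =>
      ∏ k ∈ L, Real.sin ((y l - (x k + s * δ k)) / 2))
      (fun l : Fin N => ∑ k ∈ L, (∏ k' ∈ L.erase k, Real.sin ((y l - (x k' + s * δ k')) / 2)) •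
        (Real.cos ((y l - (x k + s * δ k)) / 2) * (-(δ k) / 2))) s := by
    rw [hasDerivAt_pi]
    intro l
    refine HasDerivAt.fun_finsetProd fun k _ => ?_
    have h2 : HasDerivAt (fun s : ℝ => (y l - (x k + s * δ k)) / 2) (-(δ k) / 2) s := by
      have h3 := ((hasDerivAt_id s).mul_const (δ k)).const_add (x k)
      have h4 := (h3.const_sub (y l)).div_const 2
      simpa using h4
    exact (Real.hasDerivAt_sin _).comp s h2
  have h2 := (LinearMap.toContinuousLinearMap Λ).hasFDerivAt.comp_hasDerivAt s h1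
  refine h2.congr_deriv ?_
  rw [LinearMap.coe_toContinuousLinearMap']
  have h3 : (fun l : Fin N => ∑ k ∈ L, (∏ k' ∈ L.erase k,
      Real.sin ((y l - (x k' + s * δ k')) / 2)) •
        (Real.cos ((y l - (x k + s * δ k)) / 2) * (-(δ k) / 2))) =
      ∑ k ∈ L, (-(δ k) / 2) • (fun l : Fin N => (∏ k' ∈ L.erase k,
        Real.sin ((y l - (x k' + s * δ k')) / 2)) * Real.cos ((y l - (x k + s * δ k)) / 2)) := by
    funext l
    rw [Finset.sum_apply]
    refine Finset.sum_congr rfl fun k _ => ?_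
    simp only [Pi.smul_apply, smul_eq_mul]
    ring
  rw [h3, map_sum]
  refine Finset.sum_congr rfl fun k _ => ?_
  rw [map_smul, smul_eq_mul]

/-- The sign of the determinant when the row `j + 1` is replaced by the row `i ≤ j` with
some cells moved up. -/
theorem sgnC (hN : 1 ≤ N) {V' : ℤ → ℤ → ℝ} (H : KArr (N + 1) V) (H' : KArr (N + 1) V')
    (i : ℕ) (j : Fin N) (hij : i ≤ j)
    (heq : ∀ q k : ℤ, ¬ (((N + 1 : ℕ) : ℤ) ∣ q - i) → V' q k = V q k)
    (hle : ∀ k : ℤ, (i : ℤ) < k → k < i + (N + 1 : ℕ) → V i k ≤ V' i k) :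
    0 ≤ (-1 : ℝ) ^ ((j : ℕ) + i) * rowFn (cm (Mf (N + 1) V) 0 N) j
      (fun l : Fin N => Rv (N + 1) V' i (nd (N + 1) V l)) := by
  have hE := E_pos hN H
  have hj := j.2
  have hij' : i ≤ (j : ℕ) := hij
  set h : ℝ[X] →ₗ[ℝ] ℝ := (sg (((j : ℕ) : ℤ) + 1)) • Gf N V j with hh
  have happ : ∀ f, h f = sg (((j : ℕ) : ℤ) + 1) * Gf N V j f := fun f => rfl
  have hvals : ∀ q : ℤ, 0 ≤ q → q ≤ N → sg q * h (P (V q) (Ioo q (q + (N + 1 : ℕ)))) =
      if q = ((j : ℕ) : ℤ) + 1 then dm (Mf (N + 1) V) 0 N else 0 := by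
    intro q h1 h2
    have h3 := Gf_vals H.per j q h1 h2
    rw [happ]
    rw [show sg q * (sg (((j : ℕ) : ℤ) + 1) * Gf N V j (P (V q) (Ioo q (q + (N + 1 : ℕ))))) =
      sg (((j : ℕ) : ℤ) + 1) * (sg q * Gf N V j (P (V q) (Ioo q (q + (N + 1 : ℕ)))))
      by ring, h3]
    by_cases h4 : q = ((j : ℕ) : ℤ) + 1
    · rw [if_pos h4, if_pos h4, h4]
      linear_combination (dm (Mf (N + 1) V) 0 N) * sg_sq (((j : ℕ) : ℤ) + 1)
    · rw [if_neg h4, if_neg h4, mul_zero]
  have hne : ¬ ∀ f ∈ degreeLT ℝ (N + 1), h f = 0 := by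
    intro hz
    have h1 := hvals (((j : ℕ) : ℤ) + 1) (by omega) (by omega)
    rw [if_pos rfl, hz _ (mem_P _), mul_zero] at h1
    linarith
  have hi0 : h (P (V i) (Ioo (i : ℤ) (i + (N + 1 : ℕ)))) = 0 := by
    have h1 := hvals i (by omega) (by omega)
    rw [if_neg (by omega)] at h1
    rcases mul_eq_zero.1 h1 with h2 | h2
    · have := sg_sq (i : ℤ)
      rw [h2] at this
      norm_num at this
    · exact h2
  -- the moving row
  set δ : ℤ → ℝ := fun k => V' i k - V i k with hδ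
  set I : Finset ℤ := Ioo (i : ℤ) (i + ((N + 1 : ℕ) : ℤ)) with hI
  have hδ0 : ∀ k ∈ I, 0 ≤ δ k := by
    intro k hk
    rw [hI, Finset.mem_Ioo] at hk
    exact sub_nonneg.2 (hle k hk.1 hk.2)
  set Λ : (Fin N → ℝ) →ₗ[ℝ] ℝ := (sg (i : ℤ) * sg (((j : ℕ) : ℤ) + 1)) •
    rowFn (cm (Mf (N + 1) V) 0 N) j with hΛ
  set φ : ℝ → ℝ := fun s => Λ (fun l => ∏ k ∈ I,
    Real.sin ((nd (N + 1) V l - (V i k + s * δ k)) / 2)) with hφ
  have hφh : ∀ s : ℝ, φ s = sg (i : ℤ) * h (P (fun k => V i k + s * δ k) I) := by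
    intro s
    have hc : I.card = N := by
      rw [hI, Int.card_Ioo]; push_cast; omega
    have h1 : (fun l : Fin N => ev N (nd (N + 1) V l) (P (fun k => V i k + s * δ k) I)) =
        fun l : Fin N => ∏ k ∈ I, Real.sin ((nd (N + 1) V l - (V i k + s * δ k)) / 2) := by
      funext l
      have := ev_P (nd (N + 1) V l) (fun k => V i k + s * δ k) I
      rw [hc] at this
      exact this
    rw [happ, Gf_apply, h1, hφ]
    simp only
    rw [hΛ, LinearMap.smul_apply, smul_eq_mul]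
    ring
  have hφ1 : φ 1 = sg (i : ℤ) * sg (((j : ℕ) : ℤ) + 1) * rowFn (cm (Mf (N + 1) V) 0 N) j
      (fun l : Fin N => Rv (N + 1) V' i (nd (N + 1) V l)) := by
    rw [hφ]
    simp only
    rw [hΛ, LinearMap.smul_apply, smul_eq_mul]
    congr 2
    funext l
    unfold Rv
    refine Finset.prod_congr rfl fun k _ => ?_
    rw [hδ]
    congr 2
    ring
  have hφ0 : φ 0 = 0 := by
    rw [hφh 0]
    have : (fun k : ℤ => V i k + 0 * δ k) = V i := by
      funext k; ring
    rw [this, hI, hi0, mul_zero]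
  have hsgn : (-1 : ℝ) ^ ((j : ℕ) + i) = -(sg (i : ℤ) * sg (((j : ℕ) : ℤ) + 1)) := by
    rw [← sg_nat]
    push_cast
    simp only [sg_add]
    have : sg 1 = -1 := by unfold sg; norm_num
    rw [this]
    ring
  have hgoal : φ 1 ≤ 0 := by
    by_cases hall : ∀ k ∈ I, δ k = 0
    · have h1 : φ 1 = φ 0 := by
        rw [hφ]
        simp only
        congr 1
        funext l
        refine Finset.prod_congr rfl fun k hk => ?_
        rw [hall k hk]
        congr 2
        ring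
      rw [h1, hφ0]
    · push Not at hall
      obtain ⟨k0, hk0, hk0'⟩ := hall
      have hk0'' : 0 < δ k0 := lt_of_le_of_ne (hδ0 k0 hk0) (Ne.symm hk0')
      have hder := fun s : ℝ => deriv_row Λ (V i) δ I (fun l => nd (N + 1) V l) s
      refine image_le_of_deriv_right_lt_deriv_boundary (f := φ) (a := 0) (b := 1)
        (fun s _ => (hder s).continuousAt.continuousWithinAt)
        (fun s _ => (hder s).hasDerivWithinAt) (B := fun _ => 0) (B' := fun _ => 0)
        hφ0.le (fun x => hasDerivAt_const x 0) ?_ (Set.right_mem_Icc.2 zero_le_one)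
      intro s hs hzero
      rw [Set.mem_Ico] at hs
      -- the array at time s
      set U : ℤ → ℤ → ℝ := fun q k => (1 - s) * V q k + s * V' q k with hU
      have HU : KArr (N + 1) U := seg_karr H H' hs.1 hs.2.le
      have hUi : U i = fun k => V i k + s * δ k := by
        funext k
        rw [hU, hδ]
        ring
      have hUq : ∀ q : ℤ, ¬ (((N + 1 : ℕ) : ℤ) ∣ q - i) → U q = V q := by
        intro q hq
        funext k
        rw [hU]
        simp only
        rw [heq q k hq]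
        ring
      have hzi : h (P (U i) (Ioo (i : ℤ) (i + (N + 1 : ℕ)))) = 0 := by
        rw [hUi]
        have h1 := hφh s
        rw [hzero] at h1
        have h2 := sg_sq (i : ℤ)
        have h3 : h (P (fun k => V i k + s * δ k) I) =
            sg (i : ℤ) * (sg (i : ℤ) * h (P (fun k => V i k + s * δ k) I)) := by
          linear_combination (-h (P (fun k => V i k + s * δ k) I)) * h2
        rw [← hI, h3, ← h1, mul_zero]
      have hpp := pp_all (N + 1) (by omega) U HU h hne i hzi (by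
        intro q hq
        rw [Finset.mem_Ioo] at hq
        push_cast at hq
        have hnd : ¬ (((N + 1 : ℕ) : ℤ) ∣ q - i) := by
          intro hd
          have := Int.le_of_dvd (by omega) hd
          push_cast at this
          omega
        rw [hUq q hnd]
        by_cases h1 : q ≤ N
        · rw [hvals q (by omega) h1]
          split_ifs
          · exact hE.le
          · exact le_refl _
        · have h2 := hvals (q - (N + 1 : ℕ)) (by push_cast; omega) (by push_cast; omega)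
          have h3 := sg_turn H.per h (q - (N + 1 : ℕ))
          rw [sub_add_cancel] at h2 h3
          rw [h2, if_neg (by push_cast; omega)] at h3
          rw [h3, neg_zero])
      refine Finset.sum_neg' ?_ ⟨k0, hk0, ?_⟩
      · intro k hk
        have h1 := hpp k hk
        unfold tau at h1
        rw [happ, Gf_apply] at h1
        have h2 : (fun l : Fin N => ev N (nd (N + 1) V l) (P (U i) ((Ioo (i : ℤ)
            (i + (N + 1 : ℕ))).erase k) * K (U i k))) = fun l : Fin N =>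
            (∏ k' ∈ I.erase k, Real.sin ((nd (N + 1) V l - (V i k' + s * δ k')) / 2)) *
              Real.cos ((nd (N + 1) V l - (V i k + s * δ k)) / 2) := by
          funext l
          rw [ev_eraseK (V := U) (i : ℤ) k hk]
          simp only [hUi]
          rfl
        rw [h2] at h1
        have h3 := hδ0 k hk
        rw [hΛ, LinearMap.smul_apply, smul_eq_mul]
        nlinarith
      · have h1 := hpp k0 hk0
        unfold tau at h1
        rw [happ, Gf_apply] at h1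
        have h2 : (fun l : Fin N => ev N (nd (N + 1) V l) (P (U i) ((Ioo (i : ℤ)
            (i + (N + 1 : ℕ))).erase k0) * K (U i k0))) = fun l : Fin N =>
            (∏ k' ∈ I.erase k0, Real.sin ((nd (N + 1) V l - (V i k' + s * δ k')) / 2)) *
              Real.cos ((nd (N + 1) V l - (V i k0 + s * δ k0)) / 2) := by
          funext l
          rw [ev_eraseK (V := U) (i : ℤ) k0 hk0]
          simp only [hUi]
          rfl
        rw [h2] at h1
        rw [hΛ, LinearMap.smul_apply, smul_eq_mul]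
        nlinarith
  rw [hφ1] at hgoal
  rw [hsgn]
  linarith

end Pool.Agent.H65.AS
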