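import Pool.Agent.H65.AS.Cfg

/-!
# Monotonicity of the normalised determinant in the configuration
-/

set_option autoImplicit false

namespace Pool.Agent.H65.AS

open Finset Polynomial
open Pool.Agent.H40.Atiyah (phi psi KArr KArr.del phi_add phi_mono phi_dom del_zero)
open Pool.Agent.Results.MP_1fedf0_gt.CollinearPlusOne
open Pool.Agent.H64.CC (lft lft_mem prod_lft)

/-- the normalised determinant -/
noncomputable def FF {n : ℕ} (v : Fin n → Fin n → ℂ × ℂ) : ℝ :=
  ‖cdet v‖ / ∏ i, ∏ j ∈ Finset.Ioi i, ‖br (v i j) (v j i)‖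

theorem WArr.del {N : ℕ} (hN : 2 ≤ N) {u : ℤ → ℤ → ℝ} (H : WArr (N + 1) u) :
    WArr N (fun a b => u (phi N a) (phi N b)) where
  per a b := by
    rw [phi_add N (by omega), phi_add N (by omega)]
    exact H.per _ _
  row a b h1 h2 := by
    obtain ⟨h3, h4⟩ := phi_dom N (by omega) a b h1 (by omega)
    obtain ⟨h5, h6⟩ := phi_dom N (by omega) a (b + 1) (by omega) h2
    have h7 := phi_mono N (by omega) (show b < b + 1 by omega)
    exact H.le (by omega) (le_refl _) h7.le h3 h4 h5 h6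
  col a b h1 h2 := by
    obtain ⟨h3, h4⟩ := phi_dom N (by omega) a b (by omega) h2
    obtain ⟨h5, h6⟩ := phi_dom N (by omega) (a + 1) b h1 (by omega)
    have h7 := phi_mono N (by omega) (show a < a + 1 by omega)
    exact H.le (by omega) h7.le (le_refl _) h3 h4 h5 h6
  diag a := by
    obtain ⟨h3, h4⟩ := phi_dom N (by omega) a (a + 1) (by omega) (by omega)
    obtain ⟨h5, h6⟩ := phi_dom N (by omega) (a + 1) (a + 2) (by omega) (by omega)
    have h7 := phi_mono N (by omega) (show a < a + 1 by omega)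
    have h8 := phi_mono N (by omega) (show a + 1 < a + 2 by omega)
    exact H.le (by omega) h7.le h8.le h3 h4 h5 h6

/-- an enumeration that starts with `v` -/
theorem exists_start {N : ℕ} {p : Fin (N + 1) → Fin (N + 1) → Fin 3 → ℝ}
    {σ : Equiv.Perm (Fin (N + 1))} {u : ℤ → ℤ → ℝ} {e1 e2 : ℂ × ℂ} (h : Geo p σ u e1 e2)
    (v : Fin (N + 1)) : ∃ (σ' : Equiv.Perm (Fin (N + 1))) (u' : ℤ → ℤ → ℝ)
      (τ : Equiv.Perm (Fin N)), Geo p σ' u' e1 e2 ∧ σ' 0 = v ∧
        ∀ a : Fin N, v.succAbove (τ a) = σ' a.succ := by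
  obtain ⟨σ', hσ'⟩ : ∃ σ' : Equiv.Perm (Fin (N + 1)),
      σ' = (Equiv.addRight (σ.symm v)).trans σ := ⟨_, rfl⟩
  have hg' := h.rot (σ.symm v)
  rw [← hσ'] at hg'
  have hv : σ' 0 = v := by
    rw [hσ', Equiv.trans_apply, Equiv.coe_addRight]
    beta_reduce
    rw [zero_add, Equiv.apply_symm_apply]
  have hex : ∀ a : Fin N, ∃ b : Fin N, v.succAbove b = σ' a.succ := by
    intro a
    apply Fin.exists_succAbove_eq
    intro h
    rw [← hv] at h
    exact Fin.succ_ne_zero a (σ'.injective h)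
  choose τ0 hτ0 using hex
  have hinj0 : Function.Injective τ0 := by
    intro a b hab
    have h1 : σ' a.succ = σ' b.succ := by rw [← hτ0 a, ← hτ0 b, hab]
    exact Fin.succ_injective _ (σ'.injective h1)
  exact ⟨σ', _, Equiv.ofBijective τ0 (Finite.injective_iff_bijective.1 hinj0), hg', hv, hτ0⟩

/-- splitting the pairs -/
theorem pairs_split {N : ℕ} (g : Fin (N + 1) → Fin (N + 1) → ℝ) (hg : ∀ i j, 0 ≤ g i j)
    (hs : ∀ i j, g i j = g j i) (σ' : Equiv.Perm (Fin (N + 1))) (v : Fin (N + 1))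
    (τ : Equiv.Perm (Fin N)) (hτ : ∀ a : Fin N, v.succAbove (τ a) = σ' a.succ) :
    ∏ i, ∏ j ∈ Finset.Ioi i, g i j =
      (∏ b : Fin N, g (σ' 0) (σ' b.succ)) *
        ∏ i, ∏ j ∈ Finset.Ioi i, g (v.succAbove i) (v.succAbove j) := by
  rw [← pairs_perm g hg hs σ', Fin.prod_univ_succ, Fin.prod_Ioi_zero]
  congr 1
  rw [← pairs_perm (fun i j => g (v.succAbove i) (v.succAbove j)) (fun i j => hg _ _)
    (fun i j => hs _ _) τ]
  refine Finset.prod_congr rfl fun a _ => ?_
  rw [Fin.prod_Ioi_succ]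
  refine Finset.prod_congr rfl fun b _ => ?_
  rw [hτ, hτ]

theorem br_anti (v w : ℂ × ℂ) : br v w = -br w v := by
  unfold br
  ring

theorem geo_del {N : ℕ} (hN : 2 ≤ N) {p : Fin (N + 1) → Fin (N + 1) → Fin 3 → ℝ}
    {σ : Equiv.Perm (Fin (N + 1))} {u : ℤ → ℤ → ℝ} {e1 e2 : ℂ × ℂ} (h : Geo p σ u e1 e2)
    (hnz : ∀ i j, i ≠ j → br (spin (p i j)) (spin (p j i)) ≠ 0) (v : Fin (N + 1)) :
    (∃ (σ' : Equiv.Perm (Fin N)) (u' : ℤ → ℤ → ℝ),
      Geo (fun i j => p (v.succAbove i) (v.succAbove j)) σ' u' e1 e2) ∧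
    FF (fun i j : Fin N => spin (p (v.succAbove i) (v.succAbove j))) ≤
      FF (fun i j => spin (p i j)) := by
  obtain ⟨σ', u', τ, hg, -, hτ⟩ := exists_start h v
  refine ⟨⟨τ, fun a b => u' (phi N a) (phi N b), hg.1.del hN, hg.2.1, fun a b hab => ?_⟩, ?_⟩
  · obtain ⟨c, hc, h3⟩ := hg.2.2 a.succ b.succ (fun h' => hab (Fin.succ_injective _ h'))
    refine ⟨c, hc, ?_⟩
    beta_reduce
    rw [hτ, hτ, h3, lft_succ a b, phi_small (N := N) ((a : ℕ) : ℤ) (by omega)
      (by have := a.2; omega), Fin.val_succ]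
    push_cast
    rfl
  · have h1 := cfg_mono (by omega) hg
    rw [cdet_perm (fun i j => spin (p i j)) σ'] at h1
    have h2 : ‖cdet (fun a b : Fin N => spin (p (σ' a.succ) (σ' b.succ)))‖ =
        ‖cdet (fun i j : Fin N => spin (p (v.succAbove i) (v.succAbove j)))‖ := by
      rw [← cdet_perm (fun i j : Fin N => spin (p (v.succAbove i) (v.succAbove j))) τ]
      simp only [hτ]
    rw [h2] at h1
    have h3 := pairs_split (fun i j => ‖br (spin (p i j)) (spin (p j i))‖)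
      (fun i j => norm_nonneg _) (fun i j => by rw [br_anti, norm_neg]) σ' v τ hτ
    have h4 : 0 < ∏ b : Fin N, ‖br (spin (p (σ' 0) (σ' b.succ))) (spin (p (σ' b.succ) (σ' 0)))‖ :=
      Finset.prod_pos fun b _ => norm_pos_iff.2 (hnz _ _
        (fun h => Fin.succ_ne_zero b (σ'.injective h).symm))
    have h5 : 0 < ∏ i : Fin N, ∏ j ∈ Finset.Ioi i,
        ‖br (spin (p (v.succAbove i) (v.succAbove j))) (spin (p (v.succAbove j) (v.succAbove i)))‖ :=
      Finset.prod_pos fun i _ => Finset.prod_pos fun j hj => norm_pos_iff.2 (hnz _ _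
        (fun h => (Finset.mem_Ioi.1 hj).ne (Fin.succAbove_right_injective h)))
    unfold FF
    simp only at h3 ⊢
    rw [h3, div_le_div_iff₀ h5 (mul_pos h4 h5)]
    have h6 := mul_le_mul_of_nonneg_right h1 h5.le
    refine le_trans (le_of_eq ?_) h6
    ring

theorem FF_one_le {n : ℕ} (hn : 2 ≤ n) {p : Fin n → Fin n → Fin 3 → ℝ}
    {σ : Equiv.Perm (Fin n)} {u : ℤ → ℤ → ℝ} {e1 e2 : ℂ × ℂ} (h : Geo p σ u e1 e2)
    (hnz : ∀ i j, i ≠ j → br (spin (p i j)) (spin (p j i)) ≠ 0) :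
    1 ≤ FF (fun i j => spin (p i j)) := by
  have h1 := cfg_pairs hn h
  rw [cdet_perm (fun i j => spin (p i j)) σ] at h1
  rw [pairs_perm (fun i j => ‖br (spin (p i j)) (spin (p j i))‖)
      (fun i j => norm_nonneg _) (fun i j => by rw [br_anti, norm_neg]) σ] at h1
  unfold FF
  rw [le_div_iff₀, one_mul]
  · exact h1
  · exact Finset.prod_pos fun i _ => Finset.prod_pos fun j hj => norm_pos_iff.2 (hnz _ _
        (fun h => (Finset.mem_Ioi.1 hj).ne h))

theorem FF_perm {n : ℕ} (v : Fin n → Fin n → ℂ × ℂ) (σ : Equiv.Perm (Fin n)) :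
    FF (fun i j => v (σ i) (σ j)) = FF v := by
  unfold FF
  rw [cdet_perm v σ]
  congr 1
  exact pairs_perm (fun i j => ‖br (v i j) (v j i)‖)
    (fun i j => norm_nonneg _) (fun i j => by rw [br_anti, norm_neg]) σ

theorem FF_sub : ∀ n : ℕ, 2 ≤ n → ∀ (p : Fin n → Fin n → Fin 3 → ℝ)
    (σ : Equiv.Perm (Fin n)) (u : ℤ → ℤ → ℝ) (e1 e2 : ℂ × ℂ), Geo p σ u e1 e2 →
    (∀ i j, i ≠ j → br (spin (p i j)) (spin (p j i)) ≠ 0) →
    ∀ m : ℕ, 2 ≤ m → ∀ ι : Fin m → Fin n, Function.Injective ι →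
      FF (fun i j => spin (p (ι i) (ι j))) ≤ FF (fun i j => spin (p i j)) := by
  intro n hn
  induction n, hn using Nat.le_induction with
  | base =>
    intro p σ u e1 e2 _ _ m hm ι hι
    have h1 : m = 2 := le_antisymm (by simpa using Fintype.card_le_of_injective ι hι) hm
    subst h1
    obtain ⟨τ, hτ⟩ : ∃ τ : Equiv.Perm (Fin 2), ∀ a, τ a = ι a :=
      ⟨Equiv.ofBijective ι (Finite.injective_iff_bijective.1 hι), fun a => rfl⟩
    simp only [← hτ]
    exact (FF_perm (fun i j => spin (p i j)) τ).le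
  | succ N hN ih =>
    intro p σ u e1 e2 hg hnz m hm ι hι
    by_cases hs : Function.Surjective ι
    · have h1 : m = N + 1 := by
        have := Fintype.card_of_bijective (f := ι) ⟨hι, hs⟩
        simpa using this
      subst h1
      obtain ⟨τ, hτ⟩ : ∃ τ : Equiv.Perm (Fin (N + 1)), ∀ a, τ a = ι a :=
        ⟨Equiv.ofBijective ι ⟨hι, hs⟩, fun a => rfl⟩
      simp only [← hτ]
      exact (FF_perm (fun i j => spin (p i j)) τ).le
    · unfold Function.Surjective at hs
      push Not at hs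
      obtain ⟨v, hv⟩ := hs
      obtain ⟨⟨σ', u', hg'⟩, hle⟩ := geo_del hN hg hnz v
      have hex : ∀ a : Fin m, ∃ b : Fin N, v.succAbove b = ι a := fun a =>
        Fin.exists_succAbove_eq (hv a)
      choose ι' hι' using hex
      have hinj' : Function.Injective ι' := by
        intro a b hab
        apply hι
        rw [← hι' a, ← hι' b, hab]
      have h1 := ih _ σ' u' e1 e2 hg' (fun i j hij => hnz _ _
        (fun h => hij (Fin.succAbove_right_injective h))) m hm ι' hinj'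
      simp only [hι'] at h1
      exact h1.trans hle

end Pool.Agent.H65.AS
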