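import Pool.Agent.H65.AS.Lad

/-!
# Ladder arrays are triangular
-/

set_option autoImplicit false

namespace Pool.Agent.H65.AS

open Finset Polynomial Pool.Agent.H40.Atiyah

variable {M r : ℕ} {Z : ℤ → ℤ → ℝ}

theorem nd_lad (hper : ∀ i j : ℤ, Z (i + (M + 1 : ℕ)) (j + (M + 1 : ℕ)) = Z i j + 2 * Real.pi)
    (l : ℕ) (hl : l < M) : nd (M + 1) (lad (M + 1) r Z) l = nd (M + 1) Z l := by
  rw [nd_eq (lad_per (by omega) Z), nd_eq hper, lad_base Z 0 _ (le_refl _) (by push_cast; omega)]
  have : lr (M + 1) r 0 ((l : ℤ) + 1) = 0 := by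
    unfold lr
    rw [if_pos (by omega), if_pos (by push_cast; omega)]
  rw [this]

theorem lad_row (q k : ℤ) (h1 : (r : ℤ) < q) (h2 : q < (M + 1 : ℕ)) :
    lad (M + 1) r Z q k = Z q k := by
  rw [lad_base Z q k (by omega) h2]
  have : lr (M + 1) r q k = q := by
    unfold lr
    rw [if_neg (by omega)]
  rw [this]

theorem lad_zero (hper : ∀ i j : ℤ, Z (i + (M + 1 : ℕ)) (j + (M + 1 : ℕ)) = Z i j + 2 * Real.pi)
    (hr : r + 2 ≤ M + 1) (i j : ℕ) (hi : i < r) (hij : i < j) (hj : j < M) :
    Mf (M + 1) (lad (M + 1) r Z) i j = 0 := by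
  unfold Mf Rv
  refine Finset.prod_eq_zero (i := ((j : ℤ) + 1))
    (Finset.mem_Ioo.2 ⟨by omega, by push_cast; omega⟩) ?_
  rw [nd_lad hper j hj, nd_eq hper, lad_base Z _ _ (by omega) (by push_cast; omega)]
  have : lr (M + 1) r ((i : ℤ) + 1) ((j : ℤ) + 1) = 0 := by
    unfold lr
    rw [if_pos (by omega), if_pos (by push_cast; omega)]
  rw [this, show (Z 0 ((j : ℤ) + 1) + 2 * Real.pi - Z 0 ((j : ℤ) + 1)) / 2 = Real.pi by ring,
    Real.sin_pi]

theorem lad_diag (H : KArr (M + 1) Z) (hr : r + 2 ≤ M + 1) (i : ℕ) (hi : i < r) :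
    0 < Mf (M + 1) (lad (M + 1) r Z) i i := by
  unfold Mf Rv
  refine Finset.prod_pos fun k hk => ?_
  rw [Finset.mem_Ioo] at hk
  push_cast at hk
  obtain ⟨hk1, hk2⟩ := hk
  rw [nd_lad H.per i (by omega), nd_eq H.per, lad_base Z _ _ (by omega) (by push_cast; omega)]
  by_cases hkn : k < ((M + 1 : ℕ) : ℤ)
  · have : lr (M + 1) r ((i : ℤ) + 1) k = 0 := by
      unfold lr
      rw [if_pos (by omega), if_pos hkn]
    rw [this]
    push_cast at hkn
    have h1 := H.lt (by omega) (i := 0) (j := (i : ℤ) + 1) (i' := 0) (j' := k) (le_refl _)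
      (by omega) (by omega) (by push_cast; omega) (by omega) (by push_cast; omega)
      (Or.inr (by omega))
    have h2 := H.lt_add (by omega) (i := 0) (j := (i : ℤ) + 1) (i' := 0) (j' := k)
      (by push_cast; omega) (by push_cast; omega) (by omega) (by push_cast; omega) (by omega)
      (by push_cast; omega) (Or.inl (by push_cast; omega))
    exact sin_pos_of (by linarith) (by linarith)
  · have : lr (M + 1) r ((i : ℤ) + 1) k = k - ((M + 1 : ℕ) : ℤ) + 1 := by
      unfold lr
      rw [if_pos (by omega), if_neg hkn]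
    rw [this]
    push_cast at hkn
    have h1 := H.lt (by omega) (i := 0) (j := (i : ℤ) + 1) (i' := k - ((M + 1 : ℕ) : ℤ) + 1)
      (j' := k) (by push_cast; omega) (by omega) (by omega) (by push_cast; omega)
      (by push_cast; omega) (by push_cast; omega) (Or.inr (by omega))
    have h2 := H.lt_add (by omega) (i := 0) (j := (i : ℤ) + 1) (i' := k - ((M + 1 : ℕ) : ℤ) + 1)
      (j' := k) (by push_cast; omega) (by push_cast; omega) (by omega) (by push_cast; omega)
      (by push_cast; omega) (by push_cast; omega) (Or.inl (by push_cast; omega))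
    exact sin_pos_of (by linarith) (by linarith)

/-- the determinant with one of the last rows replaced -/
theorem tri_up (H : KArr (M + 1) Z) (hr : r + 2 ≤ M + 1) (j : ℕ) (hj : r ≤ j)
    (v : ℕ → ℝ) :
    dm (Function.update (Mf (M + 1) (lad (M + 1) r Z)) j v) 0 M =
      (∏ i ∈ range r, Mf (M + 1) (lad (M + 1) r Z) i i) *
        dm (Function.update (Mf (M + 1) Z) j v) r (M - r) := by
  have h := dm_tri (Function.update (Mf (M + 1) (lad (M + 1) r Z)) j v) (M - r) r 0 (by
    intro i l _ h2 h3 h4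
    rw [Function.update_of_ne (by omega)]
    exact lad_zero H.per hr i l (by omega) h3 (by omega))
  rw [show r + (M - r) = M by omega] at h
  rw [h]
  congr 1
  · refine Finset.prod_congr rfl fun i hi => ?_
    rw [Finset.mem_range] at hi
    rw [zero_add, Function.update_of_ne (by omega)]
  · rw [zero_add]
    refine dm_congr fun i l h1 h2 h3 h4 => ?_
    by_cases hij : i = j
    · rw [hij, Function.update_self, Function.update_self]
    · rw [Function.update_of_ne hij, Function.update_of_ne hij]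
      unfold Mf Rv
      rw [nd_lad H.per l (by omega)]
      refine Finset.prod_congr rfl fun k _ => ?_
      rw [lad_row _ _ (by omega) (by push_cast; omega)]

theorem tri (H : KArr (M + 1) Z) (hr : r + 2 ≤ M + 1) :
    dm (Mf (M + 1) (lad (M + 1) r Z)) 0 M =
      (∏ i ∈ range r, Mf (M + 1) (lad (M + 1) r Z) i i) * dm (Mf (M + 1) Z) r (M - r) := by
  have h := tri_up H hr r (le_refl _) (Mf (M + 1) (lad (M + 1) r Z) r)
  rw [Function.update_eq_self] at h
  rw [h]
  congr 1
  refine dm_congr fun i l h1 h2 h3 h4 => ?_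
  by_cases hij : i = r
  · rw [hij, Function.update_self]
    unfold Mf Rv
    rw [nd_lad H.per l (by omega)]
    refine Finset.prod_congr rfl fun k _ => ?_
    rw [lad_row _ _ (by omega) (by push_cast; omega)]
  · rw [Function.update_of_ne hij]

theorem tri_prod_pos (H : KArr (M + 1) Z) (hr : r + 2 ≤ M + 1) :
    0 < ∏ i ∈ range r, Mf (M + 1) (lad (M + 1) r Z) i i :=
  Finset.prod_pos fun i hi => lad_diag H hr i (Finset.mem_range.1 hi)

theorem dm_shift (C : ℕ → ℕ → ℝ) (r m : ℕ) : dm (fun i j => C (i + 1) (j + 1)) r m =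
    dm C (r + 1) m := by
  unfold dm
  congr 1
  ext i j
  rw [cm_apply, cm_apply]
  congr 1 <;> omega

end Pool.Agent.H65.AS
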