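import Pool.Agent.H65.AS.Sgn

/-!
# Weakly monotone arrays: passage to the limit
-/

set_option autoImplicit false

namespace Pool.Agent.H65.AS

open Finset Polynomial Pool.Agent.H40.Atiyah

/-- weakly monotone periodic arrays -/
structure WArr (n : ℕ) (u : ℤ → ℤ → ℝ) : Prop where
  per : ∀ i j : ℤ, u (i + n) (j + n) = u i j + 2 * Real.pi
  row : ∀ i j : ℤ, i < j → j + 1 < i + n → u i j ≤ u i (j + 1)
  col : ∀ i j : ℤ, i + 1 < j → j < i + n → u i j ≤ u (i + 1) j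
  diag : ∀ i : ℤ, u i (i + 1) ≤ u (i + 1) (i + 2)

theorem weak_of {n : ℕ} {u : ℤ → ℤ → ℝ} (H : KArr n u) : WArr n u where
  per := H.per
  row i j h1 h2 := (H.row i j h1 h2).le
  col i j h1 h2 := (H.col i j h1 h2).le
  diag i := (H.diag i).le

/-- a strict array -/
noncomputable def std (n : ℕ) (i j : ℤ) : ℝ := (i + j) * (Real.pi / n)

theorem std_karr (n : ℕ) (hn : 1 ≤ n) : KArr n (std n) := by
  have hn' : (0 : ℝ) < n := by exact_mod_cast hn
  have hc : (0 : ℝ) < Real.pi / n := by positivity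
  constructor
  · intro i j
    unfold std
    push_cast
    field_simp
    ring
  · intro i j _ _
    unfold std
    push_cast
    exact mul_lt_mul_of_pos_right (by linarith) hc
  · intro i j _ _
    unfold std
    push_cast
    exact mul_lt_mul_of_pos_right (by linarith) hc
  · intro i
    unfold std
    push_cast
    exact mul_lt_mul_of_pos_right (by linarith) hc

/-- the segment from a weak array to a strict one -/
noncomputable def mixw (u v : ℤ → ℤ → ℝ) (ε : ℝ) (q k : ℤ) : ℝ := (1 - ε) * u q k + ε * v q k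

theorem mixw_karr {n : ℕ} {u v : ℤ → ℤ → ℝ} (H : WArr n u) (H' : KArr n v) {ε : ℝ} (h0 : 0 < ε)
    (h1 : ε ≤ 1) : KArr n (mixw u v ε) := by
  constructor
  · intro i j
    unfold mixw
    rw [H.per, H'.per]
    ring
  · intro i j h2 h3
    have h4 := H.row i j h2 h3
    have h5 := H'.row i j h2 h3
    unfold mixw
    nlinarith [mul_pos h0 (sub_pos.2 h5), mul_nonneg (sub_nonneg.2 h1) (sub_nonneg.2 h4)]
  · intro i j h2 h3
    have h4 := H.col i j h2 h3
    have h5 := H'.col i j h2 h3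
    unfold mixw
    nlinarith [mul_pos h0 (sub_pos.2 h5), mul_nonneg (sub_nonneg.2 h1) (sub_nonneg.2 h4)]
  · intro i
    have h4 := H.diag i
    have h5 := H'.diag i
    unfold mixw
    nlinarith [mul_pos h0 (sub_pos.2 h5), mul_nonneg (sub_nonneg.2 h1) (sub_nonneg.2 h4)]

theorem mixw_cont (u v : ℤ → ℤ → ℝ) (q k : ℤ) : Continuous fun ε => mixw u v ε q k := by
  unfold mixw
  fun_prop

theorem mixw_zero (u v : ℤ → ℤ → ℝ) : mixw u v 0 = u := by
  funext q k
  unfold mixw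
  ring

theorem cl {f : ℝ → ℝ} (hf : Continuous f) (h : ∀ ε, 0 < ε → ε ≤ 1 → 0 ≤ f ε) : 0 ≤ f 0 := by
  have h1 : Filter.Tendsto f (nhdsWithin 0 (Set.Ioi 0)) (nhds (f 0)) :=
    (hf.tendsto 0).mono_left nhdsWithin_le_nhds
  refine ge_of_tendsto h1 ?_
  have h2 : Set.Ioc (0 : ℝ) 1 ∈ nhdsWithin (0 : ℝ) (Set.Ioi 0) := Ioc_mem_nhdsGT (by norm_num)
  filter_upwards [h2] with ε hε
  exact h ε hε.1 hε.2

theorem WArr.le {n : ℕ} {u : ℤ → ℤ → ℝ} (H : WArr n u) (hn : 2 ≤ n) {i j i' j' : ℤ} (h1 : i ≤ i')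
    (h2 : j ≤ j') (h3 : i < j) (h4 : j < i + n) (h5 : i' < j') (h6 : j' < i' + n) :
    u i j ≤ u i' j' := by
  have h := cl (f := fun ε => mixw u (std n) ε i' j' - mixw u (std n) ε i j)
    ((mixw_cont _ _ _ _).sub (mixw_cont _ _ _ _)) (fun ε h7 h8 => sub_nonneg.2
      ((mixw_karr H (std_karr n (by omega)) h7 h8).le hn h1 h2 h3 h4 h5 h6))
  simp only [mixw_zero] at h
  linarith

theorem cont_rowFn {C : ℝ → ℕ → ℕ → ℝ} (hC : ∀ i j, Continuous fun t => C t i j) (r m : ℕ)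
    (q : Fin m) {v : ℝ → Fin m → ℝ} (hv : ∀ l, Continuous fun t => v t l) :
    Continuous fun t => rowFn (cm (C t) r m) q (v t) := by
  simp only [rowFn_apply]
  refine Continuous.matrix_det (Continuous.matrix_updateRow _ ?_ ?_)
  · exact continuous_matrix fun i j => hC _ _
  · exact continuous_pi hv

variable {N : ℕ} {V : ℤ → ℤ → ℝ}

theorem E_nonneg (hN : 1 ≤ N) (H : WArr (N + 1) V) : 0 ≤ dm (Mf (N + 1) V) 0 N := by
  have h := cl (f := fun ε => dm (Mf (N + 1) (mixw V (std (N + 1)) ε)) 0 N)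
    (cont_dm (fun i j => cont_Mf (mixw_cont _ _) _ _ _) _ _)
    (fun ε h7 h8 => (E_pos hN (mixw_karr H (std_karr (N + 1) (by omega)) h7 h8)).le)
  simp only [mixw_zero] at h
  exact h

theorem cont_nd {A : ℝ → ℤ → ℤ → ℝ} (hA : ∀ i l, Continuous fun t => A t i l) (n l : ℕ) :
    Continuous fun t => nd n (A t) l := hA _ _

theorem sgnTw (hN : 1 ≤ N) (H : WArr (N + 1) V) (q0 j : Fin N) (hlt : q0 < j) (δ : ℝ)
    (hδ : 0 < δ) (hδ2 : δ < 2 * Real.pi) :
    0 ≤ (-1 : ℝ) ^ ((j : ℕ) + q0 + 1) * rowFn (cm (Mf (N + 1) V) 0 N) q0 (fun l : Fin N =>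
      (∏ k ∈ (Ioo (((j : ℕ) : ℤ) + 1) (((j : ℕ) : ℤ) + 1 + ((N + 1 : ℕ) : ℤ))).erase ((N : ℤ) + 1),
        Real.sin ((nd (N + 1) V l - V ((j : ℕ) + 1) k) / 2)) *
      Real.sin ((nd (N + 1) V l - (V ((j : ℕ) + 1) (N + 1) - δ)) / 2)) := by
  have hc := mixw_cont V (std (N + 1))
  have h := cl (f := fun ε => (-1 : ℝ) ^ ((j : ℕ) + q0 + 1) *
    rowFn (cm (Mf (N + 1) (mixw V (std (N + 1)) ε)) 0 N) q0 (fun l : Fin N =>
      (∏ k ∈ (Ioo (((j : ℕ) : ℤ) + 1) (((j : ℕ) : ℤ) + 1 + ((N + 1 : ℕ) : ℤ))).erase ((N : ℤ) + 1),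
        Real.sin ((nd (N + 1) (mixw V (std (N + 1)) ε) l -
          mixw V (std (N + 1)) ε ((j : ℕ) + 1) k) / 2)) *
      Real.sin ((nd (N + 1) (mixw V (std (N + 1)) ε) l -
        (mixw V (std (N + 1)) ε ((j : ℕ) + 1) (N + 1) - δ)) / 2)))
    (by
      refine continuous_const.mul (cont_rowFn (fun i j => cont_Mf hc _ _ _) _ _ _ fun l => ?_)
      refine (continuous_finsetProd _ fun k _ => ?_).mul ?_
      · exact Real.continuous_sin.comp (((cont_nd hc _ _).sub (hc _ _)).div_const 2)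
      · exact Real.continuous_sin.comp
          (((cont_nd hc _ _).sub ((hc _ _).sub continuous_const)).div_const 2))
    (fun ε h7 h8 => sgnT hN (mixw_karr H (std_karr (N + 1) (by omega)) h7 h8) q0 j hlt δ hδ hδ2)
  simp only [mixw_zero] at h
  exact h

theorem sgnCw (hN : 1 ≤ N) {V' : ℤ → ℤ → ℝ} (H : WArr (N + 1) V) (H' : WArr (N + 1) V')
    (i : ℕ) (j : Fin N) (hij : i ≤ j)
    (heq : ∀ q k : ℤ, ¬ (((N + 1 : ℕ) : ℤ) ∣ q - i) → V' q k = V q k)
    (hle : ∀ k : ℤ, (i : ℤ) < k → k < i + (N + 1 : ℕ) → V i k ≤ V' i k) :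
    0 ≤ (-1 : ℝ) ^ ((j : ℕ) + i) * rowFn (cm (Mf (N + 1) V) 0 N) j
      (fun l : Fin N => Rv (N + 1) V' i (nd (N + 1) V l)) := by
  have hc := mixw_cont V (std (N + 1))
  have hc' := mixw_cont V' (std (N + 1))
  have h := cl (f := fun ε => (-1 : ℝ) ^ ((j : ℕ) + i) *
    rowFn (cm (Mf (N + 1) (mixw V (std (N + 1)) ε)) 0 N) j
      (fun l : Fin N => Rv (N + 1) (mixw V' (std (N + 1)) ε) i
        (nd (N + 1) (mixw V (std (N + 1)) ε) l)))
    (by
      refine continuous_const.mul (cont_rowFn (fun i j => cont_Mf hc _ _ _) _ _ _ fun l => ?_)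
      exact cont_Rv hc' (cont_nd hc _ _) _ _)
    (fun ε h7 h8 => by
      refine sgnC hN (mixw_karr H (std_karr (N + 1) (by omega)) h7 h8)
        (mixw_karr H' (std_karr (N + 1) (by omega)) h7 h8) i j hij ?_ ?_
      · intro q k hq
        unfold mixw
        rw [heq q k hq]
      · intro k h1 h2
        unfold mixw
        have := hle k h1 h2
        nlinarith [mul_nonneg (sub_nonneg.2 h8) (sub_nonneg.2 this)])
  simp only [mixw_zero] at h
  exact h

end Pool.Agent.H65.AS
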